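import Mathlib

open Set Metric Function

namespace Pool.Agent.ANO

/-- A homeomorphism `f` of a metric space with two families of relations: `S x y t` means that `y` lies on
the stable leaf of `x` at distance at most `t` (in an adapted leafwise metric), `U x y t` the same for the
unstable leaves. -/
structure Sys (M : Type) [MetricSpace M] where
  f : M ≃ₜ M
  S : M → M → ℝ → Prop
  U : M → M → ℝ → Prop
  a : ℝ
  b : ℝ
  c : ℝ
  e : ℝ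
  ha : 0 < a
  hab : a ≤ b
  hc : 0 < c
  hce : c ≤ e
  pinch : (b - a) * (e - c) < a * c
  S_refl : ∀ x, S x x 0
  S_symm : ∀ x y t, S x y t → S y x t
  S_mono : ∀ x y t t', t ≤ t' → S x y t → S x y t'
  S_tri : ∀ x y z t t', S x y t → S y z t' → S x z (t + t')
  S_dist : ∀ x y t, S x y t → dist x y ≤ t
  S_fwd : ∀ x y t, S x y t → S (f x) (f y) (Real.exp (-a) * t)
  S_bwd : ∀ x y t, S x y t → S (f.symm x) (f.symm y) (Real.exp b * t)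
  U_refl : ∀ x, U x x 0
  U_symm : ∀ x y t, U x y t → U y x t
  U_mono : ∀ x y t t', t ≤ t' → U x y t → U x y t'
  U_tri : ∀ x y z t t', U x y t → U y z t' → U x z (t + t')
  U_dist : ∀ x y t, U x y t → dist x y ≤ t
  U_bwd : ∀ x y t, U x y t → U (f.symm x) (f.symm y) (Real.exp (-c) * t)
  U_fwd : ∀ x y t, U x y t → U (f x) (f y) (Real.exp e * t)
  r : ℝ
  hr : 0 < r
  C : ℝ
  hC : 1 ≤ C
  S_cmp : ∀ x y, S x y r → S x y (C * dist x y)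
  U_cmp : ∀ x y, U x y r → U x y (C * dist x y)
  S_closed : ∀ t : ℝ, IsClosed {p : M × M | S p.1 p.2 t}
  U_closed : ∀ t : ℝ, IsClosed {p : M × M | U p.1 p.2 t}
  br : ∀ ε > 0, ∃ δ > 0, ∀ x y, dist x y < δ → ∃ z, S x z ε ∧ U y z ε

/-- The same system for the inverse homeomorphism. -/
def Sys.symm {M : Type} [MetricSpace M] (D : Sys M) : Sys M where
  f := D.f.symm
  S := D.U
  U := D.S
  a := D.c
  b := D.e
  c := D.a
  e := D.b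
  ha := D.hc
  hab := D.hce
  hc := D.ha
  hce := D.hab
  pinch := by have := D.pinch; nlinarith
  S_refl := D.U_refl
  S_symm := D.U_symm
  S_mono := D.U_mono
  S_tri := D.U_tri
  S_dist := D.U_dist
  S_fwd := D.U_bwd
  S_bwd := D.U_fwd
  U_refl := D.S_refl
  U_symm := D.S_symm
  U_mono := D.S_mono
  U_tri := D.S_tri
  U_dist := D.S_dist
  U_bwd := D.S_fwd
  U_fwd := D.S_bwd
  r := D.r
  hr := D.hr
  C := D.C
  hC := D.hC
  S_cmp := D.U_cmp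
  U_cmp := D.S_cmp
  S_closed := D.U_closed
  U_closed := D.S_closed
  br := fun ε hε => by
    obtain ⟨δ, hδ, h⟩ := D.br ε hε
    refine ⟨δ, hδ, fun x y hxy => ?_⟩
    obtain ⟨z, h1, h2⟩ := h y x (by rwa [dist_comm])
    exact ⟨z, h2, h1⟩

/-- A map `h` on `A × B` is a rectangle if it moves along stable leaves in the first variable and along
unstable leaves in the second one, uniformly. -/
def Rect {M : Type} [MetricSpace M] (D : Sys M) {α β : Type} [PseudoMetricSpace α] [PseudoMetricSpace β]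
    (A : Set α) (B : Set β) (h : α → β → M) : Prop :=
  (∀ ε > 0, ∃ ρ > 0, ∀ s ∈ A, ∀ s' ∈ A, ∀ t ∈ B, dist s s' < ρ → D.S (h s t) (h s' t) ε) ∧
  (∀ ε > 0, ∃ ρ > 0, ∀ s ∈ A, ∀ t ∈ B, ∀ t' ∈ B, dist t t' < ρ → D.U (h s t) (h s t') ε)

/-- Parametrisations of the stable and unstable leaves of a system by linear spaces. -/
structure Leaves (M : Type) [MetricSpace M] (D : Sys M) (E : Type) [NormedAddCommGroup E]
    [NormedSpace ℝ E] where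
  Es : M → Submodule ℝ E
  Eu : M → Submodule ℝ E
  θs : ∀ x, Es x → M
  θu : ∀ x, Eu x → M
  R0 : ℝ
  hR0 : 0 < R0
  K0 : ℝ
  hK0 : 1 ≤ K0
  s_zero : ∀ x, θs x 0 = x
  u_zero : ∀ x, θu x 0 = x
  s_lip : ∀ (x : M) (R : ℝ), ∃ K : ℝ, 0 ≤ K ∧ ∀ v w : Es x, ‖v‖ ≤ R → ‖w‖ ≤ R →
    D.S (θs x v) (θs x w) (K * ‖v - w‖)
  u_lip : ∀ (x : M) (R : ℝ), ∃ K : ℝ, 0 ≤ K ∧ ∀ v w : Eu x, ‖v‖ ≤ R → ‖w‖ ≤ R →
    D.U (θu x v) (θu x w) (K * ‖v - w‖)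
  s_inj : ∀ x, Injective (θs x)
  u_inj : ∀ x, Injective (θu x)
  s_surj : ∀ x y t, D.S x y t → ∃ v : Es x, θs x v = y
  u_surj : ∀ x y t, D.U x y t → ∃ v : Eu x, θu x v = y
  s_inv : ∀ (x : M) (v : Es x) (ε : ℝ), 0 < ε → ∃ δ > 0, ∀ w : Es x,
    D.S (θs x v) (θs x w) δ → ‖v - w‖ < ε
  u_inv : ∀ (x : M) (v : Eu x) (ε : ℝ), 0 < ε → ∃ δ > 0, ∀ w : Eu x,
    D.U (θu x v) (θu x w) δ → ‖v - w‖ < ε
  s_unif : ∀ (x : M) (v w : Es x), ‖v‖ ≤ R0 → ‖w‖ ≤ R0 → D.S (θs x v) (θs x w) (K0 * ‖v - w‖)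
  u_unif : ∀ (x : M) (v w : Eu x), ‖v‖ ≤ R0 → ‖w‖ ≤ R0 → D.U (θu x v) (θu x w) (K0 * ‖v - w‖)
  s_loc : ∀ (x y : M) (t : ℝ), t ≤ R0 → D.S x y t → ∃ v : Es x, ‖v‖ ≤ K0 * t ∧ θs x v = y
  u_loc : ∀ (x y : M) (t : ℝ), t ≤ R0 → D.U x y t → ∃ v : Eu x, ‖v‖ ≤ K0 * t ∧ θu x v = y

/-- The leaves of the inverse system. -/
def Leaves.symm {M : Type} [MetricSpace M] {D : Sys M} {E : Type} [NormedAddCommGroup E]
    [NormedSpace ℝ E] (Λ : Leaves M D E) : Leaves M D.symm E where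
  Es := Λ.Eu
  Eu := Λ.Es
  θs := Λ.θu
  θu := Λ.θs
  R0 := Λ.R0
  hR0 := Λ.hR0
  K0 := Λ.K0
  hK0 := Λ.hK0
  s_zero := Λ.u_zero
  u_zero := Λ.s_zero
  s_lip := Λ.u_lip
  u_lip := Λ.s_lip
  s_inj := Λ.u_inj
  u_inj := Λ.s_inj
  s_surj := Λ.u_surj
  u_surj := Λ.s_surj
  s_inv := Λ.u_inv
  u_inv := Λ.s_inv
  s_unif := Λ.u_unif
  u_unif := Λ.s_unif
  s_loc := Λ.u_loc
  u_loc := Λ.s_loc

/-- A hyperbolic homeomorphism in local coordinates: `c x y` are the coordinates of `y` in a chart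
centred at `x`, `A x` is the derivative of `f` at `x`, `Es x` and `Eu x` are the stable and the unstable
subspace, `n x` is the norm at `x` and `l1 ≤ l2 < 1 < m2 ≤ m1` bound the rates. -/
structure Loc (M : Type) [MetricSpace M] (E : Type) [NormedAddCommGroup E] [NormedSpace ℝ E] where
  f : M ≃ₜ M
  c : M → M → E
  r : ℝ
  hr : 0 < r
  L : ℝ
  hL : 1 ≤ L
  c_self : ∀ x, c x x = 0
  c_le : ∀ x y z, dist x y ≤ r → dist x z ≤ r → ‖c x y - c x z‖ ≤ L * dist y z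
  le_c : ∀ x y z, dist x y ≤ r → dist x z ≤ r → dist y z ≤ L * ‖c x y - c x z‖
  c_surj : ∀ x v, L * ‖v‖ ≤ r → ∃ y, dist x y ≤ r ∧ c x y = v
  A : M → E ≃L[ℝ] E
  A_le : ∀ x v, ‖A x v‖ ≤ L * ‖v‖
  A_symm_le : ∀ x v, ‖(A x).symm v‖ ≤ L * ‖v‖
  der : ∀ η > 0, ∃ ρ > 0, ∀ x y z, dist x y ≤ ρ → dist x z ≤ ρ →
    ‖c (f x) (f y) - c (f x) (f z) - A x (c x y - c x z)‖ ≤ η * ‖c x y - c x z‖
  Es : M → Submodule ℝ E
  Eu : M → Submodule ℝ E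
  compl : ∀ x, IsCompl (Es x) (Eu x)
  A_s : ∀ x v, v ∈ Es x → A x v ∈ Es (f x)
  A_u : ∀ x v, v ∈ Eu x → A x v ∈ Eu (f x)
  n : M → E → ℝ
  n_add : ∀ x v w, n x (v + w) ≤ n x v + n x w
  n_smul : ∀ x (t : ℝ) v, n x (t • v) = |t| * n x v
  n_le : ∀ x v, n x v ≤ L * ‖v‖
  le_n : ∀ x v, ‖v‖ ≤ L * n x v
  ang_s : ∀ x v w, v ∈ Es x → w ∈ Eu x → n x v ≤ L * n x (v + w)
  ang_u : ∀ x v w, v ∈ Es x → w ∈ Eu x → n x w ≤ L * n x (v + w)
  l1 : ℝ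
  l2 : ℝ
  m2 : ℝ
  m1 : ℝ
  hl1 : 0 < l1
  hl12 : l1 ≤ l2
  hl2 : l2 < 1
  hm2 : 1 < m2
  hm12 : m2 ≤ m1
  s_lo : ∀ x v, v ∈ Es x → l1 * n x v ≤ n (f x) (A x v)
  s_hi : ∀ x v, v ∈ Es x → n (f x) (A x v) ≤ l2 * n x v
  u_lo : ∀ x v, v ∈ Eu x → m2 * n x v ≤ n (f x) (A x v)
  u_hi : ∀ x v, v ∈ Eu x → n (f x) (A x v) ≤ m1 * n x v

/-- The relation `S` of the homeomorphism `f` with rates `a ≤ b`: `SRel f a b x y t` says that the weighted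
distances of the two orbits, with weight `exp (a k)` at the time `k ≥ 0` and `exp (-b k)` at the time `-k ≤ 0`,
are all at most `t`. -/
def SRel {M : Type} [MetricSpace M] (f : M ≃ₜ M) (a b : ℝ) (x y : M) (t : ℝ) : Prop :=
  (∀ k : ℕ, Real.exp (a * k) * dist (f^[k] x) (f^[k] y) ≤ t) ∧
  (∀ k : ℕ, Real.exp (-(b * k)) * dist (f.symm^[k] x) (f.symm^[k] y) ≤ t)

/-- The stable projection of a hyperbolic homeomorphism in local coordinates. -/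
noncomputable def Loc.P {M : Type} [MetricSpace M] {E : Type} [NormedAddCommGroup E] [NormedSpace ℝ E]
    (H : Loc M E) (x : M) : E →ₗ[ℝ] E :=
  (H.Es x).projection (H.Eu x) (H.compl x)

/-- Changes of coordinates between neighbouring charts and transversality of the splitting. -/
structure Trans {M : Type} [MetricSpace M] {E : Type} [NormedAddCommGroup E] [NormedSpace ℝ E]
    (H : Loc M E) where
  B : M → M → E →L[ℝ] E
  ρ : ℝ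
  hρ : 0 < ρ
  κ : ℝ
  hκ : 0 < κ
  B_le : ∀ x y v, dist x y ≤ ρ → ‖B x y v‖ ≤ H.L * ‖v‖
  chg : ∀ η > 0, ∃ δ > 0, ∀ x y z z', dist x y ≤ δ → dist y z ≤ δ → dist y z' ≤ δ →
    ‖H.c x z - H.c x z' - B x y (H.c y z - H.c y z')‖ ≤ η * ‖H.c y z - H.c y z'‖
  tr : ∀ x y, dist x y ≤ ρ → ∀ v ∈ H.Es x, ∀ w ∈ H.Eu y, κ * (‖v‖ + ‖w‖) ≤ ‖v - B x y w‖
  dim : ∀ x y, dist x y ≤ ρ →
    Module.finrank ℝ (H.Es x) + Module.finrank ℝ (H.Eu y) = Module.finrank ℝ E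

end Pool.Agent.ANO
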