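import Mathlib
import Pool.Agent.ANO.Sys

open Set Metric Function
open scoped Manifold ContDiff

namespace Pool.Agent.ANO

/-- A finite family of charts of a manifold with a metric that is bi-Lipschitz in the charts: around `x` the
chart centred at `i x` is used. -/
structure Fam (d : ℕ) (M : Type) [MetricSpace M] [ChartedSpace (EuclideanSpace ℝ (Fin d)) M] where
  i : M → M
  fin : (range i).Finite
  r : ℝ
  hr : 0 < r
  C : ℝ
  hC : 1 ≤ C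
  src : ∀ x y, dist x y ≤ 2 * r → y ∈ (chartAt (EuclideanSpace ℝ (Fin d)) (i x)).source
  le1 : ∀ x y z, dist x y ≤ 2 * r → dist x z ≤ 2 * r →
    ‖extChartAt (𝓡 d) (i x) y - extChartAt (𝓡 d) (i x) z‖ ≤ C * dist y z
  le2 : ∀ x y z, dist x y ≤ 2 * r → dist x z ≤ 2 * r →
    dist y z ≤ C * ‖extChartAt (𝓡 d) (i x) y - extChartAt (𝓡 d) (i x) z‖
  surj : ∀ (x : M) (v : EuclideanSpace ℝ (Fin d)), C * ‖v‖ ≤ r → ∃ y, dist x y ≤ r ∧
    extChartAt (𝓡 d) (i x) y = extChartAt (𝓡 d) (i x) x + v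

section

variable {d : ℕ} {M : Type} [MetricSpace M] [ChartedSpace (EuclideanSpace ℝ (Fin d)) M]

/-- Coordinates of `y` in the chart around `x`. -/
noncomputable def Fam.co (F : Fam d M) (x y : M) : EuclideanSpace ℝ (Fin d) :=
  extChartAt (𝓡 d) (F.i x) y - extChartAt (𝓡 d) (F.i x) x

variable [IsManifold (𝓡 d) ∞ M]

/-- Coordinates of tangent vectors at `y` in the chart around `x`. -/
noncomputable def Fam.T (F : Fam d M) (x y : M) :
    TangentSpace (𝓡 d) y →L[ℝ] EuclideanSpace ℝ (Fin d) :=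
  (trivializationAt (EuclideanSpace ℝ (Fin d)) (TangentSpace (𝓡 d) : M → Type)
    (F.i x)).continuousLinearMapAt ℝ y

/-- The inverse of `Fam.T`. -/
noncomputable def Fam.T' (F : Fam d M) (x y : M) :
    EuclideanSpace ℝ (Fin d) →L[ℝ] TangentSpace (𝓡 d) y :=
  (trivializationAt (EuclideanSpace ℝ (Fin d)) (TangentSpace (𝓡 d) : M → Type)
    (F.i x)).symmL ℝ y

/-- The derivative of `h` at `y` in the chart around `y` and the chart around `x` (a point near `h y`). -/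
noncomputable def Fam.D (F : Fam d M) (h : M → M) (x y : M) :
    EuclideanSpace ℝ (Fin d) →L[ℝ] EuclideanSpace ℝ (Fin d) :=
  (F.T x (h y)).comp ((mfderiv (𝓡 d) (𝓡 d) h y).comp (F.T' y y))

end

/-- A diffeomorphism which is hyperbolic in one step for a continuous norm. -/
structure Anosov1 (d : ℕ) (M : Type) [TopologicalSpace M] [ChartedSpace (EuclideanSpace ℝ (Fin d)) M]
    [IsManifold (𝓡 d) ∞ M] where
  f : M → M
  g : M → M
  hf : ContMDiff (𝓡 d) (𝓡 d) 1 f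
  hg : ContMDiff (𝓡 d) (𝓡 d) 1 g
  gf : LeftInverse g f
  fg : RightInverse g f
  N : ∀ x : M, TangentSpace (𝓡 d) x → ℝ
  N_cont : Continuous (fun p : TangentBundle (𝓡 d) M => N p.proj p.snd)
  N_add : ∀ (x : M) (v w : TangentSpace (𝓡 d) x), N x (v + w) ≤ N x v + N x w
  N_smul : ∀ (x : M) (t : ℝ) (v : TangentSpace (𝓡 d) x), N x (t • v) = |t| * N x v
  N_pos : ∀ (x : M) (v : TangentSpace (𝓡 d) x), N x v = 0 → v = 0
  l1 : ℝ
  l2 : ℝ
  m2 : ℝ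
  m1 : ℝ
  hl1 : 0 < l1
  hl12 : l1 ≤ l2
  hl2 : l2 < 1
  hm2 : 1 < m2
  hm12 : m2 ≤ m1
  Es : ∀ x : M, Submodule ℝ (TangentSpace (𝓡 d) x)
  Eu : ∀ x : M, Submodule ℝ (TangentSpace (𝓡 d) x)
  compl : ∀ x : M, IsCompl (Es x) (Eu x)
  inv_s : ∀ (x : M) (v : TangentSpace (𝓡 d) x), v ∈ Es x → mfderiv (𝓡 d) (𝓡 d) f x v ∈ Es (f x)
  inv_u : ∀ (x : M) (v : TangentSpace (𝓡 d) x), v ∈ Eu x → mfderiv (𝓡 d) (𝓡 d) f x v ∈ Eu (f x)
  s_lo : ∀ (x : M) (v : TangentSpace (𝓡 d) x), v ∈ Es x →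
    l1 * N x v ≤ N (f x) (mfderiv (𝓡 d) (𝓡 d) f x v)
  s_hi : ∀ (x : M) (v : TangentSpace (𝓡 d) x), v ∈ Es x →
    N (f x) (mfderiv (𝓡 d) (𝓡 d) f x v) ≤ l2 * N x v
  u_lo : ∀ (x : M) (v : TangentSpace (𝓡 d) x), v ∈ Eu x →
    m2 * N x v ≤ N (f x) (mfderiv (𝓡 d) (𝓡 d) f x v)
  u_hi : ∀ (x : M) (v : TangentSpace (𝓡 d) x), v ∈ Eu x →
    N (f x) (mfderiv (𝓡 d) (𝓡 d) f x v) ≤ m1 * N x v

end Pool.Agent.ANO
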