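import Mathlib
import Pool.Agent.ANO.Man

open Set Metric Function
open scoped Manifold ContDiff

namespace Pool.Agent.ANO

variable {d : ℕ} {M : Type} [MetricSpace M] [ChartedSpace (EuclideanSpace ℝ (Fin d)) M]
  [IsManifold (𝓡 d) ∞ M]

private theorem c1e_hasFDerivAt (h : M → M) (a b y : M)
    (hb : y ∈ (chartAt (EuclideanSpace ℝ (Fin d)) b).source)
    (ha : h y ∈ (chartAt (EuclideanSpace ℝ (Fin d)) a).source)
    (hd : MDifferentiableAt (𝓡 d) (𝓡 d) h y) :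
    HasFDerivAt (extChartAt (𝓡 d) a ∘ h ∘ (extChartAt (𝓡 d) b).symm)
      (((trivializationAt (EuclideanSpace ℝ (Fin d)) (TangentSpace (𝓡 d) : M → Type)
          a).continuousLinearMapAt ℝ (h y)).comp ((mfderiv (𝓡 d) (𝓡 d) h y).comp
        ((trivializationAt (EuclideanSpace ℝ (Fin d)) (TangentSpace (𝓡 d) : M → Type)
          b).symmL ℝ y))) (extChartAt (𝓡 d) b y) := by
  have : IsManifold (𝓡 d) 1 M := IsManifold.of_le (n := ∞) (by exact_mod_cast le_top)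
  have hsy : (extChartAt (𝓡 d) b).symm (extChartAt (𝓡 d) b y) = y :=
    (extChartAt (𝓡 d) b).left_inv (by rw [extChartAt_source]; exact hb)
  have h1 : HasMFDerivAt (𝓘(ℝ, EuclideanSpace ℝ (Fin d))) (𝓡 d) (extChartAt (𝓡 d) b).symm
      (extChartAt (𝓡 d) b y)
      ((trivializationAt (EuclideanSpace ℝ (Fin d)) (TangentSpace (𝓡 d) : M → Type)
          b).symmL ℝ y) := by
    rw [TangentBundle.symmL_trivializationAt hb, ModelWithCorners.range_eq_univ,
      mfderivWithin_univ]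
    have h2 := mdifferentiableWithinAt_extChartAt_symm (I := 𝓡 d) (x := b)
      (z := extChartAt (𝓡 d) b y)
      ((extChartAt (𝓡 d) b).map_source (by rw [extChartAt_source]; exact hb))
    rw [ModelWithCorners.range_eq_univ, mdifferentiableWithinAt_univ] at h2
    exact h2.hasMFDerivAt
  have h3 : HasMFDerivAt (𝓡 d) (𝓘(ℝ, EuclideanSpace ℝ (Fin d))) (extChartAt (𝓡 d) a) (h y)
      ((trivializationAt (EuclideanSpace ℝ (Fin d)) (TangentSpace (𝓡 d) : M → Type)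
          a).continuousLinearMapAt ℝ (h y)) := by
    rw [TangentBundle.continuousLinearMapAt_trivializationAt ha]
    exact (mdifferentiableAt_extChartAt ha).hasMFDerivAt
  have h4 := h3.comp y hd.hasMFDerivAt
  have h5 : HasMFDerivAt (𝓡 d) (𝓘(ℝ, EuclideanSpace ℝ (Fin d))) (extChartAt (𝓡 d) a ∘ h)
      ((extChartAt (𝓡 d) b).symm (extChartAt (𝓡 d) b y))
      (((trivializationAt (EuclideanSpace ℝ (Fin d)) (TangentSpace (𝓡 d) : M → Type)
          a).continuousLinearMapAt ℝ (h y)).comp (mfderiv (𝓡 d) (𝓡 d) h y)) := by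
    rw [hsy]
    exact h4
  have h6 := h5.comp (extChartAt (𝓡 d) b y) h1
  exact h6.hasFDerivAt

private theorem c1e_alg {E : Type*} [NormedAddCommGroup E] [NormedSpace ℝ E] (A A₀ : E →L[ℝ] E)
    (v w : E) {η : ℝ} (h10 : ‖w - A₀ v‖ ≤ η / 2 * ‖v‖) (h11 : ‖A - A₀‖ ≤ η / 2) :
    ‖w - A v‖ ≤ η * ‖v‖ := by
  calc ‖w - A v‖ = ‖(w - A₀ v) - (A - A₀) v‖ := by
        congr 1
        rw [sub_apply]
        abel
    _ ≤ ‖w - A₀ v‖ + ‖(A - A₀) v‖ := norm_sub_le _ _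
    _ ≤ η / 2 * ‖v‖ + η / 2 * ‖v‖ := by
        refine add_le_add h10 (((A - A₀).le_opNorm v).trans ?_)
        exact mul_le_mul_of_nonneg_right h11 (norm_nonneg _)
    _ = η * ‖v‖ := by ring

private theorem c1e_pull {α E G : Type*} [TopologicalSpace α] [NormedAddCommGroup E]
    [NormedSpace ℝ E] [NormedAddCommGroup G] [NormedSpace ℝ G] (φ : α → E) {y₀ : α}
    (hφ : ContinuousAt φ y₀) {H : E → G} {A : E →L[ℝ] G} (hsf : HasStrictFDerivAt H A (φ y₀))
    {ε : ℝ} (hε : 0 < ε) : ∃ V ∈ nhds y₀, ∀ z ∈ V, ∀ z' ∈ V,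
      ‖H (φ z) - H (φ z') - A (φ z - φ z')‖ ≤ ε * ‖φ z - φ z'‖ := by
  have h2 := hsf.isLittleO.def hε
  have h3 : Filter.Tendsto (fun p : α × α => (φ p.1, φ p.2))
      (nhds (y₀, y₀)) (nhds (φ y₀, φ y₀)) := by
    have h4 : ContinuousAt (fun p : α × α => (φ p.1, φ p.2)) (y₀, y₀) :=
      ContinuousAt.prodMk (ContinuousAt.comp (f := Prod.fst) hφ continuousAt_fst)
        (ContinuousAt.comp (f := Prod.snd) hφ continuousAt_snd)
    exact h4
  have e1 := h3.eventually h2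
  rw [nhds_prod_eq] at e1
  obtain ⟨V, hV, h9⟩ := Filter.mem_prod_same_iff.1 e1
  exact ⟨V, hV, fun z hz z' hz' => h9 (mk_mem_prod hz hz')⟩

private theorem c1e_local (h : M → M) (hh : ContMDiff (𝓡 d) (𝓡 d) 1 h) {η : ℝ} (hη : 0 < η)
    (a b y₀ : M) (hb : y₀ ∈ (chartAt (EuclideanSpace ℝ (Fin d)) b).source)
    (ha : h y₀ ∈ (chartAt (EuclideanSpace ℝ (Fin d)) a).source) :
    ∃ U ∈ nhds y₀, ∀ y ∈ U, ∀ z ∈ U, ∀ z' ∈ U,
      ‖extChartAt (𝓡 d) a (h z) - extChartAt (𝓡 d) a (h z') -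
        (((trivializationAt (EuclideanSpace ℝ (Fin d)) (TangentSpace (𝓡 d) : M → Type)
          a).continuousLinearMapAt ℝ (h y)).comp ((mfderiv (𝓡 d) (𝓡 d) h y).comp
        ((trivializationAt (EuclideanSpace ℝ (Fin d)) (TangentSpace (𝓡 d) : M → Type)
          b).symmL ℝ y)) : EuclideanSpace ℝ (Fin d) →L[ℝ] EuclideanSpace ℝ (Fin d))
          (extChartAt (𝓡 d) b z - extChartAt (𝓡 d) b z')‖ ≤
        η * ‖extChartAt (𝓡 d) b z - extChartAt (𝓡 d) b z'‖ := by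
  have : IsManifold (𝓡 d) 1 M := IsManifold.of_le (n := ∞) (by exact_mod_cast le_top)
  set H : EuclideanSpace ℝ (Fin d) → EuclideanSpace ℝ (Fin d) :=
    extChartAt (𝓡 d) a ∘ h ∘ (extChartAt (𝓡 d) b).symm with hH
  have hcd : ContDiffAt ℝ 1 H (extChartAt (𝓡 d) b y₀) := by
    have h1 := ((contMDiffAt_iff_of_mem_source (x := b) (y := a) hb ha).1 (hh y₀)).2
    rw [ModelWithCorners.range_eq_univ, contDiffWithinAt_univ] at h1
    exact h1
  have hsf : HasStrictFDerivAt H (fderiv ℝ H (extChartAt (𝓡 d) b y₀)) (extChartAt (𝓡 d) b y₀) :=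
    hcd.hasStrictFDerivAt (by norm_num)
  have hcf : ContinuousAt (fderiv ℝ H) (extChartAt (𝓡 d) b y₀) :=
    (hcd.fderiv_right (m := 0) (by norm_num)).continuousAt
  have hφ : ContinuousAt (extChartAt (𝓡 d) b) y₀ :=
    continuousAt_extChartAt' (by rw [extChartAt_source]; exact hb)
  have hη2 : 0 < η / 2 := by linarith
  obtain ⟨V, hV, h9⟩ := c1e_pull (extChartAt (𝓡 d) b) hφ hsf hη2
  have e2 : ∀ᶠ y in nhds y₀, ‖fderiv ℝ H (extChartAt (𝓡 d) b y) -
      fderiv ℝ H (extChartAt (𝓡 d) b y₀)‖ ≤ η / 2 := by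
    have h5 : ContinuousAt (fun y => fderiv ℝ H (extChartAt (𝓡 d) b y)) y₀ :=
      ContinuousAt.comp (f := extChartAt (𝓡 d) b) hcf hφ
    have h6 := Metric.continuousAt_iff.1 h5 (η / 2) hη2
    obtain ⟨δ, hδ, h7⟩ := h6
    filter_upwards [Metric.ball_mem_nhds y₀ hδ] with y hy
    have h8 := h7 (x := y) hy
    rw [dist_eq_norm] at h8
    exact h8.le
  have e3 : ∀ᶠ y in nhds y₀, y ∈ (chartAt (EuclideanSpace ℝ (Fin d)) b).source :=
    (chartAt (EuclideanSpace ℝ (Fin d)) b).open_source.mem_nhds hb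
  have e4 : ∀ᶠ y in nhds y₀, h y ∈ (chartAt (EuclideanSpace ℝ (Fin d)) a).source :=
    hh.continuous.continuousAt ((chartAt (EuclideanSpace ℝ (Fin d)) a).open_source.mem_nhds ha)
  refine ⟨V ∩ {y | ‖fderiv ℝ H (extChartAt (𝓡 d) b y) -
      fderiv ℝ H (extChartAt (𝓡 d) b y₀)‖ ≤ η / 2 ∧
      y ∈ (chartAt (EuclideanSpace ℝ (Fin d)) b).source ∧
      h y ∈ (chartAt (EuclideanSpace ℝ (Fin d)) a).source},
      Filter.inter_mem hV (e2.and (e3.and e4)), ?_⟩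
  intro y hy z hz z' hz'
  have hd := (c1e_hasFDerivAt h a b y hy.2.2.1 hy.2.2.2
    ((hh y).mdifferentiableAt (by norm_num))).fderiv
  rw [← hd]
  have hHz : ∀ w, w ∈ (chartAt (EuclideanSpace ℝ (Fin d)) b).source →
      H (extChartAt (𝓡 d) b w) = extChartAt (𝓡 d) a (h w) := by
    intro w hw
    rw [hH]
    simp only [Function.comp]
    rw [(extChartAt (𝓡 d) b).left_inv (by rw [extChartAt_source]; exact hw)]
  have h10 := h9 z hz.1 z' hz'.1
  rw [hHz z hz.2.2.1, hHz z' hz'.2.2.1] at h10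
  have h11 := hy.2.1
  exact c1e_alg _ _ _ _ h10 h11

/-- Uniform differentiability of a `C^1` map in the family of charts. -/
theorem Fam.c1 [CompactSpace M] (F : Fam d M) (h : M → M) (hh : ContMDiff (𝓡 d) (𝓡 d) 1 h) (η : ℝ)
    (hη : 0 < η) : ∃ ρ > 0, ∀ x y z z', dist x (h y) ≤ ρ → dist y z ≤ ρ → dist y z' ≤ ρ →
      ‖F.co x (h z) - F.co x (h z') - F.D h x y (F.co y z - F.co y z')‖ ≤
        η * ‖F.co y z - F.co y z'‖ := by
  classical
  have hloc : ∀ y₀ : M, ∃ U ∈ nhds y₀, ∀ x, ∀ y ∈ U, ∀ z ∈ U, ∀ z' ∈ U, dist x (h y) ≤ F.r →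
      ‖F.co x (h z) - F.co x (h z') - F.D h x y (F.co y z - F.co y z')‖ ≤
        η * ‖F.co y z - F.co y z'‖ := by
    intro y₀
    have h1 : ∀ p : M × M, ∃ U ∈ nhds y₀,
        y₀ ∈ (chartAt (EuclideanSpace ℝ (Fin d)) p.2).source →
        h y₀ ∈ (chartAt (EuclideanSpace ℝ (Fin d)) p.1).source →
        ∀ y ∈ U, ∀ z ∈ U, ∀ z' ∈ U,
      ‖extChartAt (𝓡 d) p.1 (h z) - extChartAt (𝓡 d) p.1 (h z') -
        (((trivializationAt (EuclideanSpace ℝ (Fin d)) (TangentSpace (𝓡 d) : M → Type)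
          p.1).continuousLinearMapAt ℝ (h y)).comp ((mfderiv (𝓡 d) (𝓡 d) h y).comp
        ((trivializationAt (EuclideanSpace ℝ (Fin d)) (TangentSpace (𝓡 d) : M → Type)
          p.2).symmL ℝ y)) : EuclideanSpace ℝ (Fin d) →L[ℝ] EuclideanSpace ℝ (Fin d))
          (extChartAt (𝓡 d) p.2 z - extChartAt (𝓡 d) p.2 z')‖ ≤
        η * ‖extChartAt (𝓡 d) p.2 z - extChartAt (𝓡 d) p.2 z'‖ := by
      intro p
      by_cases hp : y₀ ∈ (chartAt (EuclideanSpace ℝ (Fin d)) p.2).source ∧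
        h y₀ ∈ (chartAt (EuclideanSpace ℝ (Fin d)) p.1).source
      · obtain ⟨U, hU, h2⟩ := c1e_local h hh hη p.1 p.2 y₀ hp.1 hp.2
        exact ⟨U, hU, fun _ _ => h2⟩
      · exact ⟨univ, Filter.univ_mem, fun h3 h4 => absurd ⟨h3, h4⟩ hp⟩
    choose U hU h2 using h1
    have hfin : (range F.i ×ˢ range F.i).Finite := F.fin.prod F.fin
    have hmem : (⋂ p ∈ range F.i ×ˢ range F.i, U p) ∈ nhds y₀ :=
      (Filter.biInter_mem hfin).2 (fun p _ => hU p)
    have hb1 : {y | dist y y₀ ≤ F.r} ∈ nhds y₀ := Metric.closedBall_mem_nhds y₀ F.hr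
    have hb2 : {y | dist (h y) (h y₀) ≤ F.r} ∈ nhds y₀ :=
      hh.continuous.continuousAt (Metric.closedBall_mem_nhds (h y₀) F.hr)
    refine ⟨(⋂ p ∈ range F.i ×ˢ range F.i, U p) ∩ ({y | dist y y₀ ≤ F.r} ∩
      {y | dist (h y) (h y₀) ≤ F.r}), Filter.inter_mem hmem (Filter.inter_mem hb1 hb2), ?_⟩
    intro x y hy z hz z' hz' hx
    have hr := F.hr
    have hs1 : y₀ ∈ (chartAt (EuclideanSpace ℝ (Fin d)) (F.i y)).source := by
      refine F.src y y₀ ?_
      have := hy.2.1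
      simp only [mem_ofPred_eq] at this
      linarith
    have hs2 : h y₀ ∈ (chartAt (EuclideanSpace ℝ (Fin d)) (F.i x)).source := by
      refine F.src x (h y₀) ?_
      have := hy.2.2
      simp only [mem_ofPred_eq] at this
      linarith [dist_triangle x (h y) (h y₀)]
    have hpm : (F.i x, F.i y) ∈ range F.i ×ˢ range F.i := ⟨mem_range_self x, mem_range_self y⟩
    have h3 := h2 (F.i x, F.i y) hs1 hs2 y (mem_iInter₂.1 hy.1 _ hpm) z
      (mem_iInter₂.1 hz.1 _ hpm) z' (mem_iInter₂.1 hz'.1 _ hpm)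
    have h4 : F.co x (h z) - F.co x (h z') =
        extChartAt (𝓡 d) (F.i x) (h z) - extChartAt (𝓡 d) (F.i x) (h z') := by
      unfold Fam.co; abel
    have h5 : F.co y z - F.co y z' =
        extChartAt (𝓡 d) (F.i y) z - extChartAt (𝓡 d) (F.i y) z' := by
      unfold Fam.co; abel
    rw [h4, h5]
    exact h3
  choose U hU h1 using hloc
  obtain ⟨δ, hδ, h2⟩ := lebesgue_number_lemma_of_metric (s := (univ : Set M))
    (c := fun y₀ => interior (U y₀)) isCompact_univ (fun _ => isOpen_interior)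
    (fun y _ => mem_iUnion.2 ⟨y, mem_interior_iff_mem_nhds.2 (hU y)⟩)
  refine ⟨min (δ / 2) F.r, lt_min (by linarith) F.hr, ?_⟩
  intro x y z z' hx hz hz'
  obtain ⟨y₀, h3⟩ := h2 y (mem_univ y)
  have h4 : ∀ w, dist y w ≤ min (δ / 2) F.r → w ∈ U y₀ := by
    intro w hw
    refine interior_subset (h3 ?_)
    rw [mem_ball, dist_comm]
    exact lt_of_le_of_lt (hw.trans (min_le_left _ _)) (by linarith)
  refine h1 y₀ x y (h4 y ?_) z (h4 z hz) z' (h4 z' hz') (hx.trans (min_le_right _ _))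
  rw [dist_self]
  exact le_min (by linarith) F.hr.le

end Pool.Agent.ANO
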