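import Mathlib
import Pool.Agent.ANO.Man

open Set Metric Function
open scoped Manifold ContDiff

namespace Pool.Agent.ANO

variable {d : ℕ} {M : Type} [TopologicalSpace M] [ChartedSpace (EuclideanSpace ℝ (Fin d)) M]
  [IsManifold (𝓡 d) ∞ M]

theorem Anosov1.tm_gf (𝒜 : Anosov1 d M) (z : TangentBundle (𝓡 d) M) :
    tangentMap (𝓡 d) (𝓡 d) 𝒜.g (tangentMap (𝓡 d) (𝓡 d) 𝒜.f z) = z := by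
  have h := tangentMap_comp (I := 𝓡 d) (I' := 𝓡 d) (I'' := 𝓡 d)
    (𝒜.hg.mdifferentiable (by norm_num)) (𝒜.hf.mdifferentiable (by norm_num))
  have h2 : 𝒜.g ∘ 𝒜.f = id := funext 𝒜.gf
  rw [h2, tangentMap_id] at h
  exact (congrFun h z).symm

theorem Anosov1.tm_fg (𝒜 : Anosov1 d M) (z : TangentBundle (𝓡 d) M) :
    tangentMap (𝓡 d) (𝓡 d) 𝒜.f (tangentMap (𝓡 d) (𝓡 d) 𝒜.g z) = z := by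
  have h := tangentMap_comp (I := 𝓡 d) (I' := 𝓡 d) (I'' := 𝓡 d)
    (𝒜.hf.mdifferentiable (by norm_num)) (𝒜.hg.mdifferentiable (by norm_num))
  have h2 : 𝒜.f ∘ 𝒜.g = id := funext 𝒜.fg
  rw [h2, tangentMap_id] at h
  exact (congrFun h z).symm

private theorem ASY_N_zero (𝒜 : Anosov1 d M) (x : M) : 𝒜.N x 0 = 0 := by
  have h := 𝒜.N_smul x 0 0
  rw [abs_zero, zero_mul, smul_zero] at h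
  exact h

private theorem ASY_N_nonneg (𝒜 : Anosov1 d M) (x : M) (v : TangentSpace (𝓡 d) x) :
    0 ≤ 𝒜.N x v := by
  have h := 𝒜.N_add x v ((-1 : ℝ) • v)
  have h1 := 𝒜.N_smul x (-1) v
  have h2 : v + (-1 : ℝ) • v = 0 := by rw [neg_one_smul, add_neg_cancel]
  rw [h2, ASY_N_zero, h1] at h
  rw [abs_neg, abs_one, one_mul] at h
  linarith

private theorem ASY_memS (𝒜 : Anosov1 d M) (x : M) (v : TangentSpace (𝓡 d) x) (hv : v ∈ 𝒜.Es x) :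
    mfderiv (𝓡 d) (𝓡 d) 𝒜.f (𝒜.g x) (mfderiv (𝓡 d) (𝓡 d) 𝒜.g x v) ∈ 𝒜.Es (𝒜.f (𝒜.g x)) := by
  have h := 𝒜.tm_fg (⟨x, v⟩ : TangentBundle (𝓡 d) M)
  have h2 : (tangentMap (𝓡 d) (𝓡 d) 𝒜.f (tangentMap (𝓡 d) (𝓡 d) 𝒜.g
      (⟨x, v⟩ : TangentBundle (𝓡 d) M))).snd ∈ 𝒜.Es (tangentMap (𝓡 d) (𝓡 d) 𝒜.f
      (tangentMap (𝓡 d) (𝓡 d) 𝒜.g (⟨x, v⟩ : TangentBundle (𝓡 d) M))).proj := by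
    rw [h]; exact hv
  exact h2

private theorem ASY_memU (𝒜 : Anosov1 d M) (x : M) (v : TangentSpace (𝓡 d) x) (hv : v ∈ 𝒜.Eu x) :
    mfderiv (𝓡 d) (𝓡 d) 𝒜.f (𝒜.g x) (mfderiv (𝓡 d) (𝓡 d) 𝒜.g x v) ∈ 𝒜.Eu (𝒜.f (𝒜.g x)) := by
  have h := 𝒜.tm_fg (⟨x, v⟩ : TangentBundle (𝓡 d) M)
  have h2 : (tangentMap (𝓡 d) (𝓡 d) 𝒜.f (tangentMap (𝓡 d) (𝓡 d) 𝒜.g
      (⟨x, v⟩ : TangentBundle (𝓡 d) M))).snd ∈ 𝒜.Eu (tangentMap (𝓡 d) (𝓡 d) 𝒜.f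
      (tangentMap (𝓡 d) (𝓡 d) 𝒜.g (⟨x, v⟩ : TangentBundle (𝓡 d) M))).proj := by
    rw [h]; exact hv
  exact h2

private theorem ASY_N_eq (𝒜 : Anosov1 d M) (x : M) (v : TangentSpace (𝓡 d) x) :
    𝒜.N (𝒜.f (𝒜.g x)) (mfderiv (𝓡 d) (𝓡 d) 𝒜.f (𝒜.g x) (mfderiv (𝓡 d) (𝓡 d) 𝒜.g x v))
      = 𝒜.N x v :=
  congrArg (fun p : TangentBundle (𝓡 d) M => 𝒜.N p.proj p.snd)
    (𝒜.tm_fg (⟨x, v⟩ : TangentBundle (𝓡 d) M))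

private theorem ASY_ker (𝒜 : Anosov1 d M) (y : M) (w : TangentSpace (𝓡 d) y)
    (hw : mfderiv (𝓡 d) (𝓡 d) 𝒜.f y w = 0) : w = 0 := by
  have h := congrArg (fun p : TangentBundle (𝓡 d) M => 𝒜.N p.proj p.snd)
    (𝒜.tm_gf (⟨y, w⟩ : TangentBundle (𝓡 d) M))
  have h2 : 𝒜.N (𝒜.g (𝒜.f y)) (mfderiv (𝓡 d) (𝓡 d) 𝒜.g (𝒜.f y)
      (mfderiv (𝓡 d) (𝓡 d) 𝒜.f y w)) = 𝒜.N y w := h
  rw [hw, map_zero, ASY_N_zero] at h2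
  exact 𝒜.N_pos y w h2.symm

theorem Anosov1.inv_s_symm (𝒜 : Anosov1 d M) (x : M) (v : TangentSpace (𝓡 d) x) (hv : v ∈ 𝒜.Es x) :
    mfderiv (𝓡 d) (𝓡 d) 𝒜.g x v ∈ 𝒜.Es (𝒜.g x) := by
  set w := mfderiv (𝓡 d) (𝓡 d) 𝒜.g x v with hw
  have htop : w ∈ 𝒜.Es (𝒜.g x) ⊔ 𝒜.Eu (𝒜.g x) := by
    rw [(𝒜.compl (𝒜.g x)).sup_eq_top]; exact Submodule.mem_top
  obtain ⟨a, ha, b, hb, hab⟩ := Submodule.mem_sup.1 htop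
  have h1 := ASY_memS 𝒜 x v hv
  rw [← hw, ← hab, map_add] at h1
  have h2 := 𝒜.inv_s _ a ha
  have h3 := 𝒜.inv_u _ b hb
  have h4 : mfderiv (𝓡 d) (𝓡 d) 𝒜.f (𝒜.g x) b ∈ 𝒜.Es (𝒜.f (𝒜.g x)) := by
    have := (𝒜.Es (𝒜.f (𝒜.g x))).sub_mem h1 h2
    rwa [add_sub_cancel_left] at this
  have h5 := Submodule.disjoint_def.1 (𝒜.compl (𝒜.f (𝒜.g x))).disjoint _ h4 h3
  have h6 := ASY_ker 𝒜 _ b h5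
  rw [← hab, h6, add_zero]
  exact ha

theorem Anosov1.inv_u_symm (𝒜 : Anosov1 d M) (x : M) (v : TangentSpace (𝓡 d) x) (hv : v ∈ 𝒜.Eu x) :
    mfderiv (𝓡 d) (𝓡 d) 𝒜.g x v ∈ 𝒜.Eu (𝒜.g x) := by
  set w := mfderiv (𝓡 d) (𝓡 d) 𝒜.g x v with hw
  have htop : w ∈ 𝒜.Es (𝒜.g x) ⊔ 𝒜.Eu (𝒜.g x) := by
    rw [(𝒜.compl (𝒜.g x)).sup_eq_top]; exact Submodule.mem_top
  obtain ⟨a, ha, b, hb, hab⟩ := Submodule.mem_sup.1 htop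
  have h1 := ASY_memU 𝒜 x v hv
  rw [← hw, ← hab, map_add] at h1
  have h2 := 𝒜.inv_s _ a ha
  have h3 := 𝒜.inv_u _ b hb
  have h4 : mfderiv (𝓡 d) (𝓡 d) 𝒜.f (𝒜.g x) a ∈ 𝒜.Eu (𝒜.f (𝒜.g x)) := by
    have := (𝒜.Eu (𝒜.f (𝒜.g x))).sub_mem h1 h3
    rwa [add_sub_cancel_right] at this
  have h5 := Submodule.disjoint_def.1 (𝒜.compl (𝒜.f (𝒜.g x))).disjoint _ h2 h4
  have h6 := ASY_ker 𝒜 _ a h5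
  rw [← hab, h6, zero_add]
  exact hb

theorem Anosov1.s_lo_symm (𝒜 : Anosov1 d M) (x : M) (v : TangentSpace (𝓡 d) x) (hv : v ∈ 𝒜.Eu x) :
    𝒜.m1⁻¹ * 𝒜.N x v ≤ 𝒜.N (𝒜.g x) (mfderiv (𝓡 d) (𝓡 d) 𝒜.g x v) := by
  have h := 𝒜.u_hi _ _ (𝒜.inv_u_symm x v hv)
  rw [ASY_N_eq] at h
  have hm : 0 < 𝒜.m1 := by have := 𝒜.hm2; have := 𝒜.hm12; linarith
  rwa [inv_mul_le_iff₀ hm]

theorem Anosov1.s_hi_symm (𝒜 : Anosov1 d M) (x : M) (v : TangentSpace (𝓡 d) x) (hv : v ∈ 𝒜.Eu x) :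
    𝒜.N (𝒜.g x) (mfderiv (𝓡 d) (𝓡 d) 𝒜.g x v) ≤ 𝒜.m2⁻¹ * 𝒜.N x v := by
  have h := 𝒜.u_lo _ _ (𝒜.inv_u_symm x v hv)
  rw [ASY_N_eq] at h
  have hm : 0 < 𝒜.m2 := by have := 𝒜.hm2; linarith
  rwa [le_inv_mul_iff₀ hm]

theorem Anosov1.u_lo_symm (𝒜 : Anosov1 d M) (x : M) (v : TangentSpace (𝓡 d) x) (hv : v ∈ 𝒜.Es x) :
    𝒜.l2⁻¹ * 𝒜.N x v ≤ 𝒜.N (𝒜.g x) (mfderiv (𝓡 d) (𝓡 d) 𝒜.g x v) := by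
  have h := 𝒜.s_hi _ _ (𝒜.inv_s_symm x v hv)
  rw [ASY_N_eq] at h
  have hm : 0 < 𝒜.l2 := lt_of_lt_of_le 𝒜.hl1 𝒜.hl12
  rwa [inv_mul_le_iff₀ hm]

theorem Anosov1.u_hi_symm (𝒜 : Anosov1 d M) (x : M) (v : TangentSpace (𝓡 d) x) (hv : v ∈ 𝒜.Es x) :
    𝒜.N (𝒜.g x) (mfderiv (𝓡 d) (𝓡 d) 𝒜.g x v) ≤ 𝒜.l1⁻¹ * 𝒜.N x v := by
  have h := 𝒜.s_lo _ _ (𝒜.inv_s_symm x v hv)
  rw [ASY_N_eq] at h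
  rwa [le_inv_mul_iff₀ 𝒜.hl1]

/-- The inverse diffeomorphism. -/
noncomputable def Anosov1.symm (𝒜 : Anosov1 d M) : Anosov1 d M where
  f := 𝒜.g
  g := 𝒜.f
  hf := 𝒜.hg
  hg := 𝒜.hf
  gf := 𝒜.fg
  fg := 𝒜.gf
  N := 𝒜.N
  N_cont := 𝒜.N_cont
  N_add := 𝒜.N_add
  N_smul := 𝒜.N_smul
  N_pos := 𝒜.N_pos
  l1 := 𝒜.m1⁻¹
  l2 := 𝒜.m2⁻¹
  m2 := 𝒜.l2⁻¹
  m1 := 𝒜.l1⁻¹
  hl1 := inv_pos.2 (by have := 𝒜.hm2; have := 𝒜.hm12; linarith)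
  hl12 := inv_anti₀ (by have := 𝒜.hm2; linarith) 𝒜.hm12
  hl2 := inv_lt_one_of_one_lt₀ 𝒜.hm2
  hm2 := (one_lt_inv₀ (lt_of_lt_of_le 𝒜.hl1 𝒜.hl12)).2 𝒜.hl2
  hm12 := inv_anti₀ 𝒜.hl1 𝒜.hl12
  Es := 𝒜.Eu
  Eu := 𝒜.Es
  compl := fun x => (𝒜.compl x).symm
  inv_s := 𝒜.inv_u_symm
  inv_u := 𝒜.inv_s_symm
  s_lo := 𝒜.s_lo_symm
  s_hi := 𝒜.s_hi_symm
  u_lo := 𝒜.u_lo_symm
  u_hi := 𝒜.u_hi_symm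

end Pool.Agent.ANO
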