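import Mathlib
import Pool.Agent.ANO.ASY

open Set Metric Function
open scoped Manifold ContDiff

namespace Pool.Agent.ANO

variable {d : ℕ} {M : Type} [TopologicalSpace M] [ChartedSpace (EuclideanSpace ℝ (Fin d)) M]
  [IsManifold (𝓡 d) ∞ M]

private theorem CLO_iter (𝒜 : Anosov1 d M) (k : ℕ) : ContMDiff (𝓡 d) (𝓡 d) 1 (𝒜.f^[k]) := by
  induction k with
  | zero => exact contMDiff_id
  | succ k ih =>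
    rw [Function.iterate_succ']
    exact 𝒜.hf.comp ih

private theorem CLO_succ (𝒜 : Anosov1 d M) (k : ℕ) (x : M) (v : TangentSpace (𝓡 d) x) :
    mfderiv (𝓡 d) (𝓡 d) (𝒜.f^[k + 1]) x v
      = mfderiv (𝓡 d) (𝓡 d) 𝒜.f (𝒜.f^[k] x) (mfderiv (𝓡 d) (𝓡 d) (𝒜.f^[k]) x v) := by
  have key : ∀ F : M → M, F = 𝒜.f ∘ 𝒜.f^[k] → mfderiv (𝓡 d) (𝓡 d) F x v
      = mfderiv (𝓡 d) (𝓡 d) 𝒜.f (𝒜.f^[k] x) (mfderiv (𝓡 d) (𝓡 d) (𝒜.f^[k]) x v) := by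
    intro F hF
    subst hF
    have h : mfderiv (𝓡 d) (𝓡 d) (𝒜.f ∘ 𝒜.f^[k]) x
        = (mfderiv (𝓡 d) (𝓡 d) 𝒜.f (𝒜.f^[k] x)).comp (mfderiv (𝓡 d) (𝓡 d) (𝒜.f^[k]) x) :=
      mfderiv_comp x ((𝒜.hf.mdifferentiable (by norm_num)) _)
        (((CLO_iter 𝒜 k).mdifferentiable (by norm_num)) x)
    rw [h]; rfl
  exact key _ (Function.iterate_succ' _ _)

private theorem CLO_N_zero (𝒜 : Anosov1 d M) (x : M) : 𝒜.N x 0 = 0 := by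
  have h := 𝒜.N_smul x 0 0
  rw [abs_zero, zero_mul, smul_zero] at h
  exact h

private theorem CLO_N_nonneg (𝒜 : Anosov1 d M) (x : M) (v : TangentSpace (𝓡 d) x) :
    0 ≤ 𝒜.N x v := by
  have h := 𝒜.N_add x v ((-1 : ℝ) • v)
  have h1 := 𝒜.N_smul x (-1) v
  have h2 : v + (-1 : ℝ) • v = 0 := by rw [neg_one_smul, add_neg_cancel]
  rw [h2, CLO_N_zero, h1] at h
  rw [abs_neg, abs_one, one_mul] at h
  linarith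

private theorem CLO_s (𝒜 : Anosov1 d M) (k : ℕ) (x : M) (v : TangentSpace (𝓡 d) x)
    (hv : v ∈ 𝒜.Es x) :
    mfderiv (𝓡 d) (𝓡 d) (𝒜.f^[k]) x v ∈ 𝒜.Es (𝒜.f^[k] x) ∧
    𝒜.N (𝒜.f^[k] x) (mfderiv (𝓡 d) (𝓡 d) (𝒜.f^[k]) x v) ≤ 𝒜.N x v := by
  induction k with
  | zero =>
    have h : mfderiv (𝓡 d) (𝓡 d) (id : M → M) x v = v := by rw [mfderiv_id]; rfl
    have h0 : mfderiv (𝓡 d) (𝓡 d) (𝒜.f^[0]) x v = v := h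
    exact ⟨h0.symm ▸ hv, (congrArg (𝒜.N x) h0).le⟩
  | succ k ih =>
    have h := CLO_succ 𝒜 k x v
    have h1 := 𝒜.inv_s _ _ ih.1
    have h2 := 𝒜.s_hi _ _ ih.1
    have h3 := CLO_N_nonneg 𝒜 _ (mfderiv (𝓡 d) (𝓡 d) (𝒜.f^[k]) x v)
    have h4 := 𝒜.hl2
    have e : 𝒜.f^[k + 1] x = 𝒜.f (𝒜.f^[k] x) := Function.iterate_succ_apply' _ _ _
    rw [e]
    constructor
    · exact h ▸ h1
    · have h5 : 𝒜.N (𝒜.f (𝒜.f^[k] x)) (mfderiv (𝓡 d) (𝓡 d) (𝒜.f^[k + 1]) x v)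
          = 𝒜.N (𝒜.f (𝒜.f^[k] x)) (mfderiv (𝓡 d) (𝓡 d) 𝒜.f (𝒜.f^[k] x)
            (mfderiv (𝓡 d) (𝓡 d) (𝒜.f^[k]) x v)) := congrArg (𝒜.N (𝒜.f (𝒜.f^[k] x))) h
      calc 𝒜.N (𝒜.f (𝒜.f^[k] x)) (mfderiv (𝓡 d) (𝓡 d) (𝒜.f^[k + 1]) x v)
          = _ := h5
        _ ≤ 𝒜.l2 * 𝒜.N (𝒜.f^[k] x) (mfderiv (𝓡 d) (𝓡 d) (𝒜.f^[k]) x v) := h2
        _ ≤ 𝒜.N (𝒜.f^[k] x) (mfderiv (𝓡 d) (𝓡 d) (𝒜.f^[k]) x v) := by nlinarith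
        _ ≤ _ := ih.2

private theorem CLO_u (𝒜 : Anosov1 d M) (k : ℕ) (x : M) (v : TangentSpace (𝓡 d) x)
    (hv : v ∈ 𝒜.Eu x) :
    mfderiv (𝓡 d) (𝓡 d) (𝒜.f^[k]) x v ∈ 𝒜.Eu (𝒜.f^[k] x) ∧
    𝒜.m2 ^ k * 𝒜.N x v ≤ 𝒜.N (𝒜.f^[k] x) (mfderiv (𝓡 d) (𝓡 d) (𝒜.f^[k]) x v) := by
  induction k with
  | zero =>
    have h : mfderiv (𝓡 d) (𝓡 d) (id : M → M) x v = v := by rw [mfderiv_id]; rfl
    have h0 : mfderiv (𝓡 d) (𝓡 d) (𝒜.f^[0]) x v = v := h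
    refine ⟨h0.symm ▸ hv, ?_⟩
    rw [pow_zero, one_mul]
    exact (congrArg (𝒜.N x) h0).ge
  | succ k ih =>
    have h := CLO_succ 𝒜 k x v
    have h1 := 𝒜.inv_u _ _ ih.1
    have h2 := 𝒜.u_lo _ _ ih.1
    have h4 := 𝒜.hm2
    have e : 𝒜.f^[k + 1] x = 𝒜.f (𝒜.f^[k] x) := Function.iterate_succ_apply' _ _ _
    rw [e]
    constructor
    · exact h ▸ h1
    · have h5 : 𝒜.N (𝒜.f (𝒜.f^[k] x)) (mfderiv (𝓡 d) (𝓡 d) (𝒜.f^[k + 1]) x v)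
          = 𝒜.N (𝒜.f (𝒜.f^[k] x)) (mfderiv (𝓡 d) (𝓡 d) 𝒜.f (𝒜.f^[k] x)
            (mfderiv (𝓡 d) (𝓡 d) (𝒜.f^[k]) x v)) := congrArg (𝒜.N (𝒜.f (𝒜.f^[k] x))) h
      calc 𝒜.m2 ^ (k + 1) * 𝒜.N x v = 𝒜.m2 * (𝒜.m2 ^ k * 𝒜.N x v) := by ring
        _ ≤ 𝒜.m2 * 𝒜.N (𝒜.f^[k] x) (mfderiv (𝓡 d) (𝓡 d) (𝒜.f^[k]) x v) :=
            mul_le_mul_of_nonneg_left ih.2 (by linarith)
        _ ≤ _ := h2
        _ = _ := h5.symm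

/-- The stable vectors form a closed subset of the tangent bundle. -/
theorem Anosov1.closed_s (𝒜 : Anosov1 d M) :
    IsClosed {z : TangentBundle (𝓡 d) M | z.snd ∈ 𝒜.Es z.proj} := by
  have hset : {z : TangentBundle (𝓡 d) M | z.snd ∈ 𝒜.Es z.proj}
      = ⋂ k : ℕ, {z : TangentBundle (𝓡 d) M |
        𝒜.N (tangentMap (𝓡 d) (𝓡 d) (𝒜.f^[k]) z).proj
          (tangentMap (𝓡 d) (𝓡 d) (𝒜.f^[k]) z).snd ≤ 𝒜.N z.proj z.snd} := by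
    ext z
    obtain ⟨x, v⟩ := z
    simp only [mem_ofPred_eq, mem_iInter]
    constructor
    · intro hz k
      exact (CLO_s 𝒜 k x v hz).2
    · intro hz
      have htop : v ∈ 𝒜.Es x ⊔ 𝒜.Eu x := by
        rw [(𝒜.compl x).sup_eq_top]; exact Submodule.mem_top
      obtain ⟨a, ha, b, hb, hab⟩ := Submodule.mem_sup.1 htop
      have hbd : ∀ k : ℕ, 𝒜.m2 ^ k * 𝒜.N x b ≤ 𝒜.N x v + 𝒜.N x a := by
        intro k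
        have h1 := (CLO_u 𝒜 k x b hb).2
        have h2 := (CLO_s 𝒜 k x a ha).2
        have h3 : 𝒜.N (𝒜.f^[k] x) (mfderiv (𝓡 d) (𝓡 d) (𝒜.f^[k]) x v) ≤ 𝒜.N x v := hz k
        have h4 : mfderiv (𝓡 d) (𝓡 d) (𝒜.f^[k]) x b
            = mfderiv (𝓡 d) (𝓡 d) (𝒜.f^[k]) x v
              + (-1 : ℝ) • mfderiv (𝓡 d) (𝓡 d) (𝒜.f^[k]) x a := by
          rw [← hab, map_add]
          module
        have h5 := 𝒜.N_add (𝒜.f^[k] x) (mfderiv (𝓡 d) (𝓡 d) (𝒜.f^[k]) x v)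
          ((-1 : ℝ) • mfderiv (𝓡 d) (𝓡 d) (𝒜.f^[k]) x a)
        rw [← h4, 𝒜.N_smul, abs_neg, abs_one, one_mul] at h5
        linarith
      have hb0 : 𝒜.N x b = 0 := by
        by_contra hne
        have hpos : 0 < 𝒜.N x b := lt_of_le_of_ne (CLO_N_nonneg 𝒜 x b) (Ne.symm hne)
        obtain ⟨k, hk⟩ := pow_unbounded_of_one_lt ((𝒜.N x v + 𝒜.N x a) / 𝒜.N x b) 𝒜.hm2
        rw [div_lt_iff₀ hpos] at hk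
        linarith [hbd k]
      have hb1 := 𝒜.N_pos x b hb0
      rw [← hab, hb1, add_zero]
      exact ha
  rw [hset]
  refine isClosed_iInter fun k => isClosed_le ?_ 𝒜.N_cont
  exact 𝒜.N_cont.comp ((CLO_iter 𝒜 k).continuous_tangentMap (by norm_num))

theorem Anosov1.closed_u (𝒜 : Anosov1 d M) :
    IsClosed {z : TangentBundle (𝓡 d) M | z.snd ∈ 𝒜.Eu z.proj} :=
  𝒜.symm.closed_s

end Pool.Agent.ANO
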