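import Mathlib
import Pool.Agent.ANO.Man

open Set Metric Function
open scoped Manifold ContDiff

namespace Pool.Agent.ANO

variable {d : ℕ} {M : Type} [MetricSpace M] [ChartedSpace (EuclideanSpace ℝ (Fin d)) M]
  [IsManifold (𝓡 d) ∞ M]

theorem Fam.base (F : Fam d M) {x y : M} (h : dist x y ≤ 2 * F.r) :
    y ∈ (trivializationAt (EuclideanSpace ℝ (Fin d)) (TangentSpace (𝓡 d) : M → Type)
      (F.i x)).baseSet := by
  rw [TangentBundle.trivializationAt_baseSet]
  exact F.src x y h

theorem Fam.T_T' (F : Fam d M) {x y : M} (h : dist x y ≤ 2 * F.r) (v : EuclideanSpace ℝ (Fin d)) :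
    F.T x y (F.T' x y v) = v :=
  Bundle.Trivialization.continuousLinearMapAt_symmL (R := ℝ)
    (trivializationAt (EuclideanSpace ℝ (Fin d)) (TangentSpace (𝓡 d) : M → Type) (F.i x))
    (F.base h) v

theorem Fam.T'_T (F : Fam d M) {x y : M} (h : dist x y ≤ 2 * F.r) (v : TangentSpace (𝓡 d) y) :
    F.T' x y (F.T x y v) = v :=
  Bundle.Trivialization.symmL_continuousLinearMapAt (R := ℝ)
    (trivializationAt (EuclideanSpace ℝ (Fin d)) (TangentSpace (𝓡 d) : M → Type) (F.i x))
    (F.base h) v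

theorem Fam.T'_congr (F : Fam d M) {x x' : M} (h : F.i x = F.i x') (y : M) :
    F.T' x y = F.T' x' y := by
  have key : ∀ q q' : M, q = q' →
      (trivializationAt (EuclideanSpace ℝ (Fin d)) (TangentSpace (𝓡 d) : M → Type) q).symmL ℝ y =
      (trivializationAt (EuclideanSpace ℝ (Fin d)) (TangentSpace (𝓡 d) : M → Type) q').symmL ℝ y := by
    rintro q _ rfl
    rfl
  exact key _ _ h

/-- `(y, v) ↦ ⟨y, T' x y v⟩` is continuous where the chart around `x` is defined. -/
theorem Fam.T'_cont (F : Fam d M) (x : M) :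
    ContinuousOn (fun p : M × EuclideanSpace ℝ (Fin d) =>
      (⟨p.1, F.T' x p.1 p.2⟩ : TangentBundle (𝓡 d) M)) (closedBall x (2 * F.r) ×ˢ univ) := by
  set e := trivializationAt (EuclideanSpace ℝ (Fin d)) (TangentSpace (𝓡 d) : M → Type) (F.i x)
    with he
  have hsub : closedBall x (2 * F.r) ×ˢ (univ : Set (EuclideanSpace ℝ (Fin d))) ⊆
      e.baseSet ×ˢ univ := by
    rintro ⟨y, v⟩ ⟨hy, -⟩
    refine ⟨?_, mem_univ _⟩
    apply F.base
    rw [dist_comm]
    exact hy
  refine (e.continuousOn_symm.mono hsub).congr ?_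
  rintro ⟨y, v⟩ hy
  have hb : y ∈ e.baseSet := (hsub hy).1
  have h1 : F.T' x y v = e.symm y v := Bundle.Trivialization.symmL_apply e hb v
  show (⟨y, F.T' x y v⟩ : TangentBundle (𝓡 d) M) = _
  rw [h1]

/-- `z ↦ T x z.1 z.2` is continuous where the chart around `x` is defined. -/
theorem Fam.T_cont (F : Fam d M) (x : M) :
    ContinuousOn (fun z : TangentBundle (𝓡 d) M => F.T x z.proj z.snd)
      {z | z.proj ∈ closedBall x (2 * F.r)} := by
  set e := trivializationAt (EuclideanSpace ℝ (Fin d)) (TangentSpace (𝓡 d) : M → Type) (F.i x)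
    with he
  have hsub : {z : TangentBundle (𝓡 d) M | z.proj ∈ closedBall x (2 * F.r)} ⊆ e.source := by
    intro z hz
    rw [e.mem_source]
    apply F.base
    rw [dist_comm]
    exact hz
  refine ((e.continuousOn.mono hsub).snd).congr ?_
  rintro ⟨y, v⟩ hz
  have hb : y ∈ e.baseSet := e.mem_source.1 (hsub hz)
  exact Bundle.Trivialization.continuousLinearMapAt_apply_of_mem (R := ℝ) e hb v

/-- A sequence version: the charts around `x k` used along a convergent sequence. If `x k → p`, `y k → p`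
and `v k → v`, then a subsequence of `⟨y k, T' (x k) (y k) (v k)⟩` converges to `⟨p, T' z p v⟩` for a fixed
`z` whose chart is used along the subsequence. -/
theorem Fam.subseq (F : Fam d M) (x y : ℕ → M) (p : M) (v : ℕ → EuclideanSpace ℝ (Fin d))
    (v0 : EuclideanSpace ℝ (Fin d)) (hx : Filter.Tendsto x Filter.atTop (nhds p))
    (hy : Filter.Tendsto y Filter.atTop (nhds p)) (hv : Filter.Tendsto v Filter.atTop (nhds v0)) :
    ∃ (φ : ℕ → ℕ) (z : M), StrictMono φ ∧ dist z p ≤ F.r ∧ (∀ k, F.i (x (φ k)) = F.i z) ∧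
      Filter.Tendsto (fun k => (⟨y (φ k), F.T' (x (φ k)) (y (φ k)) (v (φ k))⟩ :
        TangentBundle (𝓡 d) M)) Filter.atTop (nhds ⟨p, F.T' z p v0⟩) := by
  classical
  have hr := F.hr
  -- a value of the index taken infinitely often
  have hfreq : ∃ q ∈ range F.i, ∃ᶠ k in Filter.atTop, F.i (x k) = q := by
    by_contra hcon
    push Not at hcon
    have h1 : ∀ q ∈ range F.i, ∀ᶠ k in Filter.atTop, F.i (x k) ≠ q := fun q hq => hcon q hq
    have h2 : ∀ᶠ k in Filter.atTop, ∀ q ∈ range F.i, F.i (x k) ≠ q :=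
      (Filter.eventually_all_finite F.fin).2 h1
    obtain ⟨k, hk⟩ := h2.exists
    exact hk _ ⟨x k, rfl⟩ rfl
  obtain ⟨q, -, hq⟩ := hfreq
  have hnear : ∀ᶠ k in Filter.atTop, dist (x k) p ≤ F.r := by
    filter_upwards [hx (Metric.closedBall_mem_nhds p hr)] with k hk
    exact hk
  obtain ⟨φ, hφ, hφ2⟩ := Filter.extraction_of_frequently_atTop (hq.and_eventually hnear)
  refine ⟨φ, x (φ 0), hφ, (hφ2 0).2, fun k => by rw [(hφ2 k).1, (hφ2 0).1], ?_⟩
  set z := x (φ 0) with hz
  have hzp : dist z p ≤ F.r := (hφ2 0).2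
  have hcont := F.T'_cont z
  have hmem : (p, v0) ∈ closedBall z (2 * F.r) ×ˢ (univ : Set (EuclideanSpace ℝ (Fin d))) := by
    refine ⟨?_, mem_univ _⟩
    rw [mem_closedBall, dist_comm]
    linarith
  have hw := hcont (p, v0) hmem
  have hpair : Filter.Tendsto (fun k => (y (φ k), v (φ k))) Filter.atTop
      (nhdsWithin (p, v0) (closedBall z (2 * F.r) ×ˢ univ)) := by
    rw [tendsto_nhdsWithin_iff]
    constructor
    · exact (hy.comp hφ.tendsto_atTop).prodMk_nhds (hv.comp hφ.tendsto_atTop)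
    · have h3 : ∀ᶠ k in Filter.atTop, dist (y (φ k)) p ≤ F.r := by
        filter_upwards [(hy.comp hφ.tendsto_atTop) (Metric.closedBall_mem_nhds p hr)] with k hk
        exact hk
      filter_upwards [h3] with k hk
      refine ⟨?_, mem_univ _⟩
      rw [mem_closedBall]
      calc dist (y (φ k)) z ≤ dist (y (φ k)) p + dist p z := dist_triangle _ _ _
        _ ≤ F.r + F.r := add_le_add hk (by rw [dist_comm]; exact hzp)
        _ = 2 * F.r := by ring
  have hlim := hw.tendsto.comp hpair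
  refine hlim.congr ?_
  intro k
  have hi : F.i (x (φ k)) = F.i z := by rw [(hφ2 k).1, hz, (hφ2 0).1]
  show (⟨y (φ k), F.T' z (y (φ k)) (v (φ k))⟩ : TangentBundle (𝓡 d) M) =
    ⟨y (φ k), F.T' (x (φ k)) (y (φ k)) (v (φ k))⟩
  rw [F.T'_congr hi]

end Pool.Agent.ANO
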