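import Mathlib
import Pool.Agent.ANO.TAN

open Set Metric Function
open scoped Manifold ContDiff

namespace Pool.Agent.ANO

variable {d : ℕ} {M : Type} [MetricSpace M] [ChartedSpace (EuclideanSpace ℝ (Fin d)) M]
  [IsManifold (𝓡 d) ∞ M]

omit [IsManifold (𝓡 d) ∞ M] in
/-- finitely many charts and balls suffice -/
private theorem nrm_cover [CompactSpace M] (F : Fam d M) :
    ∃ t : Set M, t.Finite ∧ ∀ x, ∃ z ∈ t, F.i z = F.i x ∧ dist z x ≤ F.r := by
  have h1 : ∀ p : M, ∃ t : Set M, t.Finite ∧ ∀ x, F.i x = p → ∃ z ∈ t, F.i z = F.i x ∧ dist z x ≤ F.r := by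
    intro p
    have htb : TotallyBounded {x | F.i x = p} := isCompact_univ.totallyBounded.subset (subset_univ _)
    obtain ⟨t, hts, htf, hcov⟩ := finite_approx_of_totallyBounded htb F.r F.hr
    refine ⟨t, htf, fun x hx => ?_⟩
    have := hcov hx
    simp only [mem_iUnion, mem_ball, exists_prop] at this
    obtain ⟨z, hz, hd⟩ := this
    have hz' : F.i z = p := hts hz
    exact ⟨z, hz, by rw [hz', hx], by rw [dist_comm]; exact hd.le⟩
  choose t ht1 ht2 using h1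
  refine ⟨⋃ p ∈ range F.i, t p, F.fin.biUnion fun p _ => ht1 p, fun x => ?_⟩
  obtain ⟨z, hz, h2⟩ := ht2 (F.i x) x rfl
  exact ⟨z, mem_biUnion (mem_range_self x) hz, h2⟩

private theorem nrm_T' (F : Fam d M) {x z : M} (h : F.i z = F.i x) (y : M) : F.T' x y = F.T' z y := by
  have key : ∀ p q : M, p = q →
      (trivializationAt (EuclideanSpace ℝ (Fin d)) (TangentSpace (𝓡 d) : M → Type) p).symmL ℝ y =
      (trivializationAt (EuclideanSpace ℝ (Fin d)) (TangentSpace (𝓡 d) : M → Type) q).symmL ℝ y := by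
    rintro p _ rfl
    rfl
  exact key _ _ h.symm

/-- upper bound of a homogeneous continuous function on the tangent bundle -/
private theorem nrm_up [CompactSpace M] (F : Fam d M) (G : TangentBundle (𝓡 d) M → ℝ)
    (hG : Continuous G) (hs : ∀ (y : M) (t : ℝ) (v : TangentSpace (𝓡 d) y),
      G ⟨y, t • v⟩ = |t| * G ⟨y, v⟩) :
    ∃ B, 0 ≤ B ∧ ∀ x y, dist x y ≤ F.r → ∀ v : EuclideanSpace ℝ (Fin d),
      G ⟨y, F.T' x y v⟩ ≤ B * ‖v‖ := by
  obtain ⟨t, htf, ht⟩ := nrm_cover F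
  have h1 : ∀ z : M, ∃ B, 0 ≤ B ∧ ∀ y, dist z y ≤ 2 * F.r → ∀ v : EuclideanSpace ℝ (Fin d),
      G ⟨y, F.T' z y v⟩ ≤ B * ‖v‖ := by
    intro z
    have hK : IsCompact (closedBall z (2 * F.r) ×ˢ sphere (0 : EuclideanSpace ℝ (Fin d)) 1) :=
      (isClosed_closedBall.isCompact).prod (isCompact_sphere 0 1)
    have hc : ContinuousOn (fun p : M × EuclideanSpace ℝ (Fin d) =>
        G (⟨p.1, F.T' z p.1 p.2⟩ : TangentBundle (𝓡 d) M))
        (closedBall z (2 * F.r) ×ˢ sphere (0 : EuclideanSpace ℝ (Fin d)) 1) :=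
      hG.comp_continuousOn ((F.T'_cont z).mono (prod_mono (Subset.refl _) (subset_univ _)))
    obtain ⟨B, hB⟩ := hK.exists_bound_of_continuousOn hc
    refine ⟨max B 0, le_max_right _ _, fun y hy v => ?_⟩
    by_cases hv : v = 0
    · subst hv
      have h0 : (F.T' z y (0 : EuclideanSpace ℝ (Fin d))) = (0 : ℝ) • (F.T' z y 0) := by
        rw [map_zero, smul_zero]
      rw [h0, hs, abs_zero, zero_mul, norm_zero, mul_zero]
    · have hn : 0 < ‖v‖ := norm_pos_iff.2 hv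
      set u : EuclideanSpace ℝ (Fin d) := ‖v‖⁻¹ • v with hu
      have hun : ‖u‖ = 1 := by
        rw [hu, norm_smul, norm_inv, norm_norm, inv_mul_cancel₀ hn.ne']
      have hvu : v = ‖v‖ • u := by
        rw [hu, smul_smul, mul_inv_cancel₀ hn.ne', one_smul]
      have h3 := hB (y, u) ⟨by rw [mem_closedBall, dist_comm]; exact hy, by
        rw [mem_sphere, dist_zero_right]; exact hun⟩
      have h4 : G ⟨y, F.T' z y u⟩ ≤ max B 0 := (le_abs_self _).trans (h3.trans (le_max_left _ _))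
      have h5 : F.T' z y v = ‖v‖ • F.T' z y u := by
        conv_lhs => rw [hvu]
        rw [map_smul]
      rw [h5, hs, abs_of_pos hn, mul_comm]
      exact mul_le_mul_of_nonneg_right h4 hn.le
  choose B hB0 hB using h1
  obtain ⟨C, hC⟩ := (htf.image B).bddAbove
  refine ⟨max C 0, le_max_right _ _, fun x y hxy v => ?_⟩
  obtain ⟨z, hz, hi, hd⟩ := ht x
  rw [nrm_T' F hi y]
  have h2 : dist z y ≤ 2 * F.r := by
    have := dist_triangle z x y
    linarith
  refine (hB z y h2 v).trans (mul_le_mul_of_nonneg_right ?_ (norm_nonneg v))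
  exact (hC ⟨z, hz, rfl⟩).trans (le_max_left _ _)

/-- lower bound of a homogeneous continuous positive function on the tangent bundle -/
private theorem nrm_lo [CompactSpace M] (F : Fam d M) (G : TangentBundle (𝓡 d) M → ℝ)
    (hG : Continuous G) (hs : ∀ (y : M) (t : ℝ) (v : TangentSpace (𝓡 d) y),
      G ⟨y, t • v⟩ = |t| * G ⟨y, v⟩) (hp : ∀ (y : M) (v : TangentSpace (𝓡 d) y), v ≠ 0 → 0 < G ⟨y, v⟩) :
    ∃ B, 0 ≤ B ∧ ∀ x y, dist x y ≤ F.r → ∀ v : EuclideanSpace ℝ (Fin d),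
      ‖v‖ ≤ B * G ⟨y, F.T' x y v⟩ := by
  obtain ⟨t, htf, ht⟩ := nrm_cover F
  have h0 : ∀ z y, G ⟨y, F.T' z y (0 : EuclideanSpace ℝ (Fin d))⟩ = 0 := by
    intro z y
    have h0 : (F.T' z y (0 : EuclideanSpace ℝ (Fin d))) = (0 : ℝ) • (F.T' z y 0) := by
      rw [map_zero, smul_zero]
    rw [h0, hs, abs_zero, zero_mul]
  have hnn : ∀ (y : M) (v : TangentSpace (𝓡 d) y), 0 ≤ G ⟨y, v⟩ := by
    intro y v
    by_cases hv : v = 0
    · have h1 : v = (0 : ℝ) • v := by rw [hv, smul_zero]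
      rw [h1, hs, abs_zero, zero_mul]
    · exact (hp y v hv).le
  have h1 : ∀ z : M, ∃ B, 0 ≤ B ∧ ∀ y, dist z y ≤ 2 * F.r → ∀ v : EuclideanSpace ℝ (Fin d),
      ‖v‖ ≤ B * G ⟨y, F.T' z y v⟩ := by
    intro z
    have hK : IsCompact (closedBall z (2 * F.r) ×ˢ sphere (0 : EuclideanSpace ℝ (Fin d)) 1) :=
      (isClosed_closedBall.isCompact).prod (isCompact_sphere 0 1)
    have hc : ContinuousOn (fun p : M × EuclideanSpace ℝ (Fin d) =>
        G (⟨p.1, F.T' z p.1 p.2⟩ : TangentBundle (𝓡 d) M))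
        (closedBall z (2 * F.r) ×ˢ sphere (0 : EuclideanSpace ℝ (Fin d)) 1) :=
      hG.comp_continuousOn ((F.T'_cont z).mono (prod_mono (Subset.refl _) (subset_univ _)))
    by_cases hne : (closedBall z (2 * F.r) ×ˢ sphere (0 : EuclideanSpace ℝ (Fin d)) 1).Nonempty
    · obtain ⟨p, hpK, hpm⟩ := hK.exists_isMinOn hne hc
      have hpos : 0 < G ⟨p.1, F.T' z p.1 p.2⟩ := by
        apply hp
        intro h2
        have h3 : dist z p.1 ≤ 2 * F.r := by
          rw [dist_comm]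
          exact hpK.1
        have h4 := F.T_T' h3 p.2
        rw [h2, map_zero] at h4
        have h5 : ‖p.2‖ = 1 := by
          have := hpK.2
          rwa [mem_sphere, dist_zero_right] at this
        rw [← h4, norm_zero] at h5
        exact zero_ne_one h5
      set m := G ⟨p.1, F.T' z p.1 p.2⟩ with hm
      refine ⟨m⁻¹, (inv_pos.2 hpos).le, fun y hy v => ?_⟩
      by_cases hv : v = 0
      · rw [hv, h0, norm_zero, mul_zero]
      · have hn : 0 < ‖v‖ := norm_pos_iff.2 hv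
        set u : EuclideanSpace ℝ (Fin d) := ‖v‖⁻¹ • v with hu
        have hun : ‖u‖ = 1 := by
          rw [hu, norm_smul, norm_inv, norm_norm, inv_mul_cancel₀ hn.ne']
        have hvu : v = ‖v‖ • u := by
          rw [hu, smul_smul, mul_inv_cancel₀ hn.ne', one_smul]
        have h3 : m ≤ G ⟨y, F.T' z y u⟩ := hpm (a := (y, u)) ⟨by
          rw [mem_closedBall, dist_comm]; exact hy, by
          rw [mem_sphere, dist_zero_right]; exact hun⟩
        have h5 : F.T' z y v = ‖v‖ • F.T' z y u := by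
          conv_lhs => rw [hvu]
          rw [map_smul]
        rw [h5, hs, abs_of_pos hn, inv_mul_eq_div, le_div_iff₀ hpos]
        exact mul_le_mul_of_nonneg_left h3 hn.le
    · refine ⟨0, le_rfl, fun y hy v => ?_⟩
      by_cases hv : v = 0
      · rw [hv, h0, norm_zero, mul_zero]
      · exfalso
        apply hne
        have hn : 0 < ‖v‖ := norm_pos_iff.2 hv
        refine ⟨(y, ‖v‖⁻¹ • v), by rw [mem_closedBall, dist_comm]; exact hy, ?_⟩
        rw [mem_sphere, dist_zero_right, norm_smul, norm_inv, norm_norm, inv_mul_cancel₀ hn.ne']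
  choose B hB0 hB using h1
  obtain ⟨C, hC⟩ := (htf.image B).bddAbove
  refine ⟨max C 0, le_max_right _ _, fun x y hxy v => ?_⟩
  obtain ⟨z, hz, hi, hd⟩ := ht x
  rw [nrm_T' F hi y]
  have h2 : dist z y ≤ 2 * F.r := by
    have := dist_triangle z x y
    linarith
  refine (hB z y h2 v).trans (mul_le_mul_of_nonneg_right ?_ (hnn _ _))
  exact (hC ⟨z, hz, rfl⟩).trans (le_max_left _ _)

/-- positivity of the norm -/
private theorem nrm_pos (𝒜 : Anosov1 d M) (x : M) (v : TangentSpace (𝓡 d) x) (hv : v ≠ 0) :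
    0 < 𝒜.N x v := by
  have h0 : 𝒜.N x 0 = 0 := by
    have := 𝒜.N_smul x 0 0
    rwa [zero_smul, abs_zero, zero_mul] at this
  have h1 : 0 ≤ 𝒜.N x v := by
    have h2 := 𝒜.N_add x v (-v)
    have h3 : 𝒜.N x (-v) = 𝒜.N x v := by
      have := 𝒜.N_smul x (-1) v
      rwa [neg_one_smul, abs_neg, abs_one, one_mul] at this
    rw [add_neg_cancel, h0, h3] at h2
    linarith
  exact lt_of_le_of_ne h1 fun h => hv (𝒜.N_pos x v h.symm)

/-- The norm is uniformly equivalent to the Euclidean norm in the charts. -/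
theorem Anosov1.norm_equiv [CompactSpace M] (𝒜 : Anosov1 d M) (F : Fam d M) :
    ∃ L ≥ 1, ∀ x y, dist x y ≤ F.r → ∀ v : EuclideanSpace ℝ (Fin d),
      𝒜.N y (F.T' x y v) ≤ L * ‖v‖ ∧ ‖v‖ ≤ L * 𝒜.N y (F.T' x y v) := by
  obtain ⟨B, hB0, hB⟩ := nrm_up F (fun p => 𝒜.N p.proj p.snd) 𝒜.N_cont (fun y t v => 𝒜.N_smul y t v)
  obtain ⟨C, hC0, hC⟩ := nrm_lo F (fun p => 𝒜.N p.proj p.snd) 𝒜.N_cont (fun y t v => 𝒜.N_smul y t v)
    (fun y v hv => nrm_pos 𝒜 y v hv)
  have hnn : ∀ (y : M) (v : TangentSpace (𝓡 d) y), 0 ≤ 𝒜.N y v := by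
    intro y v
    by_cases hv : v = 0
    · have := 𝒜.N_smul y 0 0
      rw [zero_smul, abs_zero, zero_mul] at this
      rw [hv, this]
    · exact (nrm_pos 𝒜 y v hv).le
  refine ⟨1 + B + C, by linarith, fun x y hxy v => ⟨?_, ?_⟩⟩
  · refine (hB x y hxy v).trans (mul_le_mul_of_nonneg_right ?_ (norm_nonneg v))
    linarith
  · refine (hC x y hxy v).trans (mul_le_mul_of_nonneg_right ?_ (hnn _ _))
    linarith

/-- The derivative of a `C^1` map is bounded. -/
theorem Anosov1.deriv_le [CompactSpace M] (𝒜 : Anosov1 d M) (F : Fam d M) (h : M → M)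
    (hh : ContMDiff (𝓡 d) (𝓡 d) 1 h) : ∃ L ≥ 1, ∀ (y : M) (v : TangentSpace (𝓡 d) y),
      𝒜.N (h y) (mfderiv (𝓡 d) (𝓡 d) h y v) ≤ L * 𝒜.N y v := by
  have hct : Continuous (tangentMap (𝓡 d) (𝓡 d) h) := hh.continuous_tangentMap le_rfl
  obtain ⟨B, hB0, hB⟩ := nrm_up F (fun p => 𝒜.N (h p.proj) (mfderiv (𝓡 d) (𝓡 d) h p.proj p.snd))
    (𝒜.N_cont.comp hct) (fun y t v => by
      change 𝒜.N (h y) (mfderiv (𝓡 d) (𝓡 d) h y (t • v)) = _
      rw [map_smul]
      exact 𝒜.N_smul _ t _)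
  obtain ⟨L, hL1, hL⟩ := 𝒜.norm_equiv F
  have hnn : ∀ (y : M) (v : TangentSpace (𝓡 d) y), 0 ≤ 𝒜.N y v := by
    intro y v
    by_cases hv : v = 0
    · have := 𝒜.N_smul y 0 0
      rw [zero_smul, abs_zero, zero_mul] at this
      rw [hv, this]
    · exact (nrm_pos 𝒜 y v hv).le
  refine ⟨1 + B * L, by nlinarith, fun y v => ?_⟩
  have hyy : dist y y ≤ F.r := by rw [dist_self]; exact F.hr.le
  have hyy2 : dist y y ≤ 2 * F.r := by rw [dist_self]; have := F.hr; linarith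
  have h1 := hB y y hyy (F.T y y v)
  have h2 := (hL y y hyy (F.T y y v)).2
  rw [F.T'_T hyy2 v] at h1 h2
  have h3 := mul_le_mul_of_nonneg_left h2 hB0
  have h4 := hnn y v
  calc 𝒜.N (h y) (mfderiv (𝓡 d) (𝓡 d) h y v) ≤ B * ‖F.T y y v‖ := h1
    _ ≤ B * (L * 𝒜.N y v) := h3
    _ ≤ (1 + B * L) * 𝒜.N y v := by nlinarith

end Pool.Agent.ANO
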