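import Mathlib
import Pool.Agent.ANO.TAN

open Set Metric Function
open scoped Manifold ContDiff

namespace Pool.Agent.ANO

variable {d : ℕ} {M : Type} [MetricSpace M] [ChartedSpace (EuclideanSpace ℝ (Fin d)) M]
  [IsManifold (𝓡 d) ∞ M]

theorem Fam.T'_congr_tra (F : Fam d M) {z z' : M} (h : F.i z = F.i z') (p : M)
    (v : EuclideanSpace ℝ (Fin d)) : F.T' z p v = F.T' z' p v := by
  have key : ∀ q q' : M, q = q' →
      (trivializationAt (EuclideanSpace ℝ (Fin d)) (TangentSpace (𝓡 d) : M → Type) q).symmL ℝ p v =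
      (trivializationAt (EuclideanSpace ℝ (Fin d)) (TangentSpace (𝓡 d) : M → Type) q').symmL ℝ p v := by
    rintro q _ rfl
    rfl
  exact key _ _ h

theorem Fam.scale_step (F : Fam d M)
    (Es Eu : ∀ x : M, Submodule ℝ (TangentSpace (𝓡 d) x)) (κ : ℝ) (x y : M)
    (v : TangentSpace (𝓡 d) x) (hv : v ∈ Es x) (w : TangentSpace (𝓡 d) y) (hw : w ∈ Eu y)
    (hlt : ‖F.T x x v - F.T x y w‖ < κ * (‖F.T x x v‖ + ‖F.T x y w‖)) :
    ∃ (v' : TangentSpace (𝓡 d) x) (w' : TangentSpace (𝓡 d) y), v' ∈ Es x ∧ w' ∈ Eu y ∧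
      ‖F.T x x v'‖ + ‖F.T x y w'‖ = 1 ∧ ‖F.T x x v' - F.T x y w'‖ ≤ κ := by
  set s := ‖F.T x x v‖ + ‖F.T x y w‖ with hs
  have hs0 : 0 < s := by
    rcases (add_nonneg (norm_nonneg (F.T x x v)) (norm_nonneg (F.T x y w))).lt_or_eq with h | h
    · exact h
    · exfalso
      rw [← hs] at h
      rw [← h, mul_zero] at hlt
      exact absurd (norm_nonneg (F.T x x v - F.T x y w)) (not_le.mpr hlt)
  refine ⟨s⁻¹ • v, s⁻¹ • w, (Es x).smul_mem _ hv, (Eu y).smul_mem _ hw, ?_, ?_⟩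
  · rw [map_smul, map_smul, norm_smul, norm_smul, Real.norm_of_nonneg (inv_nonneg.mpr hs0.le),
      ← mul_add, ← hs]
    exact inv_mul_cancel₀ hs0.ne'
  · rw [map_smul, map_smul, ← smul_sub, norm_smul, Real.norm_of_nonneg (inv_nonneg.mpr hs0.le)]
    calc s⁻¹ * ‖F.T x x v - F.T x y w‖ ≤ s⁻¹ * (κ * s) :=
          mul_le_mul_of_nonneg_left hlt.le (inv_nonneg.mpr hs0.le)
      _ = κ := by field_simp

/-- Closed disjoint families of subspaces are uniformly transverse at neighbouring points. -/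
theorem Fam.transverse [CompactSpace M] (F : Fam d M)
    (Es Eu : ∀ x : M, Submodule ℝ (TangentSpace (𝓡 d) x))
    (hs : IsClosed {z : TangentBundle (𝓡 d) M | z.snd ∈ Es z.proj})
    (hu : IsClosed {z : TangentBundle (𝓡 d) M | z.snd ∈ Eu z.proj})
    (hd : ∀ x, Disjoint (Es x) (Eu x)) :
    ∃ κ > 0, ∃ ρ > 0, ρ ≤ F.r ∧ ∀ x y, dist x y ≤ ρ → ∀ v ∈ Es x, ∀ w ∈ Eu y,
      κ * (‖F.T x x v‖ + ‖F.T x y w‖) ≤ ‖F.T x x v - F.T x y w‖ := by
  by_contra hcon
  push Not at hcon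
  have hpos : ∀ k : ℕ, (0 : ℝ) < 1 / ((k : ℝ) + 1) := fun k => by positivity
  have key : ∀ k : ℕ, ∃ (x y : M) (v : TangentSpace (𝓡 d) x) (w : TangentSpace (𝓡 d) y),
      dist x y ≤ min F.r (1 / ((k : ℝ) + 1)) ∧ v ∈ Es x ∧ w ∈ Eu y ∧
        ‖F.T x x v‖ + ‖F.T x y w‖ = 1 ∧ ‖F.T x x v - F.T x y w‖ ≤ 1 / ((k : ℝ) + 1) := by
    intro k
    obtain ⟨x, y, hxy, v, hv, w, hw, hlt⟩ := hcon (1 / ((k : ℝ) + 1)) (hpos k)
      (min F.r (1 / ((k : ℝ) + 1))) (lt_min F.hr (hpos k)) (min_le_left _ _)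
    obtain ⟨v', w', hv', hw', h1, h2⟩ := F.scale_step Es Eu _ x y v hv w hw hlt
    exact ⟨x, y, v', w', hxy, hv', hw', h1, h2⟩
  choose x y v w hxy hv hw hsum hdiff using key
  have hlim : Filter.Tendsto (fun k : ℕ => 1 / ((k : ℝ) + 1)) Filter.atTop (nhds 0) :=
    tendsto_one_div_add_atTop_nhds_zero_nat
  -- a convergent subsequence of the points and of the vectors
  have hcomp : IsCompact ((univ : Set M) ×ˢ
      closedBall (0 : EuclideanSpace ℝ (Fin d)) 1) :=
    isCompact_univ.prod (isCompact_closedBall _ _)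
  obtain ⟨⟨p, a⟩, -, φ, hφ, hconv⟩ := hcomp.tendsto_subseq
    (x := fun k => (x k, F.T (x k) (x k) (v k))) (fun k => ⟨mem_univ _, by
      rw [mem_closedBall_zero_iff]
      have := norm_nonneg (F.T (x k) (y k) (w k))
      have h := hsum k
      simp only at *
      linarith⟩)
  have hx : Filter.Tendsto (fun k => x (φ k)) Filter.atTop (nhds p) :=
    ((continuous_fst.tendsto _).comp hconv)
  have ha : Filter.Tendsto (fun k => F.T (x (φ k)) (x (φ k)) (v (φ k))) Filter.atTop (nhds a) :=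
    ((continuous_snd.tendsto _).comp hconv)
  have hlimφ := hlim.comp hφ.tendsto_atTop
  have hy : Filter.Tendsto (fun k => y (φ k)) Filter.atTop (nhds p) := by
    rw [tendsto_iff_dist_tendsto_zero] at hx ⊢
    refine squeeze_zero (g := fun k => 1 / ((φ k : ℝ) + 1) + dist (x (φ k)) p)
      (fun _ => dist_nonneg) (fun k => ?_) (by
        have h := hlimφ.add hx
        rw [add_zero] at h
        exact h)
    calc dist (y (φ k)) p ≤ dist (y (φ k)) (x (φ k)) + dist (x (φ k)) p := dist_triangle _ _ _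
      _ ≤ 1 / ((φ k : ℝ) + 1) + dist (x (φ k)) p := by
          rw [dist_comm (y (φ k))]
          have := (hxy (φ k)).trans (min_le_right _ _)
          linarith
  have hb : Filter.Tendsto (fun k => F.T (x (φ k)) (y (φ k)) (w (φ k))) Filter.atTop
      (nhds a) := by
    rw [tendsto_iff_norm_sub_tendsto_zero] at ha ⊢
    refine squeeze_zero (g := fun k => 1 / ((φ k : ℝ) + 1) +
      ‖F.T (x (φ k)) (x (φ k)) (v (φ k)) - a‖) (fun _ => norm_nonneg _) (fun k => ?_) (by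
        have h := hlimφ.add ha
        rw [add_zero] at h
        exact h)
    calc ‖F.T (x (φ k)) (y (φ k)) (w (φ k)) - a‖
        = ‖(F.T (x (φ k)) (x (φ k)) (v (φ k)) - a) - (F.T (x (φ k)) (x (φ k)) (v (φ k)) -
            F.T (x (φ k)) (y (φ k)) (w (φ k)))‖ := by
          rw [sub_sub_sub_cancel_left]
      _ ≤ ‖F.T (x (φ k)) (x (φ k)) (v (φ k)) - a‖ + ‖F.T (x (φ k)) (x (φ k)) (v (φ k)) -
            F.T (x (φ k)) (y (φ k)) (w (φ k))‖ := norm_sub_le _ _
      _ ≤ 1 / ((φ k : ℝ) + 1) + ‖F.T (x (φ k)) (x (φ k)) (v (φ k)) - a‖ := by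
          have := hdiff (φ k)
          linarith
  have hnorm : ‖a‖ + ‖a‖ = 1 := by
    have h1 := (ha.norm.add hb.norm)
    have h2 : (fun k => ‖F.T (x (φ k)) (x (φ k)) (v (φ k))‖ +
        ‖F.T (x (φ k)) (y (φ k)) (w (φ k))‖) = fun _ => (1 : ℝ) := funext fun k => hsum (φ k)
    rw [h2] at h1
    exact (tendsto_nhds_unique h1 tendsto_const_nhds)
  obtain ⟨φ1, z1, hφ1, hz1, hi1, hc1⟩ := F.subseq (fun k => x (φ k)) (fun k => x (φ k)) p
    (fun k => F.T (x (φ k)) (x (φ k)) (v (φ k))) a hx hx ha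
  have hr0 := F.hr
  have mem1 : F.T' z1 p a ∈ Es p := by
    refine hs.mem_of_tendsto hc1 (Filter.Eventually.of_forall fun k => ?_)
    show F.T' _ _ (F.T _ _ _) ∈ Es _
    rw [F.T'_T (by rw [dist_self]; linarith)]
    exact hv _
  obtain ⟨φ2, z2, hφ2, hz2, hi2, hc2⟩ := F.subseq (fun k => x (φ (φ1 k)))
    (fun k => y (φ (φ1 k))) p (fun k => F.T (x (φ (φ1 k))) (y (φ (φ1 k))) (w (φ (φ1 k)))) a
    (hx.comp hφ1.tendsto_atTop) (hy.comp hφ1.tendsto_atTop) (hb.comp hφ1.tendsto_atTop)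
  have mem2 : F.T' z2 p a ∈ Eu p := by
    refine hu.mem_of_tendsto hc2 (Filter.Eventually.of_forall fun k => ?_)
    show F.T' _ _ (F.T _ _ _) ∈ Eu _
    rw [F.T'_T (by
      have := (hxy (φ (φ1 (φ2 k)))).trans (min_le_left _ _)
      linarith)]
    exact hw _
  have hi : F.i z1 = F.i z2 := by
    rw [← hi1 (φ2 0), ← hi2 0]
  have mem3 : F.T' z1 p a ∈ Eu p := by
    rw [F.T'_congr_tra hi]; exact mem2
  have hzero : F.T' z1 p a = 0 := by
    have := (Submodule.disjoint_def.mp (hd p)) _ mem1 mem3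
    exact this
  have ha0 : a = 0 := by
    rw [← F.T_T' (x := z1) (y := p) (by linarith) a, hzero, map_zero]
  rw [ha0] at hnorm
  simp at hnorm

theorem Fam.finrank_le (F : Fam d M)
    (Es Eu : ∀ x : M, Submodule ℝ (TangentSpace (𝓡 d) x)) (κ : ℝ) (hκ : 0 < κ) (x y : M)
    (hxy : dist x y ≤ F.r)
    (h : ∀ v ∈ Es x, ∀ w ∈ Eu y,
      κ * (‖F.T x x v‖ + ‖F.T x y w‖) ≤ ‖F.T x x v - F.T x y w‖) :
    Module.finrank ℝ (Es x) + Module.finrank ℝ (Eu y) ≤ d := by
  have hr0 := F.hr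
  have inj1 : Injective (F.T x x).toLinearMap := by
    intro v v' hvv
    have := congrArg (F.T' x x) (show F.T x x v = F.T x x v' from hvv)
    rwa [F.T'_T (by rw [dist_self]; linarith), F.T'_T (by rw [dist_self]; linarith)] at this
  have inj2 : Injective (F.T x y).toLinearMap := by
    intro v v' hvv
    have := congrArg (F.T' x y) (show F.T x y v = F.T x y v' from hvv)
    rwa [F.T'_T (by linarith), F.T'_T (by linarith)] at this
  have e1 := (Submodule.equivMapOfInjective (F.T x x).toLinearMap inj1 (Es x)).finrank_eq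
  have e2 := (Submodule.equivMapOfInjective (F.T x y).toLinearMap inj2 (Eu y)).finrank_eq
  rw [e1, e2]
  have hdis : Disjoint ((Es x).map (F.T x x).toLinearMap) ((Eu y).map (F.T x y).toLinearMap) := by
    rw [Submodule.disjoint_def]
    rintro u ⟨v, hv, rfl⟩ ⟨w, hw, hvw⟩
    have h1 := h v hv w hw
    have h2 : F.T x x v - F.T x y w = 0 := by
      have : F.T x y w = F.T x x v := hvw
      rw [this, sub_self]
    rw [h2, norm_zero] at h1
    have h3 : ‖F.T x x v‖ = 0 := by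
      have n1 := norm_nonneg (F.T x x v)
      have n2 := norm_nonneg (F.T x y w)
      by_contra hne
      have : 0 < ‖F.T x x v‖ := lt_of_le_of_ne n1 (Ne.symm hne)
      have : 0 < κ * (‖F.T x x v‖ + ‖F.T x y w‖) := by positivity
      linarith
    exact norm_eq_zero.mp h3
  have h4 := Submodule.finrank_add_finrank_le_of_disjoint hdis
  rwa [finrank_euclideanSpace_fin] at h4

/-- Dimensions are locally constant. -/
theorem Fam.dims [CompactSpace M] (F : Fam d M)
    (Es Eu : ∀ x : M, Submodule ℝ (TangentSpace (𝓡 d) x))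
    (hs : IsClosed {z : TangentBundle (𝓡 d) M | z.snd ∈ Es z.proj})
    (hu : IsClosed {z : TangentBundle (𝓡 d) M | z.snd ∈ Eu z.proj})
    (hd : ∀ x, IsCompl (Es x) (Eu x)) :
    ∃ ρ > 0, ∀ x y, dist x y ≤ ρ →
      Module.finrank ℝ ((Es x).map (F.T x x).toLinearMap) +
        Module.finrank ℝ ((Eu y).map (F.T y y).toLinearMap) = d := by
  obtain ⟨κ1, hκ1, ρ1, hρ1, hr1, h1⟩ := F.transverse Es Eu hs hu (fun x => (hd x).disjoint)
  obtain ⟨κ2, hκ2, ρ2, hρ2, hr2, h2⟩ := F.transverse Eu Es hu hs (fun x => (hd x).disjoint.symm)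
  refine ⟨min ρ1 ρ2, lt_min hρ1 hρ2, fun x y hxy => ?_⟩
  have hr0 := F.hr
  have inj : ∀ x, Injective (F.T x x).toLinearMap := by
    intro x v v' hvv
    have := congrArg (F.T' x x) (show F.T x x v = F.T x x v' from hvv)
    rwa [F.T'_T (by rw [dist_self]; linarith), F.T'_T (by rw [dist_self]; linarith)] at this
  rw [← (Submodule.equivMapOfInjective (F.T x x).toLinearMap (inj x) (Es x)).finrank_eq,
    ← (Submodule.equivMapOfInjective (F.T y y).toLinearMap (inj y) (Eu y)).finrank_eq]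
  have hxy1 := hxy.trans (min_le_left _ _)
  have hxy2 := hxy.trans (min_le_right _ _)
  have a1 := F.finrank_le Es Eu κ1 hκ1 x y (hxy1.trans hr1) (h1 x y hxy1)
  have a2 := F.finrank_le Eu Es κ2 hκ2 x y (hxy2.trans hr2) (h2 x y hxy2)
  have hfin : ∀ z : M, FiniteDimensional ℝ (TangentSpace (𝓡 d) z) := fun z =>
    inferInstanceAs (FiniteDimensional ℝ (EuclideanSpace ℝ (Fin d)))
  have hcard : ∀ z : M, Module.finrank ℝ (Es z) + Module.finrank ℝ (Eu z) = d := by
    intro z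
    have := hfin z
    rw [Submodule.finrank_add_eq_of_isCompl (hd z)]
    exact finrank_euclideanSpace_fin
  have b1 := hcard x
  have b2 := hcard y
  omega

end Pool.Agent.ANO
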