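import Mathlib

open Set Metric Function Topology

namespace Pool.Agent.ANO

/-- A locally injective continuous map with local sections over balls of a uniform radius is a covering
map. -/
theorem isCoveringMap_of_sections {X M : Type} [TopologicalSpace X] [T2Space X] [MetricSpace M]
    [LocallyConnectedSpace M] (p : X → M) (hp : Continuous p)
    (hinj : ∀ x, ∃ V ∈ 𝓝 x, InjOn p V) (r : ℝ) (hr : 0 < r)
    (hsec : ∀ x, ∃ κ : M → X, ContinuousOn κ (ball (p x) r) ∧ κ (p x) = x ∧
      ∀ m ∈ ball (p x) r, p (κ m) = m) : IsCoveringMap p := by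
  classical
  choose κ hκc hκ0 hκs using hsec
  have hli : IsLocallyInjective p := by
    rw [isLocallyInjective_iff_nhds]
    exact hinj
  have hsep : IsSeparatedMap p := T2Space.isSeparatedMap p
  intro m
  set V : Set M := connectedComponentIn (ball m (r / 2)) m with hV
  have hVo : IsOpen V := isOpen_ball.connectedComponentIn
  have hmV : m ∈ V := mem_connectedComponentIn (mem_ball_self (by positivity))
  have hVp : IsPreconnected V := isPreconnected_connectedComponentIn
  have hVb : V ⊆ ball m (r / 2) := connectedComponentIn_subset _ _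
  have hsub : ∀ y, p y ∈ V → V ⊆ ball (p y) r := by
    intro y hy v hv
    have h1 := mem_ball.1 (hVb hy)
    have h2 := mem_ball.1 (hVb hv)
    rw [mem_ball]
    have h3 := dist_triangle v m (p y)
    rw [dist_comm m (p y)] at h3
    linarith
  have hun : ∀ y z, p y ∈ V → p z ∈ V → ∀ v ∈ V, κ y v = κ z v → EqOn (κ y) (κ z) V := by
    intro y z hy hz v hv hvv
    refine hsep.eqOn_of_comp_eqOn hli hVp ((hκc y).mono (hsub y hy)) ((hκc z).mono (hsub z hz)) ?_
      hv hvv
    intro w hw
    simp only [comp_apply]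
    rw [hκs y w (hsub y hy hw), hκs z w (hsub z hz hw)]
  have hfib : ∀ y, p y ∈ V → p (κ y m) = m := fun y hy => hκs y m (hsub y hy hmV)
  have hdisc : DiscreteTopology (p ⁻¹' {m}) := by
    rw [discreteTopology_iff_isOpen_singleton]
    rintro ⟨x, hx⟩
    obtain ⟨U, hUo, hxU, hU⟩ := hli x
    have : ({⟨x, hx⟩} : Set (p ⁻¹' {m})) = Subtype.val ⁻¹' U := by
      ext ⟨y, hy⟩
      simp only [mem_singleton_iff, Subtype.mk.injEq, mem_preimage]
      constructor
      · rintro rfl
        exact hxU
      · intro hyU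
        refine hU hyU hxU ?_
        rw [mem_preimage, mem_singleton_iff] at hx hy
        rw [hx, hy]
    rw [this]
    exact hUo.preimage continuous_subtype_val
  have hk : ∀ x : p ⁻¹' {m}, p x.1 ∈ V := by
    rintro ⟨x, hx⟩
    rw [mem_preimage, mem_singleton_iff] at hx
    rw [hx]
    exact hmV
  have hkm : ∀ x : p ⁻¹' {m}, κ x.1 m = x.1 := by
    rintro ⟨x, hx⟩
    rw [mem_preimage, mem_singleton_iff] at hx
    have := hκ0 x
    rw [hx] at this
    exact this
  let F : p ⁻¹' V → p ⁻¹' {m} := fun y => ⟨κ y.1 m, hfib y.1 y.2⟩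
  have hF : ∀ y : p ⁻¹' V, EqOn (κ (F y).1) (κ y.1) V := by
    intro y
    exact hun _ _ (hk (F y)) y.2 m hmV (hkm (F y))
  have hFc : Continuous F := by
    rw [continuous_discrete_rng]
    intro x0
    rw [isOpen_iff_mem_nhds]
    intro y0 hy0
    rw [mem_preimage, mem_singleton_iff] at hy0
    obtain ⟨W, hW, hWi⟩ := hinj y0.1
    have h1 : κ x0.1 (p y0.1) = y0.1 := by
      rw [← hy0, hF y0 y0.2, hκ0]
    have hc : ContinuousAt (fun y : p ⁻¹' V => κ x0.1 (p y.1)) y0 := by
      have h2 : ContinuousAt (κ x0.1) (p y0.1) :=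
        ((hκc x0.1).mono (hsub x0.1 (hk x0))).continuousAt (hVo.mem_nhds y0.2)
      exact ContinuousAt.comp (f := fun y : p ⁻¹' V => p y.1) h2
        ((hp.comp continuous_subtype_val).continuousAt)
    have hW1 : ∀ᶠ y in 𝓝 y0, κ x0.1 (p y.1) ∈ W := by
      apply hc
      simp only [h1]
      exact hW
    have hW2 : ∀ᶠ y : p ⁻¹' V in 𝓝 y0, (y : X) ∈ W := continuous_subtype_val.continuousAt hW
    filter_upwards [hW1, hW2] with y hy1 hy2
    rw [mem_preimage, mem_singleton_iff]
    have h3 : κ x0.1 (p y.1) = y.1 := by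
      refine hWi hy1 hy2 ?_
      exact hκs x0.1 _ (hsub x0.1 (hk x0) y.2)
    have h4 : EqOn (κ y.1) (κ x0.1) V := by
      refine hun _ _ y.2 (hk x0) (p y.1) y.2 ?_
      rw [h3, hκ0]
    apply Subtype.ext
    show κ y.1 m = x0.1
    rw [h4 hmV, hkm]
  refine ⟨hdisc, V, hmV, hVo, hVo.preimage hp, ?_⟩
  refine ⟨{ toFun := fun y => (⟨p y.1, y.2⟩, F y)
            invFun := fun q => ⟨κ q.2.1 q.1.1, ?_⟩
            left_inv := ?_
            right_inv := ?_
            continuous_toFun := ?_
            continuous_invFun := ?_ }, fun x => rfl⟩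
  · rw [mem_preimage, hκs q.2.1 _ (hsub _ (hk q.2) q.1.2)]
    exact q.1.2
  · intro y
    apply Subtype.ext
    show κ (F y).1 (p y.1) = y.1
    rw [hF y y.2, hκ0]
  · rintro ⟨⟨v, hv⟩, x⟩
    have hpv : p (κ x.1 v) = v := hκs x.1 v (hsub _ (hk x) hv)
    have h1 : EqOn (κ (κ x.1 v)) (κ x.1) V := by
      refine hun _ _ (by rw [hpv]; exact hv) (hk x) v hv ?_
      have := hκ0 (κ x.1 v)
      rw [hpv] at this
      exact this
    refine Prod.ext (Subtype.ext hpv) (Subtype.ext ?_)
    show κ (κ x.1 v) m = x.1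
    rw [h1 hmV, hkm]
  · exact ((hp.comp continuous_subtype_val).subtype_mk _).prodMk hFc
  · refine Continuous.subtype_mk ?_ _
    rw [continuous_prod_of_discrete_right]
    intro x
    exact (((hκc x.1).mono (hsub x.1 (hk x))).comp_continuous continuous_subtype_val fun v => v.2)

end Pool.Agent.ANO
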