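import Mathlib
import Pool.Agent.ANO.Sys

open Set Metric Function

namespace Pool.Agent.ANO

variable {M : Type} [MetricSpace M] {E : Type} [NormedAddCommGroup E] [NormedSpace ℝ E]

theorem Loc.A_symm_mem_s (H : Loc M E) (x : M) (v : E) (hv : v ∈ H.Es (H.f x)) :
    (H.A x).symm v ∈ H.Es x := by
  have htop : (H.A x).symm v ∈ H.Es x ⊔ H.Eu x := by
    rw [(H.compl x).sup_eq_top]; trivial
  obtain ⟨s, hs, u, hu, hsu⟩ := Submodule.mem_sup.1 htop
  have h1 : H.A x s + H.A x u = v := by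
    rw [← map_add, hsu, ContinuousLinearEquiv.apply_symm_apply]
  have h2 : H.A x u ∈ H.Es (H.f x) := by
    have : H.A x u = v - H.A x s := by rw [← h1]; abel
    rw [this]
    exact Submodule.sub_mem _ hv (H.A_s x s hs)
  have h3 : H.A x u = 0 :=
    Submodule.disjoint_def.1 (H.compl (H.f x)).disjoint _ h2 (H.A_u x u hu)
  have h4 : u = 0 := (H.A x).map_eq_zero_iff.1 h3
  rw [← hsu, h4, add_zero]
  exact hs

theorem Loc.A_symm_mem_u (H : Loc M E) (x : M) (v : E) (hv : v ∈ H.Eu (H.f x)) :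
    (H.A x).symm v ∈ H.Eu x := by
  have htop : (H.A x).symm v ∈ H.Es x ⊔ H.Eu x := by
    rw [(H.compl x).sup_eq_top]; trivial
  obtain ⟨s, hs, u, hu, hsu⟩ := Submodule.mem_sup.1 htop
  have h1 : H.A x s + H.A x u = v := by
    rw [← map_add, hsu, ContinuousLinearEquiv.apply_symm_apply]
  have h2 : H.A x s ∈ H.Eu (H.f x) := by
    have : H.A x s = v - H.A x u := by rw [← h1]; abel
    rw [this]
    exact Submodule.sub_mem _ hv (H.A_u x u hu)
  have h3 : H.A x s = 0 :=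
    Submodule.disjoint_def.1 (H.compl (H.f x)).disjoint _ (H.A_s x s hs) h2
  have h4 : s = 0 := (H.A x).map_eq_zero_iff.1 h3
  rw [← hsu, h4, zero_add]
  exact hu

theorem Loc.der_symm [CompactSpace M] (H : Loc M E) (η : ℝ) (hη : 0 < η) : ∃ ρ > 0, ∀ x y z,
    dist x y ≤ ρ → dist x z ≤ ρ →
    ‖H.c (H.f.symm x) (H.f.symm y) - H.c (H.f.symm x) (H.f.symm z) -
      (H.A (H.f.symm x)).symm (H.c x y - H.c x z)‖ ≤ η * ‖H.c x y - H.c x z‖ := by
  have hL : 0 < H.L := lt_of_lt_of_le one_pos H.hL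
  set η0 : ℝ := min (η / (2 * H.L ^ 2)) (1 / (2 * H.L)) with hη0
  have hη0pos : 0 < η0 := lt_min (by positivity) (by positivity)
  have e1 : 2 * H.L ^ 2 * η0 ≤ η := by
    have h := min_le_left (η / (2 * H.L ^ 2)) (1 / (2 * H.L))
    rw [← hη0] at h
    calc 2 * H.L ^ 2 * η0 ≤ 2 * H.L ^ 2 * (η / (2 * H.L ^ 2)) :=
          mul_le_mul_of_nonneg_left h (by positivity)
      _ = η := by field_simp
  have e2 : 2 * (H.L * η0) ≤ 1 := by
    have h := min_le_right (η / (2 * H.L ^ 2)) (1 / (2 * H.L))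
    rw [← hη0] at h
    calc 2 * (H.L * η0) ≤ 2 * (H.L * (1 / (2 * H.L))) := by gcongr
      _ = 1 := by field_simp
  obtain ⟨ρ0, hρ0, h0⟩ := H.der η0 hη0pos
  have huc : UniformContinuous H.f.symm :=
    CompactSpace.uniformContinuous_of_continuous H.f.symm.continuous
  obtain ⟨δ, hδ, h1⟩ := Metric.uniformContinuous_iff.1 huc ρ0 hρ0
  refine ⟨δ / 2, by positivity, fun x y z hxy hxz => ?_⟩
  have hy : dist (H.f.symm x) (H.f.symm y) ≤ ρ0 := (h1 (by linarith)).le
  have hz : dist (H.f.symm x) (H.f.symm z) ≤ ρ0 := (h1 (by linarith)).le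
  have h2 := h0 _ _ _ hy hz
  simp only [Homeomorph.apply_symm_apply] at h2
  set x' := H.f.symm x
  set d := H.c x' (H.f.symm y) - H.c x' (H.f.symm z) with hd
  set D := H.c x y - H.c x z with hD
  have h3 : ‖d‖ ≤ 2 * H.L * ‖D‖ := by
    have h4 : ‖d‖ ≤ H.L * ‖H.A x' d‖ := by
      have := H.A_symm_le x' (H.A x' d)
      rwa [ContinuousLinearEquiv.symm_apply_apply] at this
    have h5 : ‖H.A x' d‖ ≤ ‖D‖ + η0 * ‖d‖ := by
      have h6 : H.A x' d = D - (D - H.A x' d) := by abel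
      calc ‖H.A x' d‖ = ‖D - (D - H.A x' d)‖ := by rw [← h6]
        _ ≤ ‖D‖ + ‖D - H.A x' d‖ := norm_sub_le _ _
        _ ≤ ‖D‖ + η0 * ‖d‖ := by gcongr
    have h7 : ‖d‖ ≤ H.L * ‖D‖ + (H.L * η0) * ‖d‖ := by
      calc ‖d‖ ≤ H.L * ‖H.A x' d‖ := h4
        _ ≤ H.L * (‖D‖ + η0 * ‖d‖) := by gcongr
        _ = _ := by ring
    have h8 : (H.L * η0) * ‖d‖ ≤ 1 / 2 * ‖d‖ :=
      mul_le_mul_of_nonneg_right (by linarith) (norm_nonneg _)
    nlinarith
  have h9 : d - (H.A x').symm D = (H.A x').symm (H.A x' d - D) := by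
    rw [(H.A x').symm.map_sub (H.A x' d) D, ContinuousLinearEquiv.symm_apply_apply]
  rw [h9]
  calc ‖(H.A x').symm (H.A x' d - D)‖ ≤ H.L * ‖H.A x' d - D‖ := H.A_symm_le _ _
    _ ≤ H.L * (η0 * ‖d‖) := by
        rw [norm_sub_rev]
        gcongr
    _ ≤ H.L * (η0 * (2 * H.L * ‖D‖)) := by gcongr
    _ = (2 * H.L ^ 2 * η0) * ‖D‖ := by ring
    _ ≤ η * ‖D‖ := by gcongr

/-- The inverse homeomorphism in local coordinates. -/
noncomputable def Loc.symm [CompactSpace M] (H : Loc M E) : Loc M E where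
  f := H.f.symm
  c := H.c
  r := H.r
  hr := H.hr
  L := H.L
  hL := H.hL
  c_self := H.c_self
  c_le := H.c_le
  le_c := H.le_c
  c_surj := H.c_surj
  A := fun x => (H.A (H.f.symm x)).symm
  A_le := fun x v => H.A_symm_le _ v
  A_symm_le := fun x v => by simpa using H.A_le (H.f.symm x) v
  der := H.der_symm
  Es := H.Eu
  Eu := H.Es
  compl := fun x => (H.compl x).symm
  A_s := fun x v hv => H.A_symm_mem_u _ v (by simpa using hv)
  A_u := fun x v hv => H.A_symm_mem_s _ v (by simpa using hv)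
  n := H.n
  n_add := H.n_add
  n_smul := H.n_smul
  n_le := H.n_le
  le_n := H.le_n
  ang_s := fun x v w hv hw => by rw [add_comm]; exact H.ang_u x w v hw hv
  ang_u := fun x v w hv hw => by rw [add_comm]; exact H.ang_s x w v hw hv
  l1 := H.m1⁻¹
  l2 := H.m2⁻¹
  m2 := H.l2⁻¹
  m1 := H.l1⁻¹
  hl1 := inv_pos.2 (by have := H.hm2; have := H.hm12; linarith)
  hl12 := by
    have h1 := H.hm2
    have h2 := H.hm12
    exact inv_anti₀ (by linarith) h2
  hl2 := inv_lt_one_of_one_lt₀ H.hm2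
  hm2 := (one_lt_inv₀ (lt_of_lt_of_le H.hl1 H.hl12)).2 H.hl2
  hm12 := inv_anti₀ H.hl1 H.hl12
  s_lo := by
    intro x v hv
    have hw : (H.A (H.f.symm x)).symm v ∈ H.Eu (H.f.symm x) :=
      H.A_symm_mem_u _ v (by simpa using hv)
    have h := H.u_hi _ _ hw
    simp only [Homeomorph.apply_symm_apply, ContinuousLinearEquiv.apply_symm_apply] at h
    have hm : 0 < H.m1 := by have := H.hm2; have := H.hm12; linarith
    rw [inv_mul_le_iff₀ hm]
    exact h
  s_hi := by
    intro x v hv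
    have hw : (H.A (H.f.symm x)).symm v ∈ H.Eu (H.f.symm x) :=
      H.A_symm_mem_u _ v (by simpa using hv)
    have h := H.u_lo _ _ hw
    simp only [Homeomorph.apply_symm_apply, ContinuousLinearEquiv.apply_symm_apply] at h
    have hm : 0 < H.m2 := by have := H.hm2; linarith
    rw [le_inv_mul_iff₀ hm]
    exact h
  u_lo := by
    intro x v hv
    have hw : (H.A (H.f.symm x)).symm v ∈ H.Es (H.f.symm x) :=
      H.A_symm_mem_s _ v (by simpa using hv)
    have h := H.s_hi _ _ hw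
    simp only [Homeomorph.apply_symm_apply, ContinuousLinearEquiv.apply_symm_apply] at h
    have hl : 0 < H.l2 := lt_of_lt_of_le H.hl1 H.hl12
    rw [inv_mul_le_iff₀ hl]
    exact h
  u_hi := by
    intro x v hv
    have hw : (H.A (H.f.symm x)).symm v ∈ H.Es (H.f.symm x) :=
      H.A_symm_mem_s _ v (by simpa using hv)
    have h := H.s_lo _ _ hw
    simp only [Homeomorph.apply_symm_apply, ContinuousLinearEquiv.apply_symm_apply] at h
    rw [le_inv_mul_iff₀ H.hl1]
    exact h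

end Pool.Agent.ANO
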