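import Mathlib
import Pool.Agent.ANO.Sys

open Set Metric Function

namespace Pool.Agent.ANO

variable {M : Type} [MetricSpace M] {E : Type} [NormedAddCommGroup E] [NormedSpace ℝ E]

private theorem glo_one [FiniteDimensional ℝ E] (H : Loc M E) (η η' ρ : ℝ) (hη' : 0 < η')
    (hle : (lipschitzExtensionConstant E : ℝ) * η' ≤ η) (hρ : 0 < ρ) (hρr : ρ ≤ H.r)
    (hder : ∀ x y z, dist x y ≤ ρ → dist x z ≤ ρ →
      ‖H.c (H.f x) (H.f y) - H.c (H.f x) (H.f z) - H.A x (H.c x y - H.c x z)‖ ≤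
        η' * ‖H.c x y - H.c x z‖) (x : M) :
    ∃ G : E → E, G 0 = 0 ∧ (∀ v w, ‖G v - G w - H.A x (v - w)‖ ≤ η * ‖v - w‖) ∧
      ∀ y, dist x y ≤ ρ → H.c (H.f x) (H.f y) = G (H.c x y) := by
  classical
  set S : Set E := {v | ∃ y, dist x y ≤ ρ ∧ H.c x y = v} with hS
  have hinj : ∀ y z, dist x y ≤ ρ → dist x z ≤ ρ → H.c x y = H.c x z → y = z := by
    intro y z hy hz h
    have h1 := H.le_c x y z (hy.trans hρr) (hz.trans hρr)
    rw [h, sub_self, norm_zero, mul_zero] at h1
    exact dist_le_zero.1 h1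
  let pick : E → M := fun v => if h : v ∈ S then h.choose else x
  have hpick : ∀ v ∈ S, dist x (pick v) ≤ ρ ∧ H.c x (pick v) = v := by
    intro v hv
    have : pick v = hv.choose := dif_pos hv
    rw [this]
    exact hv.choose_spec
  have hpick2 : ∀ y, dist x y ≤ ρ → pick (H.c x y) = y := by
    intro y hy
    have h1 := hpick (H.c x y) ⟨y, hy, rfl⟩
    exact hinj _ _ h1.1 hy h1.2
  let φ : E → E := fun v => H.c (H.f x) (H.f (pick v)) - H.A x v
  have hφ : LipschitzOnWith (Real.toNNReal η') φ S := by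
    refine LipschitzOnWith.of_dist_le_mul fun v hv w hw => ?_
    have h1 := hpick v hv
    have h2 := hpick w hw
    have h3 := hder x (pick v) (pick w) h1.1 h2.1
    rw [h1.2, h2.2] at h3
    rw [dist_eq_norm, dist_eq_norm, Real.coe_toNNReal _ hη'.le]
    have h4 : φ v - φ w = H.c (H.f x) (H.f (pick v)) - H.c (H.f x) (H.f (pick w)) -
        H.A x (v - w) := by
      simp only [φ, map_sub]
      abel
    rw [h4]
    exact h3
  obtain ⟨ψ, hψ, hψe⟩ := hφ.extend_finite_dimension
  have h0S : (0 : E) ∈ S := ⟨x, by rw [dist_self]; exact hρ.le, H.c_self x⟩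
  have hp0 : pick 0 = x := by
    have := hpick2 x (by rw [dist_self]; exact hρ.le)
    rwa [H.c_self] at this
  have hψ0 : ψ 0 = 0 := by
    rw [← hψe h0S]
    simp only [φ, hp0, map_zero, sub_zero]
    exact H.c_self _
  refine ⟨fun v => H.A x v + ψ v, by simp [hψ0], fun v w => ?_, fun y hy => ?_⟩
  · have h1 := hψ.dist_le_mul v w
    rw [dist_eq_norm, dist_eq_norm] at h1
    have h2 : H.A x v + ψ v - (H.A x w + ψ w) - H.A x (v - w) = ψ v - ψ w := by
      rw [map_sub]
      abel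
    rw [h2]
    refine h1.trans (mul_le_mul_of_nonneg_right ?_ (norm_nonneg _))
    rw [NNReal.coe_mul, Real.coe_toNNReal _ hη'.le]
    exact hle
  · have h1 := hψe (show H.c x y ∈ S from ⟨y, hy, rfl⟩)
    have h2 := hpick2 y hy
    show _ = H.A x (H.c x y) + ψ (H.c x y)
    rw [← h1]
    simp only [φ, h2]
    abel

/-- Global extensions of the local maps, with a small Lipschitz error. -/
theorem Loc.exists_global [CompactSpace M] [FiniteDimensional ℝ E] (H : Loc M E) (η : ℝ)
    (hη : 0 < η) : ∃ ρ > 0, ρ ≤ H.r ∧ ∃ G : M → E → E, (∀ x, G x 0 = 0) ∧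
      (∀ x v w, ‖G x v - G x w - H.A x (v - w)‖ ≤ η * ‖v - w‖) ∧
      ∀ x y, dist x y ≤ ρ → dist (H.f x) (H.f y) ≤ H.r ∧
        H.c (H.f x) (H.f y) = G x (H.c x y) := by
  have hC : (0 : ℝ) < (lipschitzExtensionConstant E : ℝ) := by
    exact_mod_cast lipschitzExtensionConstant_pos E
  obtain ⟨ρ0, hρ0, hder⟩ := H.der (η / (lipschitzExtensionConstant E : ℝ)) (div_pos hη hC)
  have huc := CompactSpace.uniformContinuous_of_continuous H.f.continuous
  obtain ⟨ρ1, hρ1, hu⟩ := Metric.uniformContinuous_iff.1 huc H.r H.hr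
  set ρ := min (min ρ0 (ρ1 / 2)) H.r with hρ
  have hρp : 0 < ρ := lt_min (lt_min hρ0 (by linarith)) H.hr
  have hle0 : ρ ≤ ρ0 := (min_le_left _ _).trans (min_le_left _ _)
  have hle1 : ρ ≤ ρ1 / 2 := (min_le_left _ _).trans (min_le_right _ _)
  have h := fun x => glo_one H η (η / (lipschitzExtensionConstant E : ℝ)) ρ (div_pos hη hC)
    (by rw [mul_div_cancel₀ _ hC.ne']) hρp (min_le_right _ _)
    (fun x y z hy hz => hder x y z (hy.trans hle0) (hz.trans hle0)) x
  choose G hG0 hG1 hG2 using h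
  refine ⟨ρ, hρp, min_le_right _ _, G, hG0, hG1, fun x y hxy => ⟨?_, hG2 x y hxy⟩⟩
  exact (hu (by linarith)).le

/-- Small perturbations of `A x` are bijective. -/
theorem Loc.bij [FiniteDimensional ℝ E] (H : Loc M E) {η : ℝ} (hη : H.L * η < 1) (x : M) (g : E → E)
    (hg : ∀ v w, ‖g v - g w - H.A x (v - w)‖ ≤ η * ‖v - w‖) : Bijective g := by
  have hL : 0 < H.L := lt_of_lt_of_le one_pos H.hL
  constructor
  · intro v w h
    have h1 := hg v w
    rw [h, sub_self, zero_sub, norm_neg] at h1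
    have h2 := H.A_symm_le x (H.A x (v - w))
    rw [ContinuousLinearEquiv.symm_apply_apply] at h2
    have h3 : ‖v - w‖ ≤ H.L * η * ‖v - w‖ := by
      calc _ ≤ H.L * ‖H.A x (v - w)‖ := h2
        _ ≤ H.L * (η * ‖v - w‖) := mul_le_mul_of_nonneg_left h1 hL.le
        _ = _ := by ring
    by_contra hne
    have h4 : 0 < ‖v - w‖ := norm_pos_iff.2 (sub_ne_zero.2 hne)
    nlinarith
  · have : CompleteSpace E := FiniteDimensional.complete ℝ E
    set c : NNReal := ⟨max η 0, le_max_right _ _⟩ with hc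
    have happ : ApproximatesLinearOn g (H.A x : E →L[ℝ] E) univ c := by
      intro v _ w _
      refine (hg v w).trans (mul_le_mul_of_nonneg_right (le_max_left _ _) (norm_nonneg _))
    refine happ.surjective ?_
    by_cases hE : Subsingleton E
    · exact Or.inl hE
    · right
      have hnt : Nontrivial E := not_subsingleton_iff_nontrivial.1 hE
      have hN : ‖((H.A x).symm : E →L[ℝ] E)‖ ≤ H.L :=
        ContinuousLinearMap.opNorm_le_bound _ hL.le (fun v => H.A_symm_le x v)
      have hpos : 0 < ‖((H.A x).symm : E →L[ℝ] E)‖ := (H.A x).norm_symm_pos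
      rw [← NNReal.coe_lt_coe, NNReal.coe_inv, coe_nnnorm, ← one_div, lt_div_iff₀ hpos]
      have h5 : (c : ℝ) = max η 0 := rfl
      rw [h5]
      rcases le_total η 0 with h0 | h0
      · rw [max_eq_right h0, zero_mul]
        exact one_pos
      · rw [max_eq_left h0]
        calc η * ‖((H.A x).symm : E →L[ℝ] E)‖ ≤ η * H.L := mul_le_mul_of_nonneg_left hN h0
          _ = H.L * η := mul_comm _ _
          _ < 1 := hη

end Pool.Agent.ANO
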