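import Mathlib

namespace Pool.Agent.ANO

/-- The cone argument for sequences of real numbers. -/
theorem cone_seq {l1 l2 m2 η κ B : ℝ} (hη : 0 ≤ η) (hκ : 0 < κ) (hκ1 : κ ≤ 1) (h0 : 0 ≤ l2)
    (h1 : l2 + η < 1) (h2 : 1 < m2 - η / κ) (s u : ℕ → ℝ) (hs : ∀ k, 0 ≤ s k) (hu : ∀ k, 0 ≤ u k)
    (s_up : ∀ k, s (k + 1) ≤ l2 * s k + η * max (s k) (u k))
    (s_dn : ∀ k, l1 * s k - η * max (s k) (u k) ≤ s (k + 1))
    (u_dn : ∀ k, m2 * u k - η * max (s k) (u k) ≤ u (k + 1))
    (hB : ∀ k, u k ≤ B) :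
    ∀ k, u k ≤ κ * s k ∧ s (k + 1) ≤ (l2 + η) * s k ∧ (l1 - η) * s k ≤ s (k + 1) := by
  have key : ∀ k, u k ≤ κ * s k := by
    intro k
    by_contra hlt
    push Not at hlt
    -- one step
    have step : ∀ i, κ * s i < u i → κ * s (i + 1) < u (i + 1) ∧
        (m2 - η / κ) * u i ≤ u (i + 1) := by
      intro i hi
      have hu0 : 0 < u i := lt_of_le_of_lt (mul_nonneg hκ.le (hs i)) hi
      have hle1 : u i ≤ u i / κ := by
        rw [le_div_iff₀ hκ]
        nlinarith
      have hle2 : s i ≤ u i / κ := by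
        rw [le_div_iff₀ hκ, mul_comm]
        exact hi.le
      have hmax : max (s i) (u i) ≤ u i / κ := max_le hle2 hle1
      have hmax' : η * max (s i) (u i) ≤ η * (u i / κ) := mul_le_mul_of_nonneg_left hmax hη
      have e1 : η * (u i / κ) = η / κ * u i := by ring
      have hA : (m2 - η / κ) * u i ≤ u (i + 1) := by
        have := u_dn i
        rw [e1] at hmax'
        linarith
      refine ⟨?_, hA⟩
      have h3 : s (i + 1) ≤ l2 * (u i / κ) + η * (u i / κ) :=
        (s_up i).trans (add_le_add (mul_le_mul_of_nonneg_left hle2 h0) hmax')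
      have h4 : κ * s (i + 1) ≤ (l2 + η) * u i := by
        have := mul_le_mul_of_nonneg_left h3 hκ.le
        have e2 : κ * (l2 * (u i / κ) + η * (u i / κ)) = (l2 + η) * u i := by
          field_simp
        rw [e2] at this
        exact this
      have h5 : (l2 + η) * u i < 1 * u i := mul_lt_mul_of_pos_right h1 hu0
      have h6 : 1 * u i < (m2 - η / κ) * u i := mul_lt_mul_of_pos_right h2 hu0
      linarith
    have grow : ∀ j : ℕ, κ * s (k + j) < u (k + j) ∧ (m2 - η / κ) ^ j * u k ≤ u (k + j) := by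
      intro j
      induction j with
      | zero => exact ⟨hlt, by simp⟩
      | succ j ih =>
        obtain ⟨i1, i2⟩ := ih
        obtain ⟨r1, r2⟩ := step _ i1
        refine ⟨r1, ?_⟩
        have hm : 0 ≤ m2 - η / κ := by linarith
        calc (m2 - η / κ) ^ (j + 1) * u k = (m2 - η / κ) * ((m2 - η / κ) ^ j * u k) := by ring
          _ ≤ (m2 - η / κ) * u (k + j) := mul_le_mul_of_nonneg_left i2 hm
          _ ≤ u (k + (j + 1)) := r2
    have hu0 : 0 < u k := lt_of_le_of_lt (mul_nonneg hκ.le (hs k)) hlt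
    obtain ⟨j, hj⟩ := pow_unbounded_of_one_lt (B / u k) h2
    have h3 := (grow j).2
    have h4 : B < (m2 - η / κ) ^ j * u k := by
      rwa [div_lt_iff₀ hu0] at hj
    have := hB (k + j)
    linarith
  intro k
  have hk := key k
  have hsk := hs k
  have h3 : u k ≤ s k := by nlinarith
  have hmax : max (s k) (u k) = s k := max_eq_left h3
  have a1 := s_up k
  have a2 := s_dn k
  rw [hmax] at a1 a2
  refine ⟨hk, ?_, ?_⟩
  · linarith
  · linarith

end Pool.Agent.ANO
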