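import Mathlib
import Pool.Agent.ANO.Sys

open Set Metric Function

namespace Pool.Agent.ANO

variable {M : Type} [MetricSpace M] {E : Type} [NormedAddCommGroup E] [NormedSpace ℝ E]

theorem Loc.P_mem (H : Loc M E) (x : M) (v : E) : H.P x v ∈ H.Es x :=
  Submodule.projection_apply_mem (H.compl x) v

theorem Loc.P_of_mem_s (H : Loc M E) (x : M) (v : E) (hv : v ∈ H.Es x) : H.P x v = v :=
  Submodule.projection_apply_of_mem_left (H.compl x) hv

theorem Loc.P_of_mem_u (H : Loc M E) (x : M) (v : E) (hv : v ∈ H.Eu x) : H.P x v = 0 :=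
  Submodule.projection_apply_of_mem_right (H.compl x) hv

theorem Loc.Q_mem (H : Loc M E) (x : M) (v : E) : v - H.P x v ∈ H.Eu x := by
  have h : H.P x (v - H.P x v) = 0 := by
    rw [map_sub, H.P_of_mem_s x _ (H.P_mem x v), sub_self]
  exact (Submodule.projection_apply_eq_zero_iff (H.compl x)).1 h

theorem Loc.P_A (H : Loc M E) (x : M) (v : E) : H.P (H.f x) (H.A x v) = H.A x (H.P x v) := by
  have h1 : H.A x v = H.A x (H.P x v) + H.A x (v - H.P x v) := by
    rw [← map_add]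
    congr 1
    abel
  rw [h1, map_add, H.P_of_mem_s _ _ (H.A_s x _ (H.P_mem x v)),
    H.P_of_mem_u _ _ (H.A_u x _ (H.Q_mem x v)), add_zero]

theorem Loc.n_nonneg (H : Loc M E) (x : M) (v : E) : 0 ≤ H.n x v := by
  have h1 := H.le_n x v
  have h2 : 0 ≤ H.L * H.n x v := (norm_nonneg v).trans h1
  have hL : 0 < H.L := lt_of_lt_of_le one_pos H.hL
  exact nonneg_of_mul_nonneg_right h2 hL

theorem Loc.n_zero (H : Loc M E) (x : M) : H.n x 0 = 0 := by
  have h := H.n_smul x 0 0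
  simpa using h

theorem Loc.n_neg (H : Loc M E) (x : M) (v : E) : H.n x (-v) = H.n x v := by
  have h := H.n_smul x (-1) v
  simpa using h

theorem Loc.n_sub_le (H : Loc M E) (x : M) (v w : E) : H.n x (v - w) ≤ H.n x v + H.n x w := by
  have h := H.n_add x v (-w)
  rwa [H.n_neg, ← sub_eq_add_neg] at h

theorem Loc.n_P_le (H : Loc M E) (x : M) (v : E) : H.n x (H.P x v) ≤ H.L * H.n x v := by
  have h := H.ang_s x (H.P x v) (v - H.P x v) (H.P_mem x v) (H.Q_mem x v)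
  rwa [add_sub_cancel] at h

theorem Loc.n_Q_le (H : Loc M E) (x : M) (v : E) : H.n x (v - H.P x v) ≤ H.L * H.n x v := by
  have h := H.ang_u x (H.P x v) (v - H.P x v) (H.P_mem x v) (H.Q_mem x v)
  rwa [add_sub_cancel] at h

theorem Loc.norm_P_le (H : Loc M E) (x : M) (v : E) : ‖H.P x v‖ ≤ H.L ^ 3 * ‖v‖ := by
  have hL : 0 ≤ H.L := le_trans zero_le_one H.hL
  calc ‖H.P x v‖ ≤ H.L * H.n x (H.P x v) := H.le_n x _
    _ ≤ H.L * (H.L * H.n x v) := mul_le_mul_of_nonneg_left (H.n_P_le x v) hL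
    _ ≤ H.L * (H.L * (H.L * ‖v‖)) :=
        mul_le_mul_of_nonneg_left (mul_le_mul_of_nonneg_left (H.n_le x v) hL) hL
    _ = H.L ^ 3 * ‖v‖ := by ring

theorem Loc.norm_Q_le (H : Loc M E) (x : M) (v : E) : ‖v - H.P x v‖ ≤ H.L ^ 3 * ‖v‖ := by
  have hL : 0 ≤ H.L := le_trans zero_le_one H.hL
  calc ‖v - H.P x v‖ ≤ H.L * H.n x (v - H.P x v) := H.le_n x _
    _ ≤ H.L * (H.L * H.n x v) := mul_le_mul_of_nonneg_left (H.n_Q_le x v) hL
    _ ≤ H.L * (H.L * (H.L * ‖v‖)) :=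
        mul_le_mul_of_nonneg_left (mul_le_mul_of_nonneg_left (H.n_le x v) hL) hL
    _ = H.L ^ 3 * ‖v‖ := by ring

/-- The norm of a vector is at most `2 L` times the maximum of the norms of its components. -/
theorem Loc.norm_le_max (H : Loc M E) (x : M) (v : E) :
    ‖v‖ ≤ 2 * H.L * max (H.n x (H.P x v)) (H.n x (v - H.P x v)) := by
  have hL : 0 ≤ H.L := le_trans zero_le_one H.hL
  have h1 := H.n_add x (H.P x v) (v - H.P x v)
  rw [add_sub_cancel] at h1
  have h2 : H.n x v ≤ 2 * max (H.n x (H.P x v)) (H.n x (v - H.P x v)) := by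
    have := le_max_left (H.n x (H.P x v)) (H.n x (v - H.P x v))
    have := le_max_right (H.n x (H.P x v)) (H.n x (v - H.P x v))
    linarith
  calc ‖v‖ ≤ H.L * H.n x v := H.le_n x v
    _ ≤ H.L * (2 * max (H.n x (H.P x v)) (H.n x (v - H.P x v))) :=
        mul_le_mul_of_nonneg_left h2 hL
    _ = _ := by ring

/-- The size of the error term in the adapted norm. -/
theorem Loc.n_err_le (H : Loc M E) {η : ℝ} (hη : 0 ≤ η) (x y : M) (v err : E)
    (h : ‖err‖ ≤ η * ‖v‖) :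
    H.L * H.n y err ≤
      (2 * H.L ^ 3 * η) * max (H.n x (H.P x v)) (H.n x (v - H.P x v)) := by
  have hL : 0 ≤ H.L := le_trans zero_le_one H.hL
  calc H.L * H.n y err ≤ H.L * (H.L * ‖err‖) := mul_le_mul_of_nonneg_left (H.n_le y err) hL
    _ ≤ H.L * (H.L * (η * ‖v‖)) :=
        mul_le_mul_of_nonneg_left (mul_le_mul_of_nonneg_left h hL) hL
    _ ≤ H.L * (H.L * (η * (2 * H.L * max (H.n x (H.P x v)) (H.n x (v - H.P x v))))) :=
        mul_le_mul_of_nonneg_left (mul_le_mul_of_nonneg_left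
          (mul_le_mul_of_nonneg_left (H.norm_le_max x v) hη) hL) hL
    _ = _ := by ring

/-- The stable component of the image of `v` under a map close to `A x`. -/
theorem Loc.s_up (H : Loc M E) {η : ℝ} (hη : 0 ≤ η) (x : M) (v w : E) (h : ‖w - H.A x v‖ ≤ η * ‖v‖) :
    H.n (H.f x) (H.P (H.f x) w) ≤ H.l2 * H.n x (H.P x v) +
      (2 * H.L ^ 3 * η) * max (H.n x (H.P x v)) (H.n x (v - H.P x v)) := by
  have h1 : H.P (H.f x) w = H.A x (H.P x v) + H.P (H.f x) (w - H.A x v) := by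
    rw [map_sub, H.P_A]
    abel
  have h2 := H.n_add (H.f x) (H.A x (H.P x v)) (H.P (H.f x) (w - H.A x v))
  rw [← h1] at h2
  have h3 := H.s_hi x _ (H.P_mem x v)
  have h4 := H.n_P_le (H.f x) (w - H.A x v)
  have h5 := H.n_err_le hη x (H.f x) v (w - H.A x v) h
  linarith

theorem Loc.s_dn (H : Loc M E) {η : ℝ} (hη : 0 ≤ η) (x : M) (v w : E) (h : ‖w - H.A x v‖ ≤ η * ‖v‖) :
    H.l1 * H.n x (H.P x v) -
      (2 * H.L ^ 3 * η) * max (H.n x (H.P x v)) (H.n x (v - H.P x v)) ≤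
      H.n (H.f x) (H.P (H.f x) w) := by
  have h1 : H.A x (H.P x v) = H.P (H.f x) w - H.P (H.f x) (w - H.A x v) := by
    rw [map_sub, H.P_A]
    abel
  have h2 := H.n_sub_le (H.f x) (H.P (H.f x) w) (H.P (H.f x) (w - H.A x v))
  rw [← h1] at h2
  have h3 := H.s_lo x _ (H.P_mem x v)
  have h4 := H.n_P_le (H.f x) (w - H.A x v)
  have h5 := H.n_err_le hη x (H.f x) v (w - H.A x v) h
  linarith

theorem Loc.u_dn (H : Loc M E) {η : ℝ} (hη : 0 ≤ η) (x : M) (v w : E) (h : ‖w - H.A x v‖ ≤ η * ‖v‖) :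
    H.m2 * H.n x (v - H.P x v) -
      (2 * H.L ^ 3 * η) * max (H.n x (H.P x v)) (H.n x (v - H.P x v)) ≤
      H.n (H.f x) (w - H.P (H.f x) w) := by
  have h1 : H.A x (v - H.P x v) =
      (w - H.P (H.f x) w) - ((w - H.A x v) - H.P (H.f x) (w - H.A x v)) := by
    rw [map_sub, map_sub, H.P_A]
    abel
  have h2 := H.n_sub_le (H.f x) (w - H.P (H.f x) w)
    ((w - H.A x v) - H.P (H.f x) (w - H.A x v))
  rw [← h1] at h2
  have h3 := H.u_lo x _ (H.Q_mem x v)
  have h4 := H.n_Q_le (H.f x) (w - H.A x v)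
  have h5 := H.n_err_le hη x (H.f x) v (w - H.A x v) h
  linarith

end Pool.Agent.ANO
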