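import Mathlib
import Pool.Agent.ANO.PRJ
import Pool.Agent.ANO.CSQ

open Set Metric Function

namespace Pool.Agent.ANO

variable {M : Type} [MetricSpace M] {E : Type} [NormedAddCommGroup E] [NormedSpace ℝ E]

/-- Two orbits of the (extended) local maps which stay at bounded distance. -/
theorem Loc.orbit_cone (H : Loc M E) {κ lo hi : ℝ} (hκ : 0 < κ) (hκ1 : κ ≤ 1) (hlo : lo < H.l1)
    (hhi : H.l2 < hi) (hhi1 : hi < 1) : ∃ η0 > 0, ∀ η : ℝ, 0 ≤ η → η ≤ η0 → ∀ G : M → E → E,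
      (∀ x v w, ‖G x v - G x w - H.A x (v - w)‖ ≤ η * ‖v - w‖) →
      ∀ (x : M) (v w : ℕ → E) (B : ℝ), (∀ k, v (k + 1) = G (H.f^[k] x) (v k)) →
      (∀ k, w (k + 1) = G (H.f^[k] x) (w k)) → (∀ k, ‖v k - w k‖ ≤ B) → ∀ k,
      H.n (H.f^[k] x) (v k - w k - H.P (H.f^[k] x) (v k - w k)) ≤
        κ * H.n (H.f^[k] x) (H.P (H.f^[k] x) (v k - w k)) ∧
      H.n (H.f^[k] x) (H.P (H.f^[k] x) (v k - w k)) ≤
        hi ^ k * H.n x (H.P x (v 0 - w 0)) ∧
      (0 ≤ lo → lo ^ k * H.n x (H.P x (v 0 - w 0)) ≤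
        H.n (H.f^[k] x) (H.P (H.f^[k] x) (v k - w k))) ∧
      ‖v k - w k‖ ≤ 2 * H.L * H.n (H.f^[k] x) (H.P (H.f^[k] x) (v k - w k)) := by
  have hL : 1 ≤ H.L := H.hL
  have hL0 : 0 < H.L := by linarith
  have hL3 : 0 < 2 * H.L ^ 3 := by positivity
  have hl1 := H.hl1
  have hl12 := H.hl12
  have hm2 := H.hm2
  have hl2 : 0 < H.l2 := lt_of_lt_of_le hl1 hl12
  -- the bound for the error
  have hpos : 0 < min (min (hi - H.l2) (H.l1 - lo)) ((H.m2 - 1) * κ / 2) := by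
    simp only [lt_min_iff]
    refine ⟨⟨by linarith, by linarith⟩, ?_⟩
    have : 0 < H.m2 - 1 := by linarith
    positivity
  refine ⟨min (min (hi - H.l2) (H.l1 - lo)) ((H.m2 - 1) * κ / 2) / (2 * H.L ^ 3), by positivity, ?_⟩
  intro η hη0 hη G hG x v w B hv hw hB
  have hη' : 2 * H.L ^ 3 * η ≤ min (min (hi - H.l2) (H.l1 - lo)) ((H.m2 - 1) * κ / 2) := by
    rw [le_div_iff₀ hL3] at hη
    linarith
  set η' := 2 * H.L ^ 3 * η with hηdef
  have hη'0 : 0 ≤ η' := by positivity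
  have b1 : η' ≤ hi - H.l2 := hη'.trans ((min_le_left _ _).trans (min_le_left _ _))
  have b2 : η' ≤ H.l1 - lo := hη'.trans ((min_le_left _ _).trans (min_le_right _ _))
  have b3 : η' ≤ (H.m2 - 1) * κ / 2 := hη'.trans (min_le_right _ _)
  have b4 : η' / κ ≤ (H.m2 - 1) / 2 := by
    rw [div_le_iff₀ hκ]
    linarith
  -- the sequences
  set d : ℕ → E := fun k => v k - w k with hd
  have hstep : ∀ k, ‖d (k + 1) - H.A (H.f^[k] x) (d k)‖ ≤ η * ‖d k‖ := by
    intro k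
    have := hG (H.f^[k] x) (v k) (w k)
    simp only [hd, hv k, hw k]
    exact this
  have key := cone_seq (l1 := H.l1) (l2 := H.l2) (m2 := H.m2) (η := η') (κ := κ)
    (B := H.L * (H.L * B)) hη'0 hκ hκ1 hl2.le (by linarith) (by linarith)
    (fun k => H.n (H.f^[k] x) (H.P (H.f^[k] x) (d k)))
    (fun k => H.n (H.f^[k] x) (d k - H.P (H.f^[k] x) (d k)))
    (fun k => H.n_nonneg _ _) (fun k => H.n_nonneg _ _)
    (fun k => by
      have := H.s_up hη0 (H.f^[k] x) (d k) (d (k + 1)) (hstep k)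
      simp only [Function.iterate_succ_apply']
      exact this)
    (fun k => by
      have := H.s_dn hη0 (H.f^[k] x) (d k) (d (k + 1)) (hstep k)
      simp only [Function.iterate_succ_apply']
      exact this)
    (fun k => by
      have := H.u_dn hη0 (H.f^[k] x) (d k) (d (k + 1)) (hstep k)
      simp only [Function.iterate_succ_apply']
      exact this)
    (fun k => by
      have h1 := H.n_Q_le (H.f^[k] x) (d k)
      have h2 := H.n_le (H.f^[k] x) (d k)
      have h3 := hB k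
      calc H.n (H.f^[k] x) (d k - H.P (H.f^[k] x) (d k)) ≤ H.L * H.n (H.f^[k] x) (d k) := h1
        _ ≤ H.L * (H.L * ‖d k‖) := mul_le_mul_of_nonneg_left h2 hL0.le
        _ ≤ H.L * (H.L * B) :=
          mul_le_mul_of_nonneg_left (mul_le_mul_of_nonneg_left h3 hL0.le) hL0.le)
  have hs0 : ∀ k, 0 ≤ H.n (H.f^[k] x) (H.P (H.f^[k] x) (d k)) := fun k => H.n_nonneg _ _
  have up : ∀ k, H.n (H.f^[k] x) (H.P (H.f^[k] x) (d k)) ≤ hi ^ k * H.n x (H.P x (d 0)) := by
    intro k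
    induction k with
    | zero => simp
    | succ k ih =>
      have h1 := (key k).2.1
      have h2 : (H.l2 + η') * H.n (H.f^[k] x) (H.P (H.f^[k] x) (d k)) ≤
          hi * H.n (H.f^[k] x) (H.P (H.f^[k] x) (d k)) :=
        mul_le_mul_of_nonneg_right (by linarith) (hs0 k)
      have h3 : hi * H.n (H.f^[k] x) (H.P (H.f^[k] x) (d k)) ≤
          hi * (hi ^ k * H.n x (H.P x (d 0))) :=
        mul_le_mul_of_nonneg_left ih (by linarith)
      calc _ ≤ _ := h1
        _ ≤ _ := h2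
        _ ≤ _ := h3
        _ = _ := by ring
  have dn : 0 ≤ lo → ∀ k, lo ^ k * H.n x (H.P x (d 0)) ≤
      H.n (H.f^[k] x) (H.P (H.f^[k] x) (d k)) := by
    intro h0 k
    induction k with
    | zero => simp
    | succ k ih =>
      have h1 := (key k).2.2
      have h2 : lo * H.n (H.f^[k] x) (H.P (H.f^[k] x) (d k)) ≤
          (H.l1 - η') * H.n (H.f^[k] x) (H.P (H.f^[k] x) (d k)) :=
        mul_le_mul_of_nonneg_right (by linarith) (hs0 k)
      have h3 : lo * (lo ^ k * H.n x (H.P x (d 0))) ≤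
          lo * H.n (H.f^[k] x) (H.P (H.f^[k] x) (d k)) :=
        mul_le_mul_of_nonneg_left ih h0
      calc lo ^ (k + 1) * H.n x (H.P x (d 0)) = lo * (lo ^ k * H.n x (H.P x (d 0))) := by ring
        _ ≤ _ := h3
        _ ≤ _ := h2
        _ ≤ _ := h1
  intro k
  refine ⟨(key k).1, up k, fun h0 => dn h0 k, ?_⟩
  have h1 := H.norm_le_max (H.f^[k] x) (d k)
  have h2 := (key k).1
  have h3 : H.n (H.f^[k] x) (d k - H.P (H.f^[k] x) (d k)) ≤
      H.n (H.f^[k] x) (H.P (H.f^[k] x) (d k)) := by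
    have := hs0 k
    have h4 : κ * H.n (H.f^[k] x) (H.P (H.f^[k] x) (d k)) ≤
        1 * H.n (H.f^[k] x) (H.P (H.f^[k] x) (d k)) := mul_le_mul_of_nonneg_right hκ1 this
    linarith
  rw [max_eq_left h3] at h1
  exact h1

end Pool.Agent.ANO
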