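import Mathlib
import Pool.Agent.ANO.Sys

open Set Metric Function

namespace Pool.Agent.ANO

variable {M : Type} [MetricSpace M] {f : M ≃ₜ M} {a b : ℝ}

theorem SRel.refl (x : M) : SRel f a b x x 0 := by
  refine ⟨fun k => ?_, fun k => ?_⟩ <;> simp

theorem SRel.symm {x y : M} {t : ℝ} (h : SRel f a b x y t) : SRel f a b y x t := by
  refine ⟨fun k => ?_, fun k => ?_⟩
  · rw [dist_comm]
    exact h.1 k
  · rw [dist_comm]
    exact h.2 k

theorem SRel.mono {x y : M} {t t' : ℝ} (ht : t ≤ t') (h : SRel f a b x y t) : SRel f a b x y t' :=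
  ⟨fun k => (h.1 k).trans ht, fun k => (h.2 k).trans ht⟩

theorem SRel.tri {x y z : M} {t t' : ℝ} (h : SRel f a b x y t) (h' : SRel f a b y z t') :
    SRel f a b x z (t + t') := by
  refine ⟨fun k => ?_, fun k => ?_⟩
  · have h1 := mul_le_mul_of_nonneg_left (dist_triangle (f^[k] x) (f^[k] y) (f^[k] z))
      (Real.exp_pos (a * k)).le
    have := h.1 k
    have := h'.1 k
    linarith
  · have h1 := mul_le_mul_of_nonneg_left
      (dist_triangle (f.symm^[k] x) (f.symm^[k] y) (f.symm^[k] z)) (Real.exp_pos (-(b * k))).le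
    have := h.2 k
    have := h'.2 k
    linarith

theorem SRel.dist_le {x y : M} {t : ℝ} (h : SRel f a b x y t) : dist x y ≤ t := by
  simpa using h.1 0

private theorem SRel_nonneg {x y : M} {t : ℝ} (h : SRel f a b x y t) : 0 ≤ t :=
  dist_nonneg.trans h.dist_le

private theorem srel_e1 (a : ℝ) (k : ℕ) (d : ℝ) :
    Real.exp (a * k) * d = Real.exp (-a) * (Real.exp (a * ((k + 1 : ℕ) : ℝ)) * d) := by
  rw [← mul_assoc, ← Real.exp_add]
  congr 2
  push_cast
  ring

private theorem srel_e2 (b : ℝ) (k : ℕ) (d : ℝ) :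
    Real.exp (-(b * ((k + 1 : ℕ) : ℝ))) * d = Real.exp (-b) * (Real.exp (-(b * k)) * d) := by
  rw [← mul_assoc, ← Real.exp_add]
  congr 2
  push_cast
  ring

private theorem srel_e3 (b : ℝ) (k : ℕ) (d : ℝ) :
    Real.exp (-(b * k)) * d = Real.exp b * (Real.exp (-(b * ((k + 1 : ℕ) : ℝ))) * d) := by
  rw [← mul_assoc, ← Real.exp_add]
  congr 2
  push_cast
  ring

private theorem srel_e4 (a : ℝ) (k : ℕ) (d : ℝ) :
    Real.exp (a * ((k + 1 : ℕ) : ℝ)) * d = Real.exp a * (Real.exp (a * k) * d) := by
  rw [← mul_assoc, ← Real.exp_add]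
  congr 2
  push_cast
  ring

theorem SRel.fwd (ha : 0 < a) (hab : a ≤ b) {x y : M} {t : ℝ} (h : SRel f a b x y t) :
    SRel f a b (f x) (f y) (Real.exp (-a) * t) := by
  have ht := SRel_nonneg h
  refine ⟨fun k => ?_, fun k => ?_⟩
  · rw [srel_e1]
    refine mul_le_mul_of_nonneg_left ?_ (Real.exp_pos _).le
    have := h.1 (k + 1)
    rwa [iterate_succ_apply, iterate_succ_apply] at this
  · cases k with
    | zero =>
      have h1 := h.1 1
      simp only [iterate_one, Nat.cast_one, mul_one] at h1
      simp only [Nat.cast_zero, mul_zero, neg_zero, Real.exp_zero, one_mul, iterate_zero, id]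
      have h2 : dist (f x) (f y) = Real.exp (-a) * (Real.exp a * dist (f x) (f y)) := by
        rw [← mul_assoc, ← Real.exp_add]
        simp
      rw [h2]
      exact mul_le_mul_of_nonneg_left h1 (Real.exp_pos _).le
    | succ k =>
      rw [iterate_succ_apply, iterate_succ_apply, f.symm_apply_apply, f.symm_apply_apply, srel_e2]
      have h1 := h.2 k
      refine (mul_le_mul_of_nonneg_left h1 (Real.exp_pos _).le).trans ?_
      exact mul_le_mul_of_nonneg_right (Real.exp_le_exp.2 (by linarith)) ht

theorem SRel.bwd (ha : 0 < a) (hab : a ≤ b) {x y : M} {t : ℝ} (h : SRel f a b x y t) :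
    SRel f a b (f.symm x) (f.symm y) (Real.exp b * t) := by
  have ht := SRel_nonneg h
  refine ⟨fun k => ?_, fun k => ?_⟩
  · cases k with
    | zero =>
      have h1 := h.2 1
      simp only [iterate_one, Nat.cast_one, mul_one] at h1
      simp only [Nat.cast_zero, mul_zero, Real.exp_zero, one_mul, iterate_zero, id]
      have h2 : dist (f.symm x) (f.symm y) =
          Real.exp b * (Real.exp (-b) * dist (f.symm x) (f.symm y)) := by
        rw [← mul_assoc, ← Real.exp_add]
        simp
      rw [h2]
      exact mul_le_mul_of_nonneg_left h1 (Real.exp_pos _).le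
    | succ k =>
      rw [iterate_succ_apply, iterate_succ_apply, f.apply_symm_apply, f.apply_symm_apply, srel_e4]
      have h1 := h.1 k
      refine (mul_le_mul_of_nonneg_left h1 (Real.exp_pos _).le).trans ?_
      exact mul_le_mul_of_nonneg_right (Real.exp_le_exp.2 (by linarith)) ht
  · rw [srel_e3]
    refine mul_le_mul_of_nonneg_left ?_ (Real.exp_pos _).le
    have := h.2 (k + 1)
    rwa [iterate_succ_apply, iterate_succ_apply] at this

theorem SRel.fwd_iter (ha : 0 < a) (hab : a ≤ b) (k : ℕ) {x y : M} {t : ℝ} (h : SRel f a b x y t) :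
    SRel f a b (f^[k] x) (f^[k] y) (Real.exp (-(a * k)) * t) := by
  induction k with
  | zero => simpa using h
  | succ k ih =>
    rw [iterate_succ_apply', iterate_succ_apply', srel_e2]
    exact ih.fwd ha hab

theorem SRel.bwd_iter (ha : 0 < a) (hab : a ≤ b) (k : ℕ) {x y : M} {t : ℝ} (h : SRel f a b x y t) :
    SRel f a b (f.symm^[k] x) (f.symm^[k] y) (Real.exp (b * k) * t) := by
  induction k with
  | zero => simpa using h
  | succ k ih =>
    rw [iterate_succ_apply', iterate_succ_apply', srel_e4]
    exact ih.bwd ha hab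

theorem SRel.closed (t : ℝ) : IsClosed {p : M × M | SRel f a b p.1 p.2 t} := by
  have e : {p : M × M | SRel f a b p.1 p.2 t} =
      (⋂ k : ℕ, {p : M × M | Real.exp (a * k) * dist (f^[k] p.1) (f^[k] p.2) ≤ t}) ∩
      (⋂ k : ℕ, {p : M × M | Real.exp (-(b * k)) * dist (f.symm^[k] p.1) (f.symm^[k] p.2) ≤ t}) := by
    ext p
    simp only [mem_inter_iff, mem_iInter, mem_setOf_eq, SRel]
  rw [e]
  refine IsClosed.inter (isClosed_iInter fun k => ?_) (isClosed_iInter fun k => ?_)
  · refine isClosed_le ?_ continuous_const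
    have h1 : Continuous (f^[k]) := f.continuous.iterate k
    exact continuous_const.mul ((h1.comp continuous_fst).dist (h1.comp continuous_snd))
  · refine isClosed_le ?_ continuous_const
    have h1 : Continuous (f.symm^[k]) := f.symm.continuous.iterate k
    exact continuous_const.mul ((h1.comp continuous_fst).dist (h1.comp continuous_snd))

end Pool.Agent.ANO
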