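import Mathlib
import Pool.Agent.ANO.ORB
import Pool.Agent.ANO.GLO
import Pool.Agent.ANO.SRL

open Set Metric Function

namespace Pool.Agent.ANO

variable {M : Type} [MetricSpace M] {E : Type} [NormedAddCommGroup E] [NormedSpace ℝ E]

theorem Loc.cmp_c_le (H : Loc M E) {x y : M} (h : dist x y ≤ H.r) : ‖H.c x y‖ ≤ H.L * dist x y := by
  have h1 := H.c_le x y x h (by rw [dist_self]; exact H.hr.le)
  rw [H.c_self, sub_zero, dist_comm y x] at h1
  exact h1

theorem Loc.cmp_le_c (H : Loc M E) {x y : M} (h : dist x y ≤ H.r) : dist x y ≤ H.L * ‖H.c x y‖ := by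
  have h1 := H.le_c x y x h (by rw [dist_self]; exact H.hr.le)
  rw [H.c_self, sub_zero, dist_comm y x] at h1
  exact h1

/-- Two sided bounds along orbits that stay close. -/
theorem Loc.cmp_fwd [CompactSpace M] [FiniteDimensional ℝ E] (H : Loc M E) {a b : ℝ} (ha : 0 < a)
    (ha' : H.l2 < Real.exp (-a)) (hb' : Real.exp (-b) < H.l1) :
    ∃ ρ > 0, ∀ x y, (∀ k : ℕ, dist (H.f^[k] x) (H.f^[k] y) ≤ ρ) → ∀ k : ℕ,
      Real.exp (a * k) * dist (H.f^[k] x) (H.f^[k] y) ≤ 2 * H.L ^ 5 * dist x y ∧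
      Real.exp (-(b * k)) * dist x y ≤ 2 * H.L ^ 5 * dist (H.f^[k] x) (H.f^[k] y) := by
  have hL1 := H.hL
  have hL0 : 0 < H.L := by linarith
  have hhi1 : Real.exp (-a) < 1 := by rw [Real.exp_lt_one_iff]; linarith
  obtain ⟨η, hη, hcone⟩ := H.orbit_cone (κ := 1) one_pos le_rfl hb' ha' hhi1
  obtain ⟨ρ, hρ, hρr, G, hG0, hG1, hG2⟩ := H.exists_global η hη
  refine ⟨ρ, hρ, fun x y hxy k => ?_⟩
  have hv : ∀ k : ℕ, H.c (H.f^[k + 1] x) (H.f^[k + 1] y) = G (H.f^[k] x) (H.c (H.f^[k] x) (H.f^[k] y)) := by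
    intro k
    rw [iterate_succ_apply', iterate_succ_apply']
    exact (hG2 _ _ (hxy k)).2
  have hw : ∀ k : ℕ, (0 : E) = G (H.f^[k] x) 0 := fun k => (hG0 _).symm
  have hb : ∀ k : ℕ, ‖H.c (H.f^[k] x) (H.f^[k] y) - 0‖ ≤ H.L * ρ := by
    intro k
    rw [sub_zero]
    exact (H.cmp_c_le ((hxy k).trans hρr)).trans (mul_le_mul_of_nonneg_left (hxy k) hL0.le)
  have hc := hcone η hη.le le_rfl G hG1 x (fun k => H.c (H.f^[k] x) (H.f^[k] y)) (fun _ => 0) (H.L * ρ)
    hv hw hb k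
  simp only [sub_zero] at hc
  obtain ⟨-, h2, h3, h4⟩ := hc
  simp only [iterate_zero, id_eq] at h2 h3
  have h3' := h3 (Real.exp_pos _).le
  have e1 : Real.exp (-a) ^ k = Real.exp (-(a * k)) := by
    rw [← Real.exp_nat_mul]; congr 1; ring
  have e2 : Real.exp (-b) ^ k = Real.exp (-(b * k)) := by
    rw [← Real.exp_nat_mul]; congr 1; ring
  rw [e1] at h2
  rw [e2] at h3'
  have hx0 : dist x y ≤ H.r := by
    have := (hxy 0).trans hρr
    simpa using this
  have hxk : dist (H.f^[k] x) (H.f^[k] y) ≤ H.r := (hxy k).trans hρr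
  -- upper bound of the stable component by the distance
  have up : ∀ X Y : M, dist X Y ≤ H.r → H.n X (H.P X (H.c X Y)) ≤ H.L ^ 3 * dist X Y := by
    intro X Y hXY
    calc H.n X (H.P X (H.c X Y)) ≤ H.L * H.n X (H.c X Y) := H.n_P_le X _
      _ ≤ H.L * (H.L * ‖H.c X Y‖) := mul_le_mul_of_nonneg_left (H.n_le X _) hL0.le
      _ ≤ H.L * (H.L * (H.L * dist X Y)) :=
          mul_le_mul_of_nonneg_left (mul_le_mul_of_nonneg_left (H.cmp_c_le hXY) hL0.le) hL0.le
      _ = H.L ^ 3 * dist X Y := by ring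
  have hc0 := hcone η hη.le le_rfl G hG1 x (fun k => H.c (H.f^[k] x) (H.f^[k] y)) (fun _ => 0)
    (H.L * ρ) hv hw hb 0
  simp only [sub_zero, iterate_zero, id_eq] at hc0
  obtain ⟨-, -, -, h40⟩ := hc0
  constructor
  · have d1 : dist (H.f^[k] x) (H.f^[k] y) ≤
        H.L * (2 * H.L * (Real.exp (-(a * k)) * (H.L ^ 3 * dist x y))) := by
      calc dist (H.f^[k] x) (H.f^[k] y) ≤ H.L * ‖H.c (H.f^[k] x) (H.f^[k] y)‖ := H.cmp_le_c hxk
        _ ≤ H.L * (2 * H.L * H.n (H.f^[k] x) (H.P (H.f^[k] x) (H.c (H.f^[k] x) (H.f^[k] y)))) :=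
            mul_le_mul_of_nonneg_left h4 hL0.le
        _ ≤ H.L * (2 * H.L * (Real.exp (-(a * k)) * H.n x (H.P x (H.c x y)))) := by
            apply mul_le_mul_of_nonneg_left _ hL0.le
            exact mul_le_mul_of_nonneg_left h2 (by positivity)
        _ ≤ H.L * (2 * H.L * (Real.exp (-(a * k)) * (H.L ^ 3 * dist x y))) := by
            apply mul_le_mul_of_nonneg_left _ hL0.le
            apply mul_le_mul_of_nonneg_left _ (by positivity)
            exact mul_le_mul_of_nonneg_left (up x y hx0) (Real.exp_pos _).le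
    calc Real.exp (a * k) * dist (H.f^[k] x) (H.f^[k] y)
        ≤ Real.exp (a * k) * (H.L * (2 * H.L * (Real.exp (-(a * k)) * (H.L ^ 3 * dist x y)))) :=
          mul_le_mul_of_nonneg_left d1 (Real.exp_pos _).le
      _ = (Real.exp (a * k) * Real.exp (-(a * k))) * (2 * H.L ^ 5 * dist x y) := by ring
      _ = 2 * H.L ^ 5 * dist x y := by
          rw [← Real.exp_add, add_neg_cancel, Real.exp_zero, one_mul]
  · have d1 : dist x y ≤ H.L * (2 * H.L * H.n x (H.P x (H.c x y))) :=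
      (H.cmp_le_c hx0).trans (mul_le_mul_of_nonneg_left h40 hL0.le)
    calc Real.exp (-(b * k)) * dist x y
        ≤ Real.exp (-(b * k)) * (H.L * (2 * H.L * H.n x (H.P x (H.c x y)))) :=
          mul_le_mul_of_nonneg_left d1 (Real.exp_pos _).le
      _ = 2 * H.L ^ 2 * (Real.exp (-(b * k)) * H.n x (H.P x (H.c x y))) := by ring
      _ ≤ 2 * H.L ^ 2 * (H.n (H.f^[k] x) (H.P (H.f^[k] x) (H.c (H.f^[k] x) (H.f^[k] y)))) :=
          mul_le_mul_of_nonneg_left h3' (by positivity)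
      _ ≤ 2 * H.L ^ 2 * (H.L ^ 3 * dist (H.f^[k] x) (H.f^[k] y)) :=
          mul_le_mul_of_nonneg_left (up _ _ hxk) (by positivity)
      _ = 2 * H.L ^ 5 * dist (H.f^[k] x) (H.f^[k] y) := by ring

theorem cmp_iter (f : M ≃ₜ M) (m j : ℕ) (x : M) : f^[m + j] (f.symm^[m] x) = f^[j] x := by
  rw [add_comm, iterate_add_apply]
  congr 1
  exact (LeftInverse.iterate f.symm.symm_apply_apply m) x

theorem cmp_iter' (f : M ≃ₜ M) (m j : ℕ) (hj : j ≤ m) (x : M) :
    f^[j] (f.symm^[m] x) = f.symm^[m - j] x := by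
  obtain ⟨i, rfl⟩ := Nat.exists_eq_add_of_le hj
  rw [Nat.add_sub_cancel_left, iterate_add_apply]
  exact (LeftInverse.iterate f.symm.symm_apply_apply j) _

/-- Comparison of the stable relation with the distance for orbits that stay close in the future. -/
theorem Loc.cmp [CompactSpace M] [FiniteDimensional ℝ E] (H : Loc M E) {a b : ℝ} (ha : 0 < a)
    (hab : a ≤ b) (ha' : H.l2 < Real.exp (-a)) (hb' : Real.exp (-b) < H.l1) :
    ∃ ρ > 0, ∃ C ≥ 1, ∀ x y, (∀ k : ℕ, dist (H.f^[k] x) (H.f^[k] y) ≤ ρ) →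
      SRel H.f a b x y (C * dist x y) := by
  have hL1 := H.hL
  have hL0 : 0 < H.L := by linarith
  have hb : 0 < b := lt_of_lt_of_le ha hab
  obtain ⟨ρ₀, hρ₀, hfwd⟩ := H.cmp_fwd (b := b) ha ha' hb'
  have huc : UniformContinuous H.f.symm :=
    CompactSpace.uniformContinuous_of_continuous H.f.symm.continuous
  obtain ⟨δ, hδ, hδ'⟩ := Metric.uniformContinuous_iff.mp huc ρ₀ hρ₀
  set ρ : ℝ := min ρ₀ (δ / 2) with hρd
  have hρ : 0 < ρ := lt_min hρ₀ (by positivity)
  have hρ0 : ρ ≤ ρ₀ := min_le_left _ _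
  have hρδ : ρ < δ := lt_of_le_of_lt (min_le_right _ _) (by linarith)
  obtain ⟨D, hD⟩ : ∃ D : ℝ, ∀ x y : M, dist x y ≤ D := by
    obtain ⟨D, hD⟩ := (Metric.isBounded_iff).mp (isCompact_univ (X := M)).isBounded
    exact ⟨D, fun x y => hD (mem_univ x) (mem_univ y)⟩
  set K : ℝ := 2 * H.L ^ 5 with hK
  have hK1 : 1 ≤ K := by
    have : 1 ≤ H.L ^ 5 := one_le_pow₀ hL1
    rw [hK]; linarith
  have hK0 : 0 < K := by linarith
  set C : ℝ := K * (1 + |D| / ρ) with hC
  have hDρ : 0 ≤ |D| / ρ := div_nonneg (abs_nonneg D) hρ.le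
  have hKC : K ≤ C := by rw [hC]; nlinarith
  refine ⟨ρ, hρ, C, hK1.trans hKC, fun x y hxy => ?_⟩
  have hfw := hfwd x y (fun k => (hxy k).trans hρ0)
  refine ⟨fun k => ?_, ?_⟩
  · exact ((hfw k).1).trans (mul_le_mul_of_nonneg_right hKC dist_nonneg)
  -- the backward orbits
  have back : ∀ m : ℕ, (∀ j ≤ m, dist (H.f.symm^[j] x) (H.f.symm^[j] y) ≤ ρ₀) →
      Real.exp (-(b * m)) * dist (H.f.symm^[m] x) (H.f.symm^[m] y) ≤ K * dist x y := by
    intro m hm
    have h := hfwd (H.f.symm^[m] x) (H.f.symm^[m] y) (fun k => by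
      by_cases hk : k ≤ m
      · rw [cmp_iter' _ _ _ hk, cmp_iter' _ _ _ hk]
        exact hm _ (Nat.sub_le _ _)
      · obtain ⟨j, rfl⟩ := Nat.exists_eq_add_of_le (not_le.mp hk).le
        rw [cmp_iter, cmp_iter]
        exact (hxy j).trans hρ0) m
    have h2 := h.2
    rw [cmp_iter' _ _ _ le_rfl, cmp_iter' _ _ _ le_rfl, Nat.sub_self, iterate_zero, id_eq,
      id_eq] at h2
    exact h2
  by_cases hall : ∀ j : ℕ, dist (H.f.symm^[j] x) (H.f.symm^[j] y) ≤ ρ
  · intro k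
    exact (back k (fun j _ => (hall j).trans hρ0)).trans
      (mul_le_mul_of_nonneg_right hKC dist_nonneg)
  · push Not at hall
    classical
    set m := Nat.find hall with hm
    have hm1 : ρ < dist (H.f.symm^[m] x) (H.f.symm^[m] y) := Nat.find_spec hall
    have hm2 : ∀ j < m, dist (H.f.symm^[j] x) (H.f.symm^[j] y) ≤ ρ := fun j hj =>
      not_lt.mp (Nat.find_min hall hj)
    have hm0 : m ≠ 0 := by
      intro h0
      rw [h0] at hm1
      have := hxy 0
      simp only [iterate_zero, id_eq] at this hm1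
      linarith
    obtain ⟨m', hm'⟩ := Nat.exists_eq_succ_of_ne_zero hm0
    have hm3 : dist (H.f.symm^[m] x) (H.f.symm^[m] y) ≤ ρ₀ := by
      rw [hm', iterate_succ_apply', iterate_succ_apply']
      exact (hδ' (lt_of_le_of_lt (hm2 m' (by omega)) hρδ)).le
    have hm4 : ∀ j ≤ m, dist (H.f.symm^[j] x) (H.f.symm^[j] y) ≤ ρ₀ := by
      intro j hj
      rcases Nat.lt_or_ge j m with h | h
      · exact (hm2 j h).trans hρ0
      · rw [le_antisymm hj h]; exact hm3
    have hb1 := back m hm4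
    intro k
    rcases le_or_gt k m with hk | hk
    · exact (back k (fun j hj => hm4 j (hj.trans hk))).trans
        (mul_le_mul_of_nonneg_right hKC dist_nonneg)
    · -- all later distances are at most `|D|`
      have h1 : Real.exp (-(b * m)) * ρ ≤ K * dist x y :=
        (mul_le_mul_of_nonneg_left hm1.le (Real.exp_pos _).le).trans hb1
      have h2 : Real.exp (-(b * k)) ≤ Real.exp (-(b * m)) := by
        apply Real.exp_le_exp.mpr
        have : (m : ℝ) ≤ k := by exact_mod_cast hk.le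
        nlinarith
      have h3 : dist (H.f.symm^[k] x) (H.f.symm^[k] y) ≤ |D| := (hD _ _).trans (le_abs_self D)
      calc Real.exp (-(b * k)) * dist (H.f.symm^[k] x) (H.f.symm^[k] y)
          ≤ Real.exp (-(b * m)) * |D| := mul_le_mul h2 h3 dist_nonneg (Real.exp_pos _).le
        _ = (Real.exp (-(b * m)) * ρ) * (|D| / ρ) := by field_simp
        _ ≤ (K * dist x y) * (|D| / ρ) := mul_le_mul_of_nonneg_right h1 hDρ
        _ = K * (|D| / ρ) * dist x y := by ring
        _ ≤ C * dist x y := by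
            apply mul_le_mul_of_nonneg_right _ dist_nonneg
            rw [hC]; nlinarith

/-- The local stable sets are Lipschitz graphs with a small constant. -/
theorem Loc.graph [CompactSpace M] [FiniteDimensional ℝ E] (H : Loc M E) {a b : ℝ} (ha : 0 < a)
    (κ : ℝ) (hκ : 0 < κ) : ∃ R > 0, R ≤ H.r ∧ ∀ x y y', SRel H.f a b x y R → SRel H.f a b x y' R →
      ‖(H.c x y - H.c x y') - H.P x (H.c x y - H.c x y')‖ ≤
        κ * ‖H.P x (H.c x y - H.c x y')‖ := by
  have hL1 := H.hL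
  have hL0 : 0 < H.L := by linarith
  set κ' : ℝ := min (κ / H.L ^ 2) 1 with hκ'
  have hκ'0 : 0 < κ' := lt_min (by positivity) one_pos
  have hκ'1 : κ' ≤ 1 := min_le_right _ _
  have hκ'2 : κ' * H.L ^ 2 ≤ κ := by
    have : κ' ≤ κ / H.L ^ 2 := min_le_left _ _
    rwa [le_div_iff₀ (by positivity)] at this
  have h2 : H.l2 < (H.l2 + 1) / 2 := by have := H.hl2; linarith
  have h3 : (H.l2 + 1) / 2 < 1 := by have := H.hl2; linarith
  obtain ⟨η, hη, hcone⟩ := H.orbit_cone (κ := κ') hκ'0 hκ'1 H.hl1 h2 h3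
  obtain ⟨ρ, hρ, hρr, G, hG0, hG1, hG2⟩ := H.exists_global η hη
  refine ⟨ρ, hρ, hρr, fun x y y' hy hy' => ?_⟩
  have close : ∀ z, SRel H.f a b x z ρ → ∀ k : ℕ, dist (H.f^[k] x) (H.f^[k] z) ≤ ρ := by
    intro z hz k
    have h1 := hz.1 k
    have h2 : 1 ≤ Real.exp (a * k) := Real.one_le_exp (by positivity)
    have h3 : 0 ≤ dist (H.f^[k] x) (H.f^[k] z) := dist_nonneg
    nlinarith
  have hv : ∀ z, SRel H.f a b x z ρ → ∀ k : ℕ,
      H.c (H.f^[k + 1] x) (H.f^[k + 1] z) = G (H.f^[k] x) (H.c (H.f^[k] x) (H.f^[k] z)) := by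
    intro z hz k
    rw [iterate_succ_apply', iterate_succ_apply']
    exact (hG2 _ _ (close z hz k)).2
  have hb : ∀ k : ℕ, ‖H.c (H.f^[k] x) (H.f^[k] y) - H.c (H.f^[k] x) (H.f^[k] y')‖ ≤
      H.L * (2 * ρ) := by
    intro k
    have d1 := close y hy k
    have d2 := close y' hy' k
    refine (H.c_le _ _ _ (d1.trans hρr) (d2.trans hρr)).trans ?_
    apply mul_le_mul_of_nonneg_left _ hL0.le
    have := dist_triangle_left (H.f^[k] y) (H.f^[k] y') (H.f^[k] x)
    linarith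
  have hc := hcone η hη.le le_rfl G hG1 x (fun k => H.c (H.f^[k] x) (H.f^[k] y))
    (fun k => H.c (H.f^[k] x) (H.f^[k] y')) (H.L * (2 * ρ)) (hv y hy) (hv y' hy') hb 0
  simp only [iterate_zero, id_eq] at hc
  have h4 := hc.1
  calc ‖(H.c x y - H.c x y') - H.P x (H.c x y - H.c x y')‖
      ≤ H.L * H.n x ((H.c x y - H.c x y') - H.P x (H.c x y - H.c x y')) := H.le_n x _
    _ ≤ H.L * (κ' * H.n x (H.P x (H.c x y - H.c x y'))) := mul_le_mul_of_nonneg_left h4 hL0.le
    _ ≤ H.L * (κ' * (H.L * ‖H.P x (H.c x y - H.c x y')‖)) := by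
        apply mul_le_mul_of_nonneg_left _ hL0.le
        exact mul_le_mul_of_nonneg_left (H.n_le x _) hκ'0.le
    _ = (κ' * H.L ^ 2) * ‖H.P x (H.c x y - H.c x y')‖ := by ring
    _ ≤ κ * ‖H.P x (H.c x y - H.c x y')‖ := mul_le_mul_of_nonneg_right hκ'2 (norm_nonneg _)

end Pool.Agent.ANO
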