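import Mathlib
import Pool.Agent.ANO.PRJ

open Set Metric Function Filter Topology

namespace Pool.Agent.ANO

variable {M : Type} [MetricSpace M] {E : Type} [NormedAddCommGroup E] [NormedSpace ℝ E]

private theorem per_symm_mem_u (H : Loc M E) (x : M) (v : E) (hv : v ∈ H.Eu (H.f x)) :
    (H.A x).symm v ∈ H.Eu x := by
  have hA : H.A x ((H.A x).symm v) = v := by simp
  have h1 : H.P (H.f x) (H.A x ((H.A x).symm v)) = H.A x (H.P x ((H.A x).symm v)) :=
    H.P_A x ((H.A x).symm v)
  rw [hA, H.P_of_mem_u _ _ hv] at h1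
  have h2 : H.P x ((H.A x).symm v) = 0 := by
    have h3 := h1.symm
    simpa using h3
  have h4 := H.Q_mem x ((H.A x).symm v)
  rwa [h2, sub_zero] at h4

private theorem per_n_symm_le (H : Loc M E) (x : M) (v : E) (hv : v ∈ H.Eu (H.f x)) :
    H.m2 * H.n x ((H.A x).symm v) ≤ H.n (H.f x) v := by
  have h := H.u_lo x _ (per_symm_mem_u H x v hv)
  simpa using h

/-- The size of a vector: the maximum of the norms of its components. -/
private noncomputable def perN (H : Loc M E) (x : M) (w : E) : ℝ :=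
  max (H.n x (H.P x w)) (H.n x (w - H.P x w))

private noncomputable def perZ (H : Loc M E) (G : M → E → E) (X : ℕ → M) (W : ℕ → E) (k : ℕ) : E :=
  W (k + 1) - (G (X k) (W k) - H.A (X k) (W k))

private noncomputable def perS (H : Loc M E) (G : M → E → E) (X : ℕ → M) (v : E) (W : ℕ → E) :
    ℕ → E
  | 0 => v
  | k + 1 => H.P (X (k + 1)) (G (X k) (W k))

private noncomputable def perU (H : Loc M E) (G : M → E → E) (X : ℕ → M) (W : ℕ → E) (k : ℕ) : E :=
  (H.A (X k)).symm (perZ H G X W k - H.P (X (k + 1)) (perZ H G X W k))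

private noncomputable def perT (H : Loc M E) (G : M → E → E) (X : ℕ → M) (v : E) (W : ℕ → E)
    (k : ℕ) : E := perS H G X v W k + perU H G X W k

section
variable (H : Loc M E) (G : M → E → E) (X : ℕ → M) (hX : ∀ k, X (k + 1) = H.f (X k)) (v : E)
  (hv : v ∈ H.Es (X 0))

include hv in
private theorem perS_mem (W : ℕ → E) (k : ℕ) : perS H G X v W k ∈ H.Es (X k) := by
  cases k with
  | zero => exact hv
  | succ k => exact H.P_mem _ _

include hX in
private theorem perU_mem (W : ℕ → E) (k : ℕ) : perU H G X W k ∈ H.Eu (X k) := by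
  unfold perU
  apply per_symm_mem_u
  rw [← hX k]
  exact H.Q_mem _ _

include hX hv in
private theorem perT_P (W : ℕ → E) (k : ℕ) : H.P (X k) (perT H G X v W k) = perS H G X v W k := by
  unfold perT
  rw [map_add, H.P_of_mem_s _ _ (perS_mem H G X v hv W k),
    H.P_of_mem_u _ _ (perU_mem H G X hX W k), add_zero]

include hX hv in
private theorem perT_Q (W : ℕ → E) (k : ℕ) :
    perT H G X v W k - H.P (X k) (perT H G X v W k) = perU H G X W k := by
  rw [perT_P H G X hX v hv]
  unfold perT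
  abel

include hX hv in
private theorem per_contr {η q δ : ℝ} (hη : 0 ≤ η) (hδ : 0 ≤ δ)
    (hq1 : H.l2 + 2 * H.L ^ 3 * η ≤ q) (hq2 : 1 + 2 * H.L ^ 3 * η ≤ q * H.m2)
    (hG : ∀ x v w, ‖G x v - G x w - H.A x (v - w)‖ ≤ η * ‖v - w‖) (W W' : ℕ → E)
    (hW : ∀ k, perN H (X k) (W k - W' k) ≤ δ) (k : ℕ) :
    perN H (X k) (perT H G X v W k - perT H G X v W' k) ≤ q * δ := by
  have hL : 0 ≤ H.L := le_trans zero_le_one H.hL
  have hm2 : 0 < H.m2 := lt_trans one_pos H.hm2
  have hl2 : 0 ≤ H.l2 := H.hl1.le.trans H.hl12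
  have hc : 0 ≤ 2 * H.L ^ 3 * η := by positivity
  have hq : 0 ≤ q := by linarith
  unfold perN
  apply max_le
  · rw [map_sub, perT_P H G X hX v hv, perT_P H G X hX v hv]
    cases k with
    | zero =>
      simp only [perS, sub_self]
      rw [H.n_zero]
      positivity
    | succ k =>
      simp only [perS]
      rw [← map_sub, hX k]
      have h1 := H.s_up hη (X k) (W k - W' k) (G (X k) (W k) - G (X k) (W' k)) (hG _ _ _)
      have h2 := hW k
      unfold perN at h2
      have h3 := le_max_left (H.n (X k) (H.P (X k) (W k - W' k)))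
        (H.n (X k) (W k - W' k - H.P (X k) (W k - W' k)))
      calc _ ≤ _ := h1
        _ ≤ H.l2 * δ + (2 * H.L ^ 3 * η) * δ := by
            apply add_le_add
            · exact mul_le_mul_of_nonneg_left (h3.trans h2) hl2
            · exact mul_le_mul_of_nonneg_left h2 hc
        _ = (H.l2 + 2 * H.L ^ 3 * η) * δ := by ring
        _ ≤ q * δ := mul_le_mul_of_nonneg_right hq1 hδ
  · have e1 : perT H G X v W k - perT H G X v W' k -
        H.P (X k) (perT H G X v W k - perT H G X v W' k) = perU H G X W k - perU H G X W' k := by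
      rw [map_sub, ← perT_Q H G X hX v hv W k, ← perT_Q H G X hX v hv W' k]
      abel
    rw [e1]
    set err : E := G (X k) (W k) - G (X k) (W' k) - H.A (X k) (W k - W' k) with herr
    have e2 : perU H G X W k - perU H G X W' k = (H.A (X k)).symm
        (((W (k + 1) - W' (k + 1)) - H.P (X (k + 1)) (W (k + 1) - W' (k + 1))) -
          (err - H.P (X (k + 1)) err)) := by
      unfold perU
      rw [← map_sub]
      congr 1
      have e3 : perZ H G X W k - perZ H G X W' k = (W (k + 1) - W' (k + 1)) - err := by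
        unfold perZ
        rw [herr, map_sub]
        abel
      have e4 : H.P (X (k + 1)) (perZ H G X W k) - H.P (X (k + 1)) (perZ H G X W' k) =
          H.P (X (k + 1)) (W (k + 1) - W' (k + 1)) - H.P (X (k + 1)) err := by
        rw [← map_sub, e3, map_sub]
      have e5 : perZ H G X W k - H.P (X (k + 1)) (perZ H G X W k) -
          (perZ H G X W' k - H.P (X (k + 1)) (perZ H G X W' k)) =
          (perZ H G X W k - perZ H G X W' k) -
          (H.P (X (k + 1)) (perZ H G X W k) - H.P (X (k + 1)) (perZ H G X W' k)) := by abel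
      rw [e5, e3, e4]
      abel
    rw [e2]
    have hmem : ((W (k + 1) - W' (k + 1)) - H.P (X (k + 1)) (W (k + 1) - W' (k + 1))) -
          (err - H.P (X (k + 1)) err) ∈ H.Eu (H.f (X k)) := by
      rw [← hX k]
      exact Submodule.sub_mem _ (H.Q_mem _ _) (H.Q_mem _ _)
    have h1 := per_n_symm_le H (X k) _ hmem
    have h2 := H.n_sub_le (H.f (X k))
      ((W (k + 1) - W' (k + 1)) - H.P (X (k + 1)) (W (k + 1) - W' (k + 1)))
      (err - H.P (X (k + 1)) err)
    have h3 : H.n (H.f (X k))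
        ((W (k + 1) - W' (k + 1)) - H.P (X (k + 1)) (W (k + 1) - W' (k + 1))) ≤ δ := by
      have h4 := hW (k + 1)
      unfold perN at h4
      rw [← hX k]
      exact (le_max_right _ _).trans h4
    have h5 : H.n (H.f (X k)) (err - H.P (X (k + 1)) err) ≤ (2 * H.L ^ 3 * η) * δ := by
      rw [← hX k]
      have h6 := H.n_Q_le (X (k + 1)) err
      have h7 := H.n_err_le hη (X k) (X (k + 1)) (W k - W' k) err (hG _ _ _)
      have h8 := hW k
      unfold perN at h8
      exact h6.trans (h7.trans (mul_le_mul_of_nonneg_left h8 hc))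
    have h9 : H.m2 * H.n (X k) ((H.A (X k)).symm
        (((W (k + 1) - W' (k + 1)) - H.P (X (k + 1)) (W (k + 1) - W' (k + 1))) -
          (err - H.P (X (k + 1)) err))) ≤ H.m2 * (q * δ) := by
      calc _ ≤ _ := h1
        _ ≤ _ := h2
        _ ≤ δ + (2 * H.L ^ 3 * η) * δ := add_le_add h3 h5
        _ = (1 + 2 * H.L ^ 3 * η) * δ := by ring
        _ ≤ (q * H.m2) * δ := mul_le_mul_of_nonneg_right hq2 hδ
        _ = H.m2 * (q * δ) := by ring
    exact le_of_mul_le_mul_left h9 hm2

end

private theorem per_aux [CompleteSpace E] (H : Loc M E) {η q : ℝ} (hη : 0 ≤ η) (hq0 : q < 1)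
    (hq1 : H.l2 + 2 * H.L ^ 3 * η ≤ q) (hq2 : 1 + 2 * H.L ^ 3 * η ≤ q * H.m2)
    (G : M → E → E) (hG0 : ∀ x, G x 0 = 0)
    (hG : ∀ x v w, ‖G x v - G x w - H.A x (v - w)‖ ≤ η * ‖v - w‖)
    (X : ℕ → M) (hX : ∀ k, X (k + 1) = H.f (X k)) (v : E) (hv : v ∈ H.Es (X 0)) :
    ∃ w : ℕ → E, (∀ k, w (k + 1) = G (X k) (w k)) ∧ H.P (X 0) (w 0) = v ∧
      ∀ k, ‖w k‖ ≤ 2 * H.L ^ 2 / (1 - q) * ‖v‖ := by
  have hL : 0 ≤ H.L := le_trans zero_le_one H.hL
  have hl2 : 0 ≤ H.l2 := H.hl1.le.trans H.hl12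
  have hc : 0 ≤ 2 * H.L ^ 3 * η := by positivity
  have hq : 0 ≤ q := by linarith
  set T := perT H G X v with hT
  set W : ℕ → ℕ → E := fun j => T^[j] (fun _ => 0) with hWdef
  have hW0 : W 0 = fun _ => 0 := rfl
  have hWs : ∀ j, W (j + 1) = T (W j) := fun j => by
    simp only [hWdef]
    rw [Function.iterate_succ_apply']
  have hcont : ∀ j k, perN H (X k) (W (j + 1) k - W j k) ≤ q ^ j * (H.L * ‖v‖) := by
    intro j
    induction j with
    | zero =>
      intro k
      rw [hWs 0, hW0]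
      have hz : ∀ k, perZ H G X (fun _ => (0 : E)) k = 0 := by
        intro k
        simp [perZ, hG0]
      have hu : ∀ k, perU H G X (fun _ => (0 : E)) k = 0 := by
        intro k
        simp [perU, hz]
      cases k with
      | zero =>
        have e1 : T (fun _ => (0 : E)) 0 = v := by
          simp [hT, perT, perS, hu]
        rw [e1]
        unfold perN
        rw [sub_zero, H.P_of_mem_s _ _ hv, sub_self, H.n_zero]
        simp only [pow_zero, one_mul]
        exact max_le (H.n_le _ _) (by positivity)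
      | succ k =>
        have e1 : T (fun _ => (0 : E)) (k + 1) = 0 := by
          simp [hT, perT, perS, hu, hG0]
        rw [e1]
        unfold perN
        simp only [sub_self, map_zero, H.n_zero, max_self]
        positivity
    | succ j ih =>
      intro k
      rw [hWs (j + 1), hWs j]
      have h1 := per_contr H G X hX v hv hη (δ := q ^ j * (H.L * ‖v‖)) (by positivity) hq1 hq2 hG
        (W (j + 1)) (W j) ih k
      rw [hWs j] at h1
      calc _ ≤ _ := h1
        _ = q ^ (j + 1) * (H.L * ‖v‖) := by ring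
  have hdist : ∀ k j, dist (W j k) (W (j + 1) k) ≤ (2 * H.L ^ 2 * ‖v‖) * q ^ j := by
    intro k j
    rw [dist_comm, dist_eq_norm]
    calc ‖W (j + 1) k - W j k‖ ≤ 2 * H.L * perN H (X k) (W (j + 1) k - W j k) := H.norm_le_max _ _
      _ ≤ 2 * H.L * (q ^ j * (H.L * ‖v‖)) := mul_le_mul_of_nonneg_left (hcont j k) (by positivity)
      _ = (2 * H.L ^ 2 * ‖v‖) * q ^ j := by ring
  have hlim : ∀ k, ∃ a, Tendsto (fun j => W j k) atTop (𝓝 a) := fun k =>
    cauchySeq_tendsto_of_complete (cauchySeq_of_le_geometric q _ hq0 (hdist k))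
  choose w hw using hlim
  have hPc : ∀ x, Continuous (H.P x) := fun x =>
    ((H.P x).mkContinuous (H.L ^ 3) (H.norm_P_le x)).continuous
  have hGc : ∀ x, Continuous (G x) := by
    intro x
    have hlip : LipschitzWith (Real.toNNReal (H.L + η)) (G x) := by
      apply LipschitzWith.of_dist_le_mul
      intro a b
      rw [dist_eq_norm, dist_eq_norm, Real.coe_toNNReal _ (by positivity)]
      have h1 := hG x a b
      have h2 := H.A_le x (a - b)
      have h3 : G x a - G x b = (G x a - G x b - H.A x (a - b)) + H.A x (a - b) := by abel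
      calc ‖G x a - G x b‖ = ‖(G x a - G x b - H.A x (a - b)) + H.A x (a - b)‖ := by rw [← h3]
        _ ≤ _ := norm_add_le _ _
        _ ≤ (H.L + η) * ‖a - b‖ := by linarith
    exact hlip.continuous
  have hwl : ∀ k, Tendsto (fun j => W (j + 1) k) atTop (𝓝 (w k)) := fun k =>
    (hw k).comp (tendsto_add_atTop_nat 1)
  have hG1 : ∀ k, Tendsto (fun j => G (X k) (W j k)) atTop (𝓝 (G (X k) (w k))) := fun k =>
    ((hGc (X k)).tendsto _).comp (hw k)
  -- stable components
  have hP1 : ∀ k, H.P (X (k + 1)) (w (k + 1)) = H.P (X (k + 1)) (G (X k) (w k)) := by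
    intro k
    have h1 : Tendsto (fun j => H.P (X (k + 1)) (W (j + 1) (k + 1))) atTop
        (𝓝 (H.P (X (k + 1)) (w (k + 1)))) := ((hPc _).tendsto _).comp (hwl (k + 1))
    have h2 : Tendsto (fun j => H.P (X (k + 1)) (G (X k) (W j k))) atTop
        (𝓝 (H.P (X (k + 1)) (G (X k) (w k)))) := ((hPc _).tendsto _).comp (hG1 k)
    have h3 : (fun j => H.P (X (k + 1)) (W (j + 1) (k + 1))) =
        fun j => H.P (X (k + 1)) (G (X k) (W j k)) := by
      funext j
      rw [hWs j, hT, perT_P H G X hX v hv]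
      rfl
    rw [h3] at h1
    exact tendsto_nhds_unique h1 h2
  have hP0 : H.P (X 0) (w 0) = v := by
    have h1 : Tendsto (fun j => H.P (X 0) (W (j + 1) 0)) atTop (𝓝 (H.P (X 0) (w 0))) :=
      ((hPc _).tendsto _).comp (hwl 0)
    have h3 : (fun j => H.P (X 0) (W (j + 1) 0)) = fun _ => v := by
      funext j
      rw [hWs j, hT, perT_P H G X hX v hv]
      rfl
    rw [h3] at h1
    exact tendsto_nhds_unique h1 tendsto_const_nhds
  have hQ1 : ∀ k, w (k + 1) - H.P (X (k + 1)) (w (k + 1)) =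
      G (X k) (w k) - H.P (X (k + 1)) (G (X k) (w k)) := by
    intro k
    have hZ : Tendsto (fun j => perZ H G X (W j) k) atTop
        (𝓝 (w (k + 1) - (G (X k) (w k) - H.A (X k) (w k)))) := by
      unfold perZ
      exact (hw (k + 1)).sub ((hG1 k).sub (((H.A (X k)).continuous.tendsto _).comp (hw k)))
    have h1 : Tendsto (fun j => H.A (X k) (W (j + 1) k - H.P (X k) (W (j + 1) k))) atTop
        (𝓝 (H.A (X k) (w k - H.P (X k) (w k)))) :=
      ((H.A (X k)).continuous.tendsto _).comp ((hwl k).sub (((hPc _).tendsto _).comp (hwl k)))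
    have h2 : Tendsto (fun j => perZ H G X (W j) k - H.P (X (k + 1)) (perZ H G X (W j) k)) atTop
        (𝓝 ((w (k + 1) - (G (X k) (w k) - H.A (X k) (w k))) -
          H.P (X (k + 1)) (w (k + 1) - (G (X k) (w k) - H.A (X k) (w k))))) :=
      hZ.sub (((hPc _).tendsto _).comp hZ)
    have h3 : (fun j => H.A (X k) (W (j + 1) k - H.P (X k) (W (j + 1) k))) =
        fun j => perZ H G X (W j) k - H.P (X (k + 1)) (perZ H G X (W j) k) := by
      funext j
      rw [hWs j, hT, perT_Q H G X hX v hv]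
      unfold perU
      simp
    rw [h3] at h1
    have h4 := tendsto_nhds_unique h1 h2
    have h5 : H.P (X (k + 1)) (H.A (X k) (w k)) = H.A (X k) (H.P (X k) (w k)) := by
      rw [hX k]
      exact H.P_A _ _
    rw [map_sub, map_sub, map_sub, h5] at h4
    have h6 : w (k + 1) - H.P (X (k + 1)) (w (k + 1)) -
        (G (X k) (w k) - H.P (X (k + 1)) (G (X k) (w k))) = 0 := by
      have h7 := sub_eq_zero.2 h4
      rw [← neg_eq_zero, ← h7]
      abel
    exact sub_eq_zero.1 h6
  refine ⟨w, ?_, hP0, ?_⟩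
  · intro k
    have h1 := hQ1 k
    rw [hP1 k] at h1
    exact sub_left_inj.1 h1
  · intro k
    have h1 := dist_le_of_le_geometric_of_tendsto₀ q _ hq0 (hdist k) (hw k)
    rw [hW0] at h1
    rw [dist_comm, dist_zero_right] at h1
    calc ‖w k‖ ≤ 2 * H.L ^ 2 * ‖v‖ / (1 - q) := h1
      _ = 2 * H.L ^ 2 / (1 - q) * ‖v‖ := by ring

/-- Perron's method: bounded orbits with a prescribed stable component. -/
theorem Loc.perron [CompleteSpace E] (H : Loc M E) : ∃ η0 > 0, ∃ C ≥ 1, ∀ η : ℝ, 0 ≤ η → η ≤ η0 →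
    ∀ G : M → E → E, (∀ x, G x 0 = 0) →
      (∀ x v w, ‖G x v - G x w - H.A x (v - w)‖ ≤ η * ‖v - w‖) →
      ∀ (x : M) (v : E), v ∈ H.Es x → ∃ w : ℕ → E, (∀ k, w (k + 1) = G (H.f^[k] x) (w k)) ∧
        H.P x (w 0) = v ∧ ∀ k, ‖w k‖ ≤ C * ‖v‖ := by
  have hL : 0 < H.L := lt_of_lt_of_le one_pos H.hL
  have hl2 := H.hl2
  have hm2 := H.hm2
  have hl20 : 0 < H.l2 := lt_of_lt_of_le H.hl1 H.hl12
  set t : ℝ := min ((1 - H.l2) / 2) ((H.m2 - 1) / 2) with ht
  have ht0 : 0 < t := lt_min (by linarith) (by linarith)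
  have ht1 : t ≤ (1 - H.l2) / 2 := min_le_left _ _
  have ht2 : t ≤ (H.m2 - 1) / 2 := min_le_right _ _
  set q : ℝ := max ((1 + H.l2) / 2) ((H.m2 + 1) / 2 / H.m2) with hq
  have hm0 : 0 < H.m2 := by linarith
  have hq1 : q < 1 := by
    apply max_lt
    · linarith
    · rw [div_lt_one hm0]
      linarith
  have hq0 : 0 ≤ q := le_trans (by linarith) (le_max_left _ _)
  refine ⟨t / (2 * H.L ^ 3), by positivity, 2 * H.L ^ 2 / (1 - q), ?_, ?_⟩
  · rw [ge_iff_le, le_div_iff₀ (by linarith)]
    have := H.hL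
    nlinarith
  · intro η hη hη' G hG0 hG x v hv
    have hc : 2 * H.L ^ 3 * η ≤ t := by
      rw [le_div_iff₀ (by positivity)] at hη'
      linarith
    have hqa : H.l2 + 2 * H.L ^ 3 * η ≤ q := by
      have := le_max_left ((1 + H.l2) / 2) ((H.m2 + 1) / 2 / H.m2)
      linarith
    have hqb : 1 + 2 * H.L ^ 3 * η ≤ q * H.m2 := by
      have h1 := le_max_right ((1 + H.l2) / 2) ((H.m2 + 1) / 2 / H.m2)
      rw [← hq, div_le_iff₀ hm0] at h1
      linarith
    obtain ⟨w, h1, h2, h3⟩ := per_aux H hη hq1 hqa hqb G hG0 hG (fun k => H.f^[k] x)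
      (fun k => Function.iterate_succ_apply' _ _ _) v hv
    exact ⟨w, h1, h2, h3⟩

end Pool.Agent.ANO
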