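import Mathlib
import Pool.Agent.ANO.CMP
import Pool.Agent.ANO.PER

open Set Metric Function

namespace Pool.Agent.ANO

variable {M : Type} [MetricSpace M] {E : Type} [NormedAddCommGroup E] [NormedSpace ℝ E]

/-- The properties of a parametrisation of the stable leaves. -/
structure SParam (H : Loc M E) (a b : ℝ) where
  θ : ∀ x, H.Es x → M
  R0 : ℝ
  hR0 : 0 < R0
  hR0r : R0 ≤ H.r
  K0 : ℝ
  hK0 : 1 ≤ K0
  zero : ∀ x, θ x 0 = x
  lip : ∀ (x : M) (R : ℝ), ∃ K : ℝ, 0 ≤ K ∧ ∀ v w : H.Es x, ‖v‖ ≤ R → ‖w‖ ≤ R →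
    SRel H.f a b (θ x v) (θ x w) (K * ‖v - w‖)
  inj : ∀ x, Injective (θ x)
  surj : ∀ x y t, SRel H.f a b x y t → ∃ v : H.Es x, θ x v = y
  inv : ∀ (x : M) (v : H.Es x) (ε : ℝ), 0 < ε → ∃ δ > 0, ∀ w : H.Es x,
    SRel H.f a b (θ x v) (θ x w) δ → ‖v - w‖ < ε
  unif : ∀ (x : M) (v w : H.Es x), ‖v‖ ≤ R0 → ‖w‖ ≤ R0 →
    SRel H.f a b (θ x v) (θ x w) (K0 * ‖v - w‖)
  loc : ∀ (x y : M) (t : ℝ), t ≤ R0 → SRel H.f a b x y t → ∃ v : H.Es x, ‖v‖ ≤ K0 * t ∧ θ x v = y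
  coord : ∀ (x : M) (v : H.Es x), ‖v‖ ≤ R0 → dist x (θ x v) ≤ H.r ∧
    H.P x (H.c x (θ x v)) = (v : E)

/-- The data used to parametrise the stable leaves: global extensions `G` of the local maps. -/
structure TS (H : Loc M E) (a b : ℝ) where
  G : M → E → E
  ρ : ℝ
  hρ : 0 < ρ
  hρr : ρ ≤ H.r
  G0 : ∀ x, G x 0 = 0
  Gc : ∀ x y, dist x y ≤ ρ → dist (H.f x) (H.f y) ≤ H.r ∧ H.c (H.f x) (H.f y) = G x (H.c x y)
  bij : ∀ x, Bijective (G x)
  Cp : ℝ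
  hCp : 1 ≤ Cp
  per : ∀ (x : M) (v : E), v ∈ H.Es x → ∃ w : ℕ → E, (∀ k, w (k + 1) = G (H.f^[k] x) (w k)) ∧
    H.P x (w 0) = v ∧ ∀ k, ‖w k‖ ≤ Cp * ‖v‖
  up : ∀ (x : M) (v w : ℕ → E) (B : ℝ), (∀ k, v (k + 1) = G (H.f^[k] x) (v k)) →
    (∀ k, w (k + 1) = G (H.f^[k] x) (w k)) → (∀ k, ‖v k - w k‖ ≤ B) → ∀ k : ℕ,
      ‖v k - w k‖ ≤ 2 * H.L ^ 2 * Real.exp (-(a * k)) * ‖H.P x (v 0) - H.P x (w 0)‖
  dn : ∀ (x : M) (v w : ℕ → E) (B : ℝ), (∀ k, v (k + 1) = G (H.f^[k] x) (v k)) →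
    (∀ k, w (k + 1) = G (H.f^[k] x) (w k)) → (∀ k, ‖v k - w k‖ ≤ B) → ∀ k : ℕ,
      Real.exp (-(b * k)) * ‖H.P x (v 0) - H.P x (w 0)‖ ≤ H.L ^ 3 * ‖v k - w k‖
  σ : ℝ
  hσ : 0 < σ
  Cc : ℝ
  hCc : 1 ≤ Cc
  cmp : ∀ x y, (∀ k : ℕ, dist (H.f^[k] x) (H.f^[k] y) ≤ σ) → SRel H.f a b x y (Cc * dist x y)

theorem Loc.L_pos (H : Loc M E) : 0 < H.L := lt_of_lt_of_le one_pos H.hL

theorem Loc.exists_TS [CompactSpace M] [FiniteDimensional ℝ E] (H : Loc M E) {a b : ℝ}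
    (ha : 0 < a) (hab : a ≤ b) (ha' : H.l2 < Real.exp (-a)) (hb' : Real.exp (-b) < H.l1) :
    Nonempty (TS H a b) := by
  have : CompleteSpace E := FiniteDimensional.complete ℝ E
  have hL := H.hL
  have hL0 := H.L_pos
  obtain ⟨η1, hη1, Cp, hCp, hper⟩ := H.perron
  obtain ⟨η2, hη2, horb⟩ := H.orbit_cone (κ := 1) (lo := Real.exp (-b)) (hi := Real.exp (-a))
    one_pos le_rfl hb' ha' (by rw [Real.exp_lt_one_iff]; linarith)
  obtain ⟨σ, hσ, Cc, hCc, hcmp⟩ := H.cmp ha hab ha' hb'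
  set η : ℝ := min (min η1 η2) (1 / (2 * H.L)) with hηdef
  have hη0 : 0 < η := lt_min (lt_min hη1 hη2) (by positivity)
  have hηL : H.L * η < 1 := by
    have h1 : η ≤ 1 / (2 * H.L) := min_le_right _ _
    have h2 : H.L * η ≤ H.L * (1 / (2 * H.L)) := mul_le_mul_of_nonneg_left h1 hL0.le
    have h3 : H.L * (1 / (2 * H.L)) = 1 / 2 := by field_simp
    linarith
  have hη1' : η ≤ η1 := le_trans (min_le_left _ _) (min_le_left _ _)
  have hη2' : η ≤ η2 := le_trans (min_le_left _ _) (min_le_right _ _)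
  obtain ⟨ρ, hρ, hρr, G, hG0, hGA, hGc⟩ := H.exists_global η hη0
  have hpow : ∀ (t : ℝ) (k : ℕ), Real.exp (-t) ^ k = Real.exp (-(t * k)) := by
    intro t k
    rw [← Real.exp_nat_mul]
    congr 1
    ring
  refine ⟨{
    G := G, ρ := ρ, hρ := hρ, hρr := hρr, G0 := hG0, Gc := hGc
    bij := fun x => H.bij hηL x (G x) (hGA x)
    Cp := Cp, hCp := hCp
    per := hper η hη0.le hη1' G hG0 hGA
    up := ?_
    dn := ?_
    σ := σ, hσ := hσ, Cc := Cc, hCc := hCc, cmp := hcmp }⟩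
  · intro x v w B hv hw hB k
    obtain ⟨h1, h2, h3, h4⟩ := horb η hη0.le hη2' G hGA x v w B hv hw hB k
    rw [hpow] at h2
    have h5 : H.n x (H.P x (v 0 - w 0)) ≤ H.L * ‖H.P x (v 0) - H.P x (w 0)‖ := by
      rw [map_sub]; exact H.n_le x _
    calc ‖v k - w k‖ ≤ 2 * H.L * H.n (H.f^[k] x) (H.P (H.f^[k] x) (v k - w k)) := h4
      _ ≤ 2 * H.L * (Real.exp (-(a * k)) * H.n x (H.P x (v 0 - w 0))) := by
          apply mul_le_mul_of_nonneg_left h2 (by positivity)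
      _ ≤ 2 * H.L * (Real.exp (-(a * k)) * (H.L * ‖H.P x (v 0) - H.P x (w 0)‖)) := by
          apply mul_le_mul_of_nonneg_left _ (by positivity)
          apply mul_le_mul_of_nonneg_left h5 (Real.exp_pos _).le
      _ = _ := by ring
  · intro x v w B hv hw hB k
    obtain ⟨h1, h2, h3, h4⟩ := horb η hη0.le hη2' G hGA x v w B hv hw hB k
    have h3' := h3 (Real.exp_pos _).le
    rw [hpow] at h3'
    have h5 : ‖H.P x (v 0) - H.P x (w 0)‖ ≤ H.L * H.n x (H.P x (v 0 - w 0)) := by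
      rw [map_sub]; exact H.le_n x _
    have h6 : H.n (H.f^[k] x) (H.P (H.f^[k] x) (v k - w k)) ≤ H.L * (H.L * ‖v k - w k‖) :=
      (H.n_P_le _ _).trans (mul_le_mul_of_nonneg_left (H.n_le _ _) hL0.le)
    calc Real.exp (-(b * k)) * ‖H.P x (v 0) - H.P x (w 0)‖
        ≤ Real.exp (-(b * k)) * (H.L * H.n x (H.P x (v 0 - w 0))) :=
          mul_le_mul_of_nonneg_left h5 (Real.exp_pos _).le
      _ = H.L * (Real.exp (-(b * k)) * H.n x (H.P x (v 0 - w 0))) := by ring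
      _ ≤ H.L * (H.L * (H.L * ‖v k - w k‖)) :=
          mul_le_mul_of_nonneg_left (h3'.trans h6) hL0.le
      _ = _ := by ring

namespace TS

variable {H : Loc M E} {a b : ℝ} (T : TS H a b)

/-- Equality of points with the same coordinates. -/
theorem eq_of_c (H : Loc M E) {x y z : M} (hy : dist x y ≤ H.r) (hz : dist x z ≤ H.r)
    (h : H.c x y = H.c x z) : y = z := by
  have := H.le_c x y z hy hz
  rw [h, sub_self, norm_zero, mul_zero] at this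
  exact dist_le_zero.1 this

theorem norm_c_le (H : Loc M E) {x y : M} (hy : dist x y ≤ H.r) : ‖H.c x y‖ ≤ H.L * dist x y := by
  have := H.c_le x y x hy (by rw [dist_self]; exact H.hr.le)
  rwa [H.c_self, sub_zero, dist_comm] at this

theorem dist_le_c (H : Loc M E) {x y : M} (hy : dist x y ≤ H.r) : dist x y ≤ H.L * ‖H.c x y‖ := by
  have := H.le_c x y x hy (by rw [dist_self]; exact H.hr.le)
  rwa [H.c_self, sub_zero, dist_comm] at this

omit T in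
theorem iter_symm (H : Loc M E) (k : ℕ) (y : M) : H.f^[k] (H.f.symm^[k] y) = y :=
  (Function.LeftInverse.iterate (fun z => H.f.apply_symm_apply z) k) y

include T in
/-- The point whose orbit is given in coordinates by an orbit of the extended maps. -/
theorem exists_pt (x : M) (w : ℕ → E) (hw : ∀ k, w (k + 1) = T.G (H.f^[k] x) (w k))
    (hK : ∃ K : ℕ, ∀ j ≥ K, H.L * ‖w j‖ ≤ T.ρ) : ∃ y, ∀ k, (∀ j ≥ k, H.L * ‖w j‖ ≤ T.ρ) →
      dist (H.f^[k] x) (H.f^[k] y) ≤ H.L * ‖w k‖ ∧ H.c (H.f^[k] x) (H.f^[k] y) = w k := by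
  have hex : ∀ k, (∀ j ≥ k, H.L * ‖w j‖ ≤ T.ρ) → ∃ y, dist (H.f^[k] x) y ≤ H.r ∧
      H.c (H.f^[k] x) y = w k := fun k hk =>
    H.c_surj _ _ ((hk k le_rfl).trans T.hρr)
  have hstep : ∀ k y, (∀ j ≥ k, H.L * ‖w j‖ ≤ T.ρ) → dist (H.f^[k] x) y ≤ H.r →
      H.c (H.f^[k] x) y = w k → dist (H.f^[k + 1] x) (H.f y) ≤ H.r ∧
        H.c (H.f^[k + 1] x) (H.f y) = w (k + 1) := by
    intro k y hk h1 h2
    have h3 : dist (H.f^[k] x) y ≤ T.ρ := by
      have := dist_le_c H h1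
      rw [h2] at this
      exact this.trans (hk k le_rfl)
    have h4 := T.Gc _ _ h3
    rw [iterate_succ_apply', hw k, ← h2]
    exact h4
  have hiter : ∀ (j k : ℕ) (y : M), (∀ i ≥ k, H.L * ‖w i‖ ≤ T.ρ) → dist (H.f^[k] x) y ≤ H.r →
      H.c (H.f^[k] x) y = w k → dist (H.f^[k + j] x) (H.f^[j] y) ≤ H.r ∧
        H.c (H.f^[k + j] x) (H.f^[j] y) = w (k + j) := by
    intro j
    induction j with
    | zero => intro k y _ h1 h2; exact ⟨h1, h2⟩
    | succ j ih =>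
      intro k y hk h1 h2
      obtain ⟨h3, h4⟩ := ih k y hk h1 h2
      have := hstep (k + j) _ (fun i hi => hk i (by omega)) h3 h4
      rw [iterate_succ_apply' H.f j y]
      exact this
  obtain ⟨K, hK⟩ := hK
  obtain ⟨Y, hY1, hY2⟩ := hex K hK
  refine ⟨H.f.symm^[K] Y, fun k hk => ?_⟩
  obtain ⟨Z, hZ1, hZ2⟩ := hex k hk
  have hfK : H.f^[K] (H.f.symm^[K] Y) = Y := iter_symm H K Y
  have key : H.f^[k] (H.f.symm^[K] Y) = Z := by
    rcases le_total k K with hkK | hkK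
    · obtain ⟨j, rfl⟩ := Nat.exists_eq_add_of_le hkK
      obtain ⟨h1, h2⟩ := hiter j k Z hk hZ1 hZ2
      have h3 : H.f^[j] Z = Y := eq_of_c H h1 hY1 (h2.trans hY2.symm)
      apply (H.f.injective.iterate j)
      rw [h3, ← iterate_add_apply, add_comm j k]
      exact hfK
    · obtain ⟨j, rfl⟩ := Nat.exists_eq_add_of_le hkK
      obtain ⟨h1, h2⟩ := hiter j K Y hK hY1 hY2
      have h3 : H.f^[j] Y = Z := eq_of_c H h1 hZ1 (h2.trans hZ2.symm)
      rw [← h3, add_comm K j, iterate_add_apply, hfK]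
  rw [key]
  refine ⟨?_, hZ2⟩
  have := dist_le_c H hZ1
  rwa [hZ2] at this

/-- Two bounded orbits with the same stable component are equal. -/
theorem orb_unique (x : M) (v w : ℕ → E) (B : ℝ) (hv : ∀ k, v (k + 1) = T.G (H.f^[k] x) (v k))
    (hw : ∀ k, w (k + 1) = T.G (H.f^[k] x) (w k)) (hB : ∀ k, ‖v k - w k‖ ≤ B)
    (h : H.P x (v 0) = H.P x (w 0)) : v = w := by
  funext k
  have := T.up x v w B hv hw hB k
  rw [h, sub_self, norm_zero, mul_zero] at this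
  exact sub_eq_zero.1 (norm_le_zero_iff.1 this)

/-- The orbit with stable component `v`. -/
noncomputable def w (x : M) (v : H.Es x) : ℕ → E := (T.per x v v.2).choose

theorem w_orb (x : M) (v : H.Es x) (k : ℕ) : T.w x v (k + 1) = T.G (H.f^[k] x) (T.w x v k) :=
  (T.per x v v.2).choose_spec.1 k

theorem w_P (x : M) (v : H.Es x) : H.P x (T.w x v 0) = v := (T.per x v v.2).choose_spec.2.1

theorem w_bd (x : M) (v : H.Es x) (k : ℕ) : ‖T.w x v k‖ ≤ T.Cp * ‖(v : E)‖ :=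
  (T.per x v v.2).choose_spec.2.2 k

theorem w_up (x : M) (v v' : H.Es x) (k : ℕ) :
    ‖T.w x v k - T.w x v' k‖ ≤ 2 * H.L ^ 2 * Real.exp (-(a * k)) * ‖v - v'‖ := by
  have := T.up x (T.w x v) (T.w x v') (T.Cp * ‖(v : E)‖ + T.Cp * ‖(v' : E)‖) (T.w_orb x v)
    (T.w_orb x v') (fun k => (norm_sub_le _ _).trans (add_le_add (T.w_bd x v k) (T.w_bd x v' k))) k
  rw [T.w_P, T.w_P] at this
  exact this

theorem w_dn (x : M) (v v' : H.Es x) (k : ℕ) :
    Real.exp (-(b * k)) * ‖v - v'‖ ≤ H.L ^ 3 * ‖T.w x v k - T.w x v' k‖ := by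
  have := T.dn x (T.w x v) (T.w x v') (T.Cp * ‖(v : E)‖ + T.Cp * ‖(v' : E)‖) (T.w_orb x v)
    (T.w_orb x v') (fun k => (norm_sub_le _ _).trans (add_le_add (T.w_bd x v k) (T.w_bd x v' k))) k
  rw [T.w_P, T.w_P] at this
  exact this

theorem w_unique (x : M) (v : H.Es x) (u : ℕ → E) (B : ℝ)
    (hu : ∀ k, u (k + 1) = T.G (H.f^[k] x) (u k)) (hB : ∀ k, ‖u k‖ ≤ B)
    (h : H.P x (u 0) = v) : T.w x v = u :=
  T.orb_unique x _ _ (T.Cp * ‖(v : E)‖ + B) (T.w_orb x v) hu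
    (fun k => (norm_sub_le _ _).trans (add_le_add (T.w_bd x v k) (hB k))) (by rw [h, T.w_P])

theorem w_zero (x : M) : T.w x 0 = fun _ => 0 :=
  T.w_unique x 0 (fun _ => 0) 0 (fun k => (T.G0 _).symm) (fun k => by simp) (by simp)

theorem w_le (x : M) (v : H.Es x) (k : ℕ) :
    ‖T.w x v k‖ ≤ 2 * H.L ^ 2 * Real.exp (-(a * k)) * ‖v‖ := by
  have := T.w_up x v 0 k
  rw [T.w_zero, sub_zero, sub_zero] at this
  exact this

theorem exp_small (ha : 0 < a) (c ε : ℝ) (hε : 0 < ε) :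
    ∃ K : ℕ, ∀ k ≥ K, c * Real.exp (-(a * k)) ≤ ε := by
  obtain ⟨K, hK⟩ := exists_nat_gt (|c| / (a * ε))
  refine ⟨K, fun k hk => ?_⟩
  have hk' : (K : ℝ) ≤ k := by exact_mod_cast hk
  have h1 : |c| / (a * ε) < k := hK.trans_le hk'
  have haε : 0 < a * ε := mul_pos ha hε
  rw [div_lt_iff₀ haε] at h1
  have h2 : a * k + 1 ≤ Real.exp (a * k) := Real.add_one_le_exp _
  have h3 : Real.exp (-(a * k)) = (Real.exp (a * k))⁻¹ := Real.exp_neg _
  have h4 : 0 < Real.exp (a * k) := Real.exp_pos _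
  rw [h3, ← div_eq_mul_inv, div_le_iff₀ h4]
  calc c ≤ |c| := le_abs_self c
    _ ≤ k * (a * ε) := h1.le
    _ = ε * (a * k) := by ring
    _ ≤ ε * Real.exp (a * k) := by
        apply mul_le_mul_of_nonneg_left _ hε.le
        linarith

/-- A uniform time from which on the orbits are small. -/
theorem w_small (ha : 0 < a) (R ε : ℝ) (hε : 0 < ε) : ∃ K : ℕ, ∀ (x : M) (v : H.Es x), ‖v‖ ≤ R →
    ∀ k ≥ K, H.L * ‖T.w x v k‖ ≤ ε := by
  obtain ⟨K, hK⟩ := exp_small (a := a) ha (H.L * (2 * H.L ^ 2 * |R|)) ε hε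
  refine ⟨K, fun x v hv k hk => ?_⟩
  have hL0 := H.L_pos
  have h1 : ‖v‖ ≤ |R| := hv.trans (le_abs_self R)
  calc H.L * ‖T.w x v k‖ ≤ H.L * (2 * H.L ^ 2 * Real.exp (-(a * k)) * ‖v‖) :=
        mul_le_mul_of_nonneg_left (T.w_le x v k) hL0.le
    _ ≤ H.L * (2 * H.L ^ 2 * Real.exp (-(a * k)) * |R|) := by
        apply mul_le_mul_of_nonneg_left _ hL0.le
        apply mul_le_mul_of_nonneg_left h1
        have := Real.exp_pos (-(a * k))
        positivity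
    _ = H.L * (2 * H.L ^ 2 * |R|) * Real.exp (-(a * k)) := by ring
    _ ≤ ε := hK k hk

theorem exists_theta (ha : 0 < a) (x : M) (v : H.Es x) : ∃ y, ∀ k,
    (∀ j ≥ k, H.L * ‖T.w x v j‖ ≤ T.ρ) →
      dist (H.f^[k] x) (H.f^[k] y) ≤ H.L * ‖T.w x v k‖ ∧
        H.c (H.f^[k] x) (H.f^[k] y) = T.w x v k := by
  apply T.exists_pt x (T.w x v) (T.w_orb x v)
  obtain ⟨K, hK⟩ := T.w_small ha ‖v‖ T.ρ T.hρ
  exact ⟨K, hK x v le_rfl⟩

/-- The parametrisation of the stable leaf of `x`. -/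
noncomputable def θ (ha : 0 < a) (x : M) (v : H.Es x) : M := (T.exists_theta ha x v).choose

theorem θ_spec (ha : 0 < a) (x : M) (v : H.Es x) (k : ℕ)
    (hk : ∀ j ≥ k, H.L * ‖T.w x v j‖ ≤ T.ρ) :
    dist (H.f^[k] x) (H.f^[k] (T.θ ha x v)) ≤ H.L * ‖T.w x v k‖ ∧
      H.c (H.f^[k] x) (H.f^[k] (T.θ ha x v)) = T.w x v k :=
  (T.exists_theta ha x v).choose_spec k hk

theorem θ_eq (ha : 0 < a) (x : M) (v : H.Es x) (y : M) (u : ℕ → E) (B : ℝ)
    (hu : ∀ k, u (k + 1) = T.G (H.f^[k] x) (u k)) (hB : ∀ k, ‖u k‖ ≤ B)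
    (h : H.P x (u 0) = v) (K : ℕ) (hK : ∀ k ≥ K, dist (H.f^[k] x) (H.f^[k] y) ≤ T.ρ ∧
      H.c (H.f^[k] x) (H.f^[k] y) = u k) : T.θ ha x v = y := by
  have hw := T.w_unique x v u B hu hB h
  obtain ⟨K', hK'⟩ := T.w_small ha ‖v‖ T.ρ T.hρ
  have h1 := T.θ_spec ha x v (max K K') (fun j hj => hK' x v le_rfl j (le_trans (le_max_right _ _) hj))
  have h2 := hK (max K K') (le_max_left _ _)
  have h3 := hK' x v le_rfl (max K K') (le_max_right _ _)
  apply H.f.injective.iterate (max K K')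
  apply eq_of_c H ((h1.1.trans h3).trans T.hρr) (h2.1.trans T.hρr)
  rw [h1.2, h2.2, hw]

theorem orb_ext (x : M) (v w : ℕ → E) (hv : ∀ k, v (k + 1) = T.G (H.f^[k] x) (v k))
    (hw : ∀ k, w (k + 1) = T.G (H.f^[k] x) (w k)) (k j : ℕ) (h : v (k + j) = w (k + j)) :
    v k = w k := by
  induction j with
  | zero => exact h
  | succ j ih =>
    apply ih
    have h' : v (k + j + 1) = w (k + j + 1) := h
    rw [hv, hw] at h'
    exact (T.bij _).1 h'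

theorem θ_inj (ha : 0 < a) (x : M) : Injective (T.θ ha x) := by
  intro v v' h
  obtain ⟨K, hK⟩ := T.w_small ha (max ‖v‖ ‖v'‖) T.ρ T.hρ
  have h1 := T.θ_spec ha x v K (fun j hj => hK x v (le_max_left _ _) j hj)
  have h2 := T.θ_spec ha x v' K (fun j hj => hK x v' (le_max_right _ _) j hj)
  have h3 : T.w x v K = T.w x v' K := by rw [← h1.2, ← h2.2, h]
  have h4 : T.w x v 0 = T.w x v' 0 :=
    T.orb_ext x _ _ (T.w_orb x v) (T.w_orb x v') 0 K (by rw [zero_add]; exact h3)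
  apply Subtype.ext
  rw [← T.w_P x v, ← T.w_P x v', h4]


theorem θ_zero (ha : 0 < a) (x : M) : T.θ ha x 0 = x :=
  T.θ_eq ha x 0 x (fun _ => 0) 0 (fun k => (T.G0 _).symm) (fun k => by simp) (by simp) 0
    (fun k _ => ⟨by rw [dist_self]; exact T.hρ.le, H.c_self _⟩)

/-- Points whose orbits stay close to the orbit of `x` in the future. -/
theorem orb_of_close (x y : M) (h : ∀ k : ℕ, dist (H.f^[k] x) (H.f^[k] y) ≤ T.ρ) (k : ℕ) :
    H.c (H.f^[k + 1] x) (H.f^[k + 1] y) = T.G (H.f^[k] x) (H.c (H.f^[k] x) (H.f^[k] y)) := by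
  rw [iterate_succ_apply' H.f k x, iterate_succ_apply' H.f k y]
  exact (T.Gc _ _ (h k)).2

/-- Extension of an orbit of the extended maps to the past. -/
theorem exists_back (x : M) (K : ℕ) (u : ℕ → E)
    (hu : ∀ k ≥ K, u (k + 1) = T.G (H.f^[k] x) (u k)) : ∃ w : ℕ → E,
      (∀ k, w (k + 1) = T.G (H.f^[k] x) (w k)) ∧ ∀ k ≥ K, w k = u k := by
  induction K generalizing u with
  | zero => exact ⟨u, fun k => hu k (Nat.zero_le _), fun k _ => rfl⟩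
  | succ K ih =>
    obtain ⟨z, hz⟩ := (T.bij (H.f^[K] x)).2 (u (K + 1))
    obtain ⟨w, hw1, hw2⟩ := ih (Function.update u K z) (by
      intro k hk
      rcases eq_or_lt_of_le hk with rfl | hk
      · rw [Function.update_self, Function.update_of_ne (by omega), hz]
      · rw [Function.update_of_ne (by omega), Function.update_of_ne (by omega)]
        exact hu k hk)
    refine ⟨w, hw1, fun k hk => ?_⟩
    rw [hw2 k (by omega), Function.update_of_ne (by omega)]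

omit [NormedSpace ℝ E] in
theorem bounded_of_tail (w : ℕ → E) (K : ℕ) (B : ℝ) (h : ∀ k ≥ K, ‖w k‖ ≤ B) :
    ∃ B', ∀ k, ‖w k‖ ≤ B' := by
  refine ⟨max B (∑ k ∈ Finset.range K, ‖w k‖), fun k => ?_⟩
  rcases le_or_gt K k with hk | hk
  · exact (h k hk).trans (le_max_left _ _)
  · exact (Finset.single_le_sum (f := fun k => ‖w k‖) (fun i _ => norm_nonneg _)
      (Finset.mem_range.2 hk)).trans (le_max_right _ _)

theorem SRel_dist {x y : M} {t : ℝ} (ha : 0 < a) (h : SRel H.f a b x y t) (k : ℕ) :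
    dist (H.f^[k] x) (H.f^[k] y) ≤ t := by
  have h1 := h.1 k
  have h2 : 1 ≤ Real.exp (a * k) := Real.one_le_exp (by positivity)
  exact (le_mul_of_one_le_left dist_nonneg h2).trans h1

theorem SRel_nonneg {x y : M} {t : ℝ} (h : SRel H.f a b x y t) : 0 ≤ t :=
  dist_nonneg.trans h.dist_le

theorem θ_surj (ha : 0 < a) (x y : M) (t : ℝ) (h : SRel H.f a b x y t) :
    ∃ v : H.Es x, T.θ ha x v = y := by
  obtain ⟨K, hK⟩ := exp_small (a := a) ha t T.ρ T.hρ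
  have hd : ∀ k ≥ K, dist (H.f^[k] x) (H.f^[k] y) ≤ T.ρ := by
    intro k hk
    refine le_trans ?_ (hK k hk)
    have h1 := h.1 k
    have h3 : Real.exp (-(a * k)) = (Real.exp (a * k))⁻¹ := Real.exp_neg _
    rw [h3, ← div_eq_mul_inv, le_div_iff₀ (Real.exp_pos _), mul_comm]
    exact h1
  obtain ⟨w, hw1, hw2⟩ := T.exists_back x K (fun k => H.c (H.f^[k] x) (H.f^[k] y)) (by
    intro k hk
    rw [iterate_succ_apply' H.f k x, iterate_succ_apply' H.f k y]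
    exact (T.Gc _ _ (hd k hk)).2)
  obtain ⟨B, hB⟩ := bounded_of_tail w K (H.L * T.ρ) (by
    intro k hk
    rw [hw2 k hk]
    exact (norm_c_le H ((hd k hk).trans T.hρr)).trans
      (mul_le_mul_of_nonneg_left (hd k hk) H.L_pos.le))
  refine ⟨⟨H.P x (w 0), H.P_mem x _⟩, ?_⟩
  exact T.θ_eq ha x _ y w B hw1 hB rfl K (fun k hk => ⟨hd k hk, (hw2 k hk).symm⟩)

/-- Comparison of nearby points of the leaf at a time from which on their orbits are small. -/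
theorem θ_cmp (ha : 0 < a) (x : M) (v v' : H.Es x) (K : ℕ)
    (h : ∀ k ≥ K, H.L * ‖T.w x v k‖ ≤ min T.ρ (T.σ / 2))
    (h' : ∀ k ≥ K, H.L * ‖T.w x v' k‖ ≤ min T.ρ (T.σ / 2)) :
    SRel H.f a b (H.f^[K] (T.θ ha x v)) (H.f^[K] (T.θ ha x v'))
      (T.Cc * (2 * H.L ^ 3 * ‖v - v'‖)) := by
  have hL0 := H.L_pos
  have s1 : ∀ k ≥ K, _ := fun k hk => T.θ_spec ha x v k
    (fun j hj => (h j (le_trans hk hj)).trans (min_le_left _ _))
  have s2 : ∀ k ≥ K, _ := fun k hk => T.θ_spec ha x v' k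
    (fun j hj => (h' j (le_trans hk hj)).trans (min_le_left _ _))
  have hd : ∀ k : ℕ, dist (H.f^[k] (H.f^[K] (T.θ ha x v))) (H.f^[k] (H.f^[K] (T.θ ha x v'))) ≤
      T.σ := by
    intro k
    rw [← iterate_add_apply, ← iterate_add_apply]
    have h1 := (s1 (k + K) (by omega)).1.trans ((h (k + K) (by omega)).trans (min_le_right _ _))
    have h2 := (s2 (k + K) (by omega)).1.trans ((h' (k + K) (by omega)).trans (min_le_right _ _))
    have h3 := dist_triangle_left (H.f^[k + K] (T.θ ha x v)) (H.f^[k + K] (T.θ ha x v'))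
      (H.f^[k + K] x)
    linarith
  have h0 := T.cmp _ _ hd
  refine h0.mono ?_
  apply mul_le_mul_of_nonneg_left _ (zero_le_one.trans T.hCc)
  have t1 := s1 K le_rfl
  have t2 := s2 K le_rfl
  have r1 : dist (H.f^[K] x) (H.f^[K] (T.θ ha x v)) ≤ H.r :=
    t1.1.trans ((h K le_rfl).trans ((min_le_left _ _).trans T.hρr))
  have r2 : dist (H.f^[K] x) (H.f^[K] (T.θ ha x v')) ≤ H.r :=
    t2.1.trans ((h' K le_rfl).trans ((min_le_left _ _).trans T.hρr))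
  have h4 := H.le_c _ _ _ r1 r2
  rw [t1.2, t2.2] at h4
  have h5 := T.w_up x v v' K
  have h6 : Real.exp (-(a * K)) ≤ 1 := by
    rw [Real.exp_le_one_iff]
    have : 0 ≤ a * K := by positivity
    linarith
  calc dist (H.f^[K] (T.θ ha x v)) (H.f^[K] (T.θ ha x v')) ≤ H.L * ‖T.w x v K - T.w x v' K‖ := h4
    _ ≤ H.L * (2 * H.L ^ 2 * Real.exp (-(a * K)) * ‖v - v'‖) :=
        mul_le_mul_of_nonneg_left h5 hL0.le
    _ ≤ H.L * (2 * H.L ^ 2 * 1 * ‖v - v'‖) := by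
        apply mul_le_mul_of_nonneg_left _ hL0.le
        apply mul_le_mul_of_nonneg_right _ (norm_nonneg _)
        apply mul_le_mul_of_nonneg_left h6 (by positivity)
    _ = _ := by ring

theorem θ_lip (ha : 0 < a) (hab : a ≤ b) (x : M) (R : ℝ) : ∃ K : ℝ, 0 ≤ K ∧ ∀ v w : H.Es x,
    ‖v‖ ≤ R → ‖w‖ ≤ R → SRel H.f a b (T.θ ha x v) (T.θ ha x w) (K * ‖v - w‖) := by
  have hL0 := H.L_pos
  have hε : 0 < min T.ρ (T.σ / 2) := lt_min T.hρ (half_pos T.hσ)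
  obtain ⟨K, hK⟩ := T.w_small ha R _ hε
  have hC0 : 0 < T.Cc := lt_of_lt_of_le one_pos T.hCc
  refine ⟨Real.exp (b * K) * (T.Cc * (2 * H.L ^ 3)), by positivity, fun v w hv hw => ?_⟩
  have h1 := T.θ_cmp ha x v w K (fun k hk => hK x v hv k hk) (fun k hk => hK x w hw k hk)
  have h2 := h1.bwd_iter ha hab K
  have hs : ∀ z, H.f.symm^[K] (H.f^[K] z) = z :=
    (Function.LeftInverse.iterate (fun z => H.f.symm_apply_apply z) K)
  rw [hs, hs] at h2
  refine h2.mono (le_of_eq (by ring))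

theorem θ_inv (ha : 0 < a) (x : M) (v : H.Es x) (ε : ℝ) (hε : 0 < ε) : ∃ δ > 0,
    ∀ w : H.Es x, SRel H.f a b (T.θ ha x v) (T.θ ha x w) δ → ‖v - w‖ < ε := by
  have hL0 := H.L_pos
  obtain ⟨K, hK⟩ := T.w_small ha ‖v‖ (T.ρ / 2) (half_pos T.hρ)
  have hK' := hK x v le_rfl
  have hEb := Real.exp_pos (-(b * K))
  refine ⟨min (T.ρ / 2) (Real.exp (-(b * K)) * ε / (2 * H.L ^ 4)),
    lt_min (half_pos T.hρ) (by positivity), fun w hw => ?_⟩
  set δ := min (T.ρ / 2) (Real.exp (-(b * K)) * ε / (2 * H.L ^ 4)) with hδ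
  have s1 : ∀ k ≥ K, _ := fun k hk => T.θ_spec ha x v k
    (fun j hj => (hK' j (le_trans hk hj)).trans (half_le_self T.hρ.le))
  have hd := SRel_dist (H := H) ha hw
  have hclose : ∀ k ≥ K, dist (H.f^[k] x) (H.f^[k] (T.θ ha x w)) ≤ T.ρ := by
    intro k hk
    have h1 := (s1 k hk).1.trans (hK' k hk)
    have h2 := (hd k).trans (min_le_left _ _)
    have h3 := dist_triangle (H.f^[k] x) (H.f^[k] (T.θ ha x v)) (H.f^[k] (T.θ ha x w))
    linarith
  -- the orbit of `w` at the time `K`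
  have hwK : T.w x w K = H.c (H.f^[K] x) (H.f^[K] (T.θ ha x w)) := by
    obtain ⟨u, hu1, hu2⟩ := T.exists_back x K (fun k => H.c (H.f^[k] x) (H.f^[k] (T.θ ha x w))) (by
      intro k hk
      rw [iterate_succ_apply' H.f k x, iterate_succ_apply' H.f k (T.θ ha x w)]
      exact (T.Gc _ _ (hclose k hk)).2)
    rw [← hu2 K le_rfl]
    obtain ⟨K', hK2⟩ := T.w_small ha ‖w‖ T.ρ T.hρ
    apply T.orb_ext x _ _ (T.w_orb x w) hu1 K K'
    rw [hu2 (K + K') (by omega)]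
    exact ((T.θ_spec ha x w (K + K') (fun j hj => hK2 x w le_rfl j (by omega))).2).symm
  have h1 := T.w_dn x v w K
  have h2 : ‖T.w x v K - T.w x w K‖ ≤ H.L * δ := by
    rw [hwK, ← (s1 K le_rfl).2]
    refine (H.c_le _ _ _ ?_ ((hclose K le_rfl).trans T.hρr)).trans
      (mul_le_mul_of_nonneg_left (hd K) hL0.le)
    exact ((s1 K le_rfl).1.trans (hK' K le_rfl)).trans ((half_le_self T.hρ.le).trans T.hρr)
  have h3 : Real.exp (-(b * K)) * ‖v - w‖ ≤ H.L ^ 3 * (H.L * δ) :=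
    h1.trans (mul_le_mul_of_nonneg_left h2 (by positivity))
  have h4 : δ ≤ Real.exp (-(b * K)) * ε / (2 * H.L ^ 4) := min_le_right _ _
  have h5 : H.L ^ 3 * (H.L * δ) ≤ Real.exp (-(b * K)) * (ε / 2) := by
    calc H.L ^ 3 * (H.L * δ) = H.L ^ 4 * δ := by ring
      _ ≤ H.L ^ 4 * (Real.exp (-(b * K)) * ε / (2 * H.L ^ 4)) :=
          mul_le_mul_of_nonneg_left h4 (by positivity)
      _ = _ := by field_simp
  have h6 := le_of_mul_le_mul_left (h3.trans h5) hEb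
  linarith

/-- The radius on which all estimates hold at time zero. -/
noncomputable def R0 : ℝ := min T.ρ (min T.ρ (T.σ / 2) / (2 * H.L ^ 3))

theorem R0_pos : 0 < T.R0 := by
  have hL0 := H.L_pos
  have hε : 0 < min T.ρ (T.σ / 2) := lt_min T.hρ (half_pos T.hσ)
  exact lt_min T.hρ (by positivity)

theorem w_R0 (ha : 0 < a) (x : M) (v : H.Es x) (hv : ‖v‖ ≤ T.R0) (k : ℕ) :
    H.L * ‖T.w x v k‖ ≤ min T.ρ (T.σ / 2) := by
  have hL0 := H.L_pos
  have h1 : ‖v‖ ≤ min T.ρ (T.σ / 2) / (2 * H.L ^ 3) := hv.trans (min_le_right _ _)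
  have h6 : Real.exp (-(a * k)) ≤ 1 := by
    rw [Real.exp_le_one_iff]
    have : 0 ≤ a * k := by positivity
    linarith
  calc H.L * ‖T.w x v k‖ ≤ H.L * (2 * H.L ^ 2 * Real.exp (-(a * k)) * ‖v‖) :=
        mul_le_mul_of_nonneg_left (T.w_le x v k) hL0.le
    _ ≤ H.L * (2 * H.L ^ 2 * 1 * ‖v‖) := by
        apply mul_le_mul_of_nonneg_left _ hL0.le
        apply mul_le_mul_of_nonneg_right _ (norm_nonneg _)
        apply mul_le_mul_of_nonneg_left h6 (by positivity)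
    _ = 2 * H.L ^ 3 * ‖v‖ := by ring
    _ ≤ 2 * H.L ^ 3 * (min T.ρ (T.σ / 2) / (2 * H.L ^ 3)) :=
        mul_le_mul_of_nonneg_left h1 (by positivity)
    _ = _ := by field_simp

end TS

theorem Loc.exists_sparam [CompactSpace M] [FiniteDimensional ℝ E] (H : Loc M E) {a b : ℝ}
    (ha : 0 < a) (hab : a ≤ b) (ha' : H.l2 < Real.exp (-a)) (hb' : Real.exp (-b) < H.l1) :
    Nonempty (SParam H a b) := by
  obtain ⟨T⟩ := H.exists_TS ha hab ha' hb'
  have hL := H.hL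
  have hL0 := H.L_pos
  have hC1 := T.hCc
  have hC0 : 0 < T.Cc := lt_of_lt_of_le one_pos T.hCc
  refine ⟨{
    θ := T.θ ha
    R0 := T.R0
    hR0 := T.R0_pos
    hR0r := (min_le_left _ _).trans T.hρr
    K0 := T.Cc * (2 * H.L ^ 3) + H.L ^ 4
    hK0 := by
      have : (1 : ℝ) ≤ H.L ^ 4 := one_le_pow₀ hL
      have h2 : 0 ≤ T.Cc * (2 * H.L ^ 3) := by positivity
      linarith
    zero := T.θ_zero ha
    lip := T.θ_lip ha hab
    inj := T.θ_inj ha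
    surj := T.θ_surj ha
    inv := T.θ_inv ha
    unif := ?_
    loc := ?_
    coord := ?_ }⟩
  · intro x v w hv hw
    have h1 := T.θ_cmp ha x v w 0 (fun k _ => T.w_R0 ha x v hv k) (fun k _ => T.w_R0 ha x w hw k)
    simp only [iterate_zero, id_eq] at h1
    refine h1.mono ?_
    have h2 : 0 ≤ H.L ^ 4 * ‖v - w‖ := by positivity
    calc T.Cc * (2 * H.L ^ 3 * ‖v - w‖) = T.Cc * (2 * H.L ^ 3) * ‖v - w‖ := by ring
      _ ≤ T.Cc * (2 * H.L ^ 3) * ‖v - w‖ + H.L ^ 4 * ‖v - w‖ := by linarith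
      _ = _ := by ring
  · intro x y t ht h
    have ht0 := TS.SRel_nonneg (H := H) h
    have hd := TS.SRel_dist (H := H) ha h
    have hdρ : ∀ k : ℕ, dist (H.f^[k] x) (H.f^[k] y) ≤ T.ρ := fun k =>
      (hd k).trans (ht.trans (min_le_left _ _))
    have hB : ∀ k : ℕ, ‖H.c (H.f^[k] x) (H.f^[k] y)‖ ≤ H.L * t := fun k =>
      (TS.norm_c_le H ((hdρ k).trans T.hρr)).trans (mul_le_mul_of_nonneg_left (hd k) hL0.le)
    refine ⟨⟨H.P x (H.c x y), H.P_mem x _⟩, ?_, ?_⟩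
    · have h1 : ‖H.P x (H.c x y)‖ ≤ H.L ^ 3 * ‖H.c x y‖ := H.norm_P_le x _
      have h2 : ‖H.c x y‖ ≤ H.L * t := hB 0
      have h3 : 0 ≤ T.Cc * (2 * H.L ^ 3) * t := by positivity
      calc ‖H.P x (H.c x y)‖ ≤ H.L ^ 3 * (H.L * t) :=
            h1.trans (mul_le_mul_of_nonneg_left h2 (by positivity))
        _ = H.L ^ 4 * t := by ring
        _ ≤ (T.Cc * (2 * H.L ^ 3) + H.L ^ 4) * t := by linarith [add_mul (T.Cc * (2 * H.L ^ 3)) (H.L ^ 4) t]
    · exact T.θ_eq ha x _ y (fun k => H.c (H.f^[k] x) (H.f^[k] y)) (H.L * t)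
        (T.orb_of_close x y hdρ) hB rfl 0 (fun k _ => ⟨hdρ k, rfl⟩)
  · intro x v hv
    have h1 := T.θ_spec ha x v 0 (fun j _ => (T.w_R0 ha x v hv j).trans (min_le_left _ _))
    simp only [iterate_zero, id_eq] at h1
    refine ⟨h1.1.trans (((T.w_R0 ha x v hv 0).trans (min_le_left _ _)).trans T.hρr), ?_⟩
    rw [h1.2, T.w_P]

end Pool.Agent.ANO
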