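import Mathlib
import Pool.Agent.ANO.THS
import Pool.Agent.ANO.LSY

open Set Metric Function

namespace Pool.Agent.ANO

variable {M : Type} [MetricSpace M] {E : Type} [NormedAddCommGroup E] [NormedSpace ℝ E]

/-- The points of a local stable leaf are at distance at most `K0 ‖v‖` from the centre. -/
theorem SParam.rel_zero {H : Loc M E} {a b : ℝ} (Ps : SParam H a b) (x : M) (v : H.Es x)
    (hv : ‖v‖ ≤ Ps.R0) : SRel H.f a b x (Ps.θ x v) (Ps.K0 * ‖v‖) := by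
  have h := Ps.unif x 0 v (by rw [norm_zero]; exact Ps.hR0.le) hv
  rw [Ps.zero x, zero_sub, norm_neg] at h
  exact h

/-- In coordinates the parametrisation of a local stable leaf is close to the inclusion. -/
theorem SParam.coord_approx [CompactSpace M] [FiniteDimensional ℝ E] {H : Loc M E} {a b : ℝ}
    (ha : 0 < a) (Ps : SParam H a b) (κ : ℝ) (hκ : 0 < κ) :
    ∃ R > 0, R ≤ Ps.R0 ∧ ∀ (x : M) (v w : H.Es x), ‖v‖ ≤ R → ‖w‖ ≤ R →
      ‖H.c x (Ps.θ x v) - H.c x (Ps.θ x w) - ((v : E) - w)‖ ≤ κ * ‖v - w‖ := by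
  obtain ⟨Rg, hRg, -, hg⟩ := H.graph (a := a) (b := b) ha κ hκ
  have hK : 0 < Ps.K0 := lt_of_lt_of_le one_pos Ps.hK0
  refine ⟨min Ps.R0 (Rg / Ps.K0), lt_min Ps.hR0 (div_pos hRg hK), min_le_left _ _, ?_⟩
  intro x v w hv hw
  have key : ∀ u : H.Es x, ‖u‖ ≤ min Ps.R0 (Rg / Ps.K0) → SRel H.f a b x (Ps.θ x u) Rg := by
    intro u hu
    refine SRel.mono ?_ (Ps.rel_zero x u (hu.trans (min_le_left _ _)))
    have h := hu.trans (min_le_right _ _)
    rw [le_div_iff₀ hK] at h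
    linarith [mul_comm ‖u‖ Ps.K0]
  have h := hg x _ _ (key v hv) (key w hw)
  have hP : H.P x (H.c x (Ps.θ x v) - H.c x (Ps.θ x w)) = (v : E) - w := by
    rw [map_sub, (Ps.coord x v (hv.trans (min_le_left _ _))).2,
      (Ps.coord x w (hw.trans (min_le_left _ _))).2]
  rw [hP] at h
  have : ‖(v : E) - w‖ = ‖v - w‖ := by
    rw [← Submodule.coe_sub, Submodule.coe_norm]
  rw [this] at h
  exact h

/-- The local product structure. -/
theorem Trans.bracket [CompactSpace M] [FiniteDimensional ℝ E] {H : Loc M E} (T : Trans H)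
    {a b c e : ℝ} (ha : 0 < a) (hc : 0 < c) (Ps : SParam H a b) (Pu : SParam H.symm c e) :
    ∀ ε > 0, ∃ δ > 0, ∀ x y, dist x y < δ →
      ∃ z, SRel H.f a b x z ε ∧ SRel H.f.symm c e y z ε := by
  intro ε hε
  have hL : 0 < H.L := lt_of_lt_of_le one_pos H.hL
  have hκT := T.hκ
  have hr := H.hr
  set κ1 : ℝ := min 1 (T.κ / (8 * H.L)) with hκ1
  have hκ1pos : 0 < κ1 := lt_min one_pos (by positivity)
  have hκ1one : κ1 ≤ 1 := min_le_left _ _
  have hκ1L : 8 * H.L * κ1 ≤ T.κ := by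
    have h : κ1 ≤ T.κ / (8 * H.L) := min_le_right _ _
    rw [le_div_iff₀ (by positivity)] at h
    linarith [mul_comm κ1 (8 * H.L)]
  obtain ⟨Rs, hRs, hRs0, hs⟩ := Ps.coord_approx ha κ1 hκ1pos
  obtain ⟨Ru, hRu, hRu0, hu⟩ := Pu.coord_approx hc κ1 hκ1pos
  obtain ⟨δ0, hδ0, chg⟩ := T.chg (T.κ / 8) (by positivity)
  have hKs : 0 < Ps.K0 := lt_of_lt_of_le one_pos Ps.hK0
  have hKu : 0 < Pu.K0 := lt_of_lt_of_le one_pos Pu.hK0
  obtain ⟨ρ, hρ, h1, h2, h3, h4, h5, h6⟩ : ∃ ρ > 0, ρ ≤ Rs ∧ ρ ≤ Ru ∧ Ps.K0 * ρ ≤ ε ∧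
      Pu.K0 * ρ ≤ ε ∧ Pu.K0 * ρ ≤ δ0 ∧ Pu.K0 * ρ ≤ H.r / 2 := by
    refine ⟨min (min Rs Ru) (min (ε / Ps.K0) (min (ε / Pu.K0) (min (δ0 / Pu.K0) (H.r / 2 / Pu.K0)))),
      by positivity, (min_le_left _ _).trans (min_le_left _ _),
      (min_le_left _ _).trans (min_le_right _ _), ?_, ?_, ?_, ?_⟩
    · rw [← le_div_iff₀' hKs]
      exact (min_le_right _ _).trans (min_le_left _ _)
    · rw [← le_div_iff₀' hKu]
      exact ((min_le_right _ _).trans (min_le_right _ _)).trans (min_le_left _ _)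
    · rw [← le_div_iff₀' hKu]
      exact (((min_le_right _ _).trans (min_le_right _ _)).trans (min_le_right _ _)).trans
        (min_le_left _ _)
    · rw [← le_div_iff₀' hKu]
      exact (((min_le_right _ _).trans (min_le_right _ _)).trans (min_le_right _ _)).trans
        (min_le_right _ _)
  refine ⟨min (min T.ρ δ0) (min (H.r / 2) (T.κ / 2 * ρ / H.L)), ?_, ?_⟩
  · have := T.hρ
    positivity
  intro x y hxy
  have hxy1 : dist x y ≤ T.ρ :=
    (hxy.trans_le ((min_le_left _ _).trans (min_le_left _ _))).le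
  have hxy2 : dist x y ≤ δ0 :=
    (hxy.trans_le ((min_le_left _ _).trans (min_le_right _ _))).le
  have hxy3 : dist x y ≤ H.r / 2 :=
    (hxy.trans_le ((min_le_right _ _).trans (min_le_left _ _))).le
  have hxy4 : H.L * dist x y ≤ T.κ / 2 * ρ := by
    have h : dist x y ≤ T.κ / 2 * ρ / H.L :=
      (hxy.trans_le ((min_le_right _ _).trans (min_le_right _ _))).le
    rw [le_div_iff₀ hL] at h
    linarith [mul_comm (dist x y) H.L]
  -- the points of the two leaves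
  have hdu : ∀ ξ : H.Eu y, ‖ξ‖ ≤ ρ → dist y (Pu.θ y ξ) ≤ Pu.K0 * ρ := by
    intro ξ hξ
    have h := (Pu.rel_zero y ξ (hξ.trans (h2.trans hRu0))).dist_le
    exact h.trans (mul_le_mul_of_nonneg_left hξ hKu.le)
  -- the linear model
  let Λ : (H.Es x × H.Eu y) →L[ℝ] E :=
    ((H.Es x).subtypeL.comp (ContinuousLinearMap.fst ℝ (H.Es x) (H.Eu y))) -
      ((T.B x y).comp ((H.Eu y).subtypeL.comp (ContinuousLinearMap.snd ℝ (H.Es x) (H.Eu y))))
  have hΛ : ∀ p, Λ p = (p.1 : E) - T.B x y (p.2 : E) := fun p => rfl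
  have hlow : ∀ p, T.κ * ‖p‖ ≤ ‖Λ p‖ := by
    intro p
    have h := T.tr x y hxy1 p.1 p.1.2 p.2 p.2.2
    rw [hΛ]
    refine le_trans (mul_le_mul_of_nonneg_left ?_ hκT.le) h
    rw [Prod.norm_def]
    exact max_le (by rw [Submodule.coe_norm]; linarith [norm_nonneg (p.2 : E)])
      (by rw [Submodule.coe_norm]; linarith [norm_nonneg (p.1 : E)])
  have hinj : Injective Λ := by
    rw [← ContinuousLinearMap.coe_coe, injective_iff_map_eq_zero]
    intro p hp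
    have h := hlow p
    have hp' : Λ p = 0 := hp
    rw [hp', norm_zero] at h
    have : ‖p‖ ≤ 0 := by
      by_contra hcon
      push Not at hcon
      have := mul_pos hκT hcon
      linarith
    exact norm_le_zero_iff.1 this
  have hsurj : Surjective Λ := by
    have hfr : Module.finrank ℝ (H.Es x × H.Eu y) = Module.finrank ℝ E := by
      rw [Module.finrank_prod]
      exact T.dim x y hxy1
    exact (LinearMap.injective_iff_surjective_of_finrank_eq_finrank (f := Λ.toLinearMap) hfr).1 hinj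
  let inv : Λ.NonlinearRightInverse :=
    { toFun := fun z => Classical.choose (hsurj z)
      nnnorm := ⟨T.κ⁻¹, by positivity⟩
      bound' := by
        intro z
        have h := hlow (Classical.choose (hsurj z))
        rw [Classical.choose_spec (hsurj z)] at h
        change _ ≤ T.κ⁻¹ * ‖z‖
        rw [inv_mul_eq_div, le_div_iff₀ hκT, mul_comm]
        exact h
      right_inv' := fun z => Classical.choose_spec (hsurj z) }
  let F : (H.Es x × H.Eu y) → E := fun p => H.c x (Ps.θ x p.1) - H.c x (Pu.θ y p.2)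
  have hFap : ApproximatesLinearOn F Λ (closedBall 0 ρ) ⟨T.κ / 2, by positivity⟩ := by
    intro p hp q hq
    rw [mem_closedBall_zero_iff] at hp hq
    have hp1 : ‖p.1‖ ≤ ρ := (norm_fst_le p).trans hp
    have hp2 : ‖p.2‖ ≤ ρ := (norm_snd_le p).trans hp
    have hq1 : ‖q.1‖ ≤ ρ := (norm_fst_le q).trans hq
    have hq2 : ‖q.2‖ ≤ ρ := (norm_snd_le q).trans hq
    have e1 := hs x p.1 q.1 (hp1.trans h1) (hq1.trans h1)
    have e2 : ‖H.c y (Pu.θ y p.2) - H.c y (Pu.θ y q.2) - ((p.2 : E) - q.2)‖ ≤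
        κ1 * ‖p.2 - q.2‖ := hu y p.2 q.2 (hp2.trans h2) (hq2.trans h2)
    have e3 := chg x y (Pu.θ y p.2) (Pu.θ y q.2) hxy2 ((hdu p.2 hp2).trans h5)
      ((hdu q.2 hq2).trans h5)
    set Δ := H.c y (Pu.θ y p.2) - H.c y (Pu.θ y q.2) with hΔ
    have e4 : ‖T.B x y (Δ - ((p.2 : E) - q.2))‖ ≤ H.L * (κ1 * ‖p.2 - q.2‖) :=
      (T.B_le x y _ hxy1).trans (mul_le_mul_of_nonneg_left e2 hL.le)
    have hn : ‖((p.2 : E) - q.2)‖ = ‖p.2 - q.2‖ := by
      rw [← Submodule.coe_sub, Submodule.coe_norm]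
    have e5 : ‖Δ‖ ≤ (1 + κ1) * ‖p.2 - q.2‖ := by
      have : Δ = (Δ - ((p.2 : E) - q.2)) + ((p.2 : E) - q.2) := by abel
      rw [this]
      refine (norm_add_le _ _).trans ?_
      rw [hn]
      linarith
    have hid : F p - F q - Λ (p - q) =
        (H.c x (Ps.θ x p.1) - H.c x (Ps.θ x q.1) - ((p.1 : E) - q.1)) -
        (H.c x (Pu.θ y p.2) - H.c x (Pu.θ y q.2) - T.B x y Δ) -
        T.B x y (Δ - ((p.2 : E) - q.2)) := by
      rw [hΛ]
      simp only [F, Prod.fst_sub, Prod.snd_sub, Submodule.coe_sub, map_sub]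
      abel
    rw [hid]
    have hd1 : ‖p.1 - q.1‖ ≤ ‖p - q‖ := norm_fst_le (p - q)
    have hd2 : ‖p.2 - q.2‖ ≤ ‖p - q‖ := norm_snd_le (p - q)
    have t1 : κ1 * ‖p.1 - q.1‖ ≤ κ1 * ‖p - q‖ := mul_le_mul_of_nonneg_left hd1 hκ1pos.le
    have t2 : T.κ / 8 * ‖Δ‖ ≤ T.κ / 8 * (2 * ‖p - q‖) := by
      refine mul_le_mul_of_nonneg_left (e5.trans ?_) (by positivity)
      have := mul_le_mul (by linarith : 1 + κ1 ≤ 2) hd2 (norm_nonneg _) (by norm_num : (0:ℝ) ≤ 2)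
      exact this
    have t3 : H.L * (κ1 * ‖p.2 - q.2‖) ≤ H.L * κ1 * ‖p - q‖ := by
      rw [← mul_assoc]
      exact mul_le_mul_of_nonneg_left hd2 (by positivity)
    have t4 : κ1 * ‖p - q‖ ≤ H.L * κ1 * ‖p - q‖ := by
      refine mul_le_mul_of_nonneg_right ?_ (norm_nonneg _)
      nlinarith [H.hL]
    have t5 : 8 * H.L * κ1 * ‖p - q‖ ≤ T.κ * ‖p - q‖ :=
      mul_le_mul_of_nonneg_right hκ1L (norm_nonneg _)
    have hsum := (norm_sub_le (H.c x (Ps.θ x p.1) - H.c x (Ps.θ x q.1) - ((p.1 : E) - q.1) -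
        (H.c x (Pu.θ y p.2) - H.c x (Pu.θ y q.2) - T.B x y Δ)) (T.B x y (Δ - ((p.2 : E) - q.2))))
    have hsum2 := norm_sub_le (H.c x (Ps.θ x p.1) - H.c x (Ps.θ x q.1) - ((p.1 : E) - q.1))
        (H.c x (Pu.θ y p.2) - H.c x (Pu.θ y q.2) - T.B x y Δ)
    change _ ≤ T.κ / 2 * ‖p - q‖
    have e3' : ‖H.c x (Pu.θ y p.2) - H.c x (Pu.θ y q.2) - T.B x y Δ‖ ≤ T.κ / 8 * ‖Δ‖ := e3
    nlinarith
  have : CompleteSpace (H.Es x × H.Eu y) := FiniteDimensional.complete ℝ _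
  have hS0 := hFap.surjOn_closedBall_of_nonlinearRightInverse inv hρ.le (b := 0) (subset_refl _)
  have hS : SurjOn F (closedBall 0 ρ) (closedBall (F 0) (T.κ / 2 * ρ)) := by
    convert hS0 using 2
    change _ = ((T.κ⁻¹)⁻¹ - T.κ / 2) * ρ
    rw [inv_inv]
    ring
  have hF0 : ‖F 0‖ ≤ H.L * dist x y := by
    have : F 0 = H.c x x - H.c x y := by
      simp only [F, Prod.fst_zero, Prod.snd_zero]
      rw [Ps.zero x]
      have : Pu.θ y (0 : H.Eu y) = y := Pu.zero y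
      rw [this]
    rw [this]
    exact H.c_le x x y (by rw [dist_self]; exact hr.le) (by linarith)
  have h0 : (0 : E) ∈ closedBall (F 0) (T.κ / 2 * ρ) := by
    rw [mem_closedBall, dist_comm, dist_zero_right]
    exact hF0.trans hxy4
  obtain ⟨p, hp, hp0⟩ := hS h0
  rw [mem_closedBall_zero_iff] at hp
  have hp1 : ‖p.1‖ ≤ ρ := (norm_fst_le p).trans hp
  have hp2 : ‖p.2‖ ≤ ρ := (norm_snd_le p).trans hp
  have hce : H.c x (Ps.θ x p.1) = H.c x (Pu.θ y p.2) := sub_eq_zero.1 hp0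
  have hz : Ps.θ x p.1 = Pu.θ y p.2 := by
    have hd := H.le_c x (Ps.θ x p.1) (Pu.θ y p.2) (Ps.coord x p.1 (hp1.trans (h1.trans hRs0))).1
      ?_
    · rw [hce, sub_self, norm_zero, mul_zero] at hd
      exact dist_le_zero.1 hd
    · have t1 := dist_triangle x y (Pu.θ y p.2)
      have t2 := hdu p.2 hp2
      linarith
  refine ⟨Ps.θ x p.1, ?_, ?_⟩
  · refine SRel.mono ?_ (Ps.rel_zero x p.1 (hp1.trans (h1.trans hRs0)))
    exact (mul_le_mul_of_nonneg_left hp1 hKs.le).trans h3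
  · rw [hz]
    refine SRel.mono ?_ (Pu.rel_zero y p.2 (hp2.trans (h2.trans hRu0)))
    exact (mul_le_mul_of_nonneg_left hp2 hKu.le).trans h4

end Pool.Agent.ANO
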