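import Mathlib
import Pool.Agent.ANO.Man

open Set Metric Function
open scoped Manifold ContDiff

namespace Pool.Agent.ANO

variable {d : ℕ} {M : Type} [TopologicalSpace M] [ChartedSpace (EuclideanSpace ℝ (Fin d)) M]
  [IsManifold (𝓡 d) ∞ M]

omit [IsManifold (𝓡 d) ∞ M] in
theorem pwr_contMDiff_iterate {f : M → M} (hf : ContMDiff (𝓡 d) (𝓡 d) 1 f) (k : ℕ) :
    ContMDiff (𝓡 d) (𝓡 d) 1 (Nat.iterate f k) := by
  induction k with
  | zero => exact contMDiff_id
  | succ k ih => exact ih.comp hf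

theorem pwr_inv {f : M → M} (hf : ContMDiff (𝓡 d) (𝓡 d) 1 f)
    (E : ∀ x : M, Submodule ℝ (TangentSpace (𝓡 d) x))
    (inv : ∀ (x : M) (v : TangentSpace (𝓡 d) x), v ∈ E x →
      mfderiv (𝓡 d) (𝓡 d) f x v ∈ E (f x)) (k : ℕ) :
    ∀ (x : M) (v : TangentSpace (𝓡 d) x), v ∈ E x →
      mfderiv (𝓡 d) (𝓡 d) (Nat.iterate f k) x v ∈ E (Nat.iterate f k x) := by
  induction k with
  | zero =>
    intro x v hv
    have h : mfderiv (𝓡 d) (𝓡 d) (Nat.iterate f 0) x = ContinuousLinearMap.id ℝ (TangentSpace (𝓡 d) x) := by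
      exact mfderiv_id
    rw [h]
    exact hv
  | succ k ih =>
    intro x v hv
    have hfk : MDifferentiableAt (𝓡 d) (𝓡 d) (Nat.iterate f k) (f x) :=
      ((pwr_contMDiff_iterate hf k) (f x)).mdifferentiableAt (by norm_num)
    have hf1 : MDifferentiableAt (𝓡 d) (𝓡 d) f x := (hf x).mdifferentiableAt (by norm_num)
    have h : mfderiv (𝓡 d) (𝓡 d) (Nat.iterate f (k + 1)) x =
        (mfderiv (𝓡 d) (𝓡 d) (Nat.iterate f k) (f x)).comp (mfderiv (𝓡 d) (𝓡 d) f x) := by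
      exact mfderiv_comp x hfk hf1
    rw [h]
    exact ih (f x) _ (inv x v hv)

theorem pwr_arith (L a b c e : ℝ) (hL : 0 ≤ L) (ha : 0 < a) (hab : a ≤ b) (hc : 0 < c) (hce : c ≤ e)
    (pinch : (b - a) * (e - c) < a * c) :
    ∃ m : ℕ, L < a * m ∧ L < c * m ∧
      ((b - a) * m + 2 * L) * ((e - c) * m + 2 * L) < (a * m - L) * (c * m - L) := by
  set δ := a * c - (b - a) * (e - c) with hδ
  have hδ0 : 0 < δ := by rw [hδ]; linarith
  set K := 2 * L * ((b - a) + (e - c)) + L * (a + c) with hK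
  have hK0 : 0 ≤ K := by
    rw [hK]
    have h1 : 0 ≤ (b - a) + (e - c) := by linarith
    have h2 : 0 ≤ a + c := by linarith
    positivity
  obtain ⟨m, hm⟩ := exists_nat_gt (max (max (L / a) (L / c)) (max ((K + 3 * L ^ 2) / δ) 1))
  have hm1 : L / a < m := lt_of_le_of_lt (le_trans (le_max_left _ _) (le_max_left _ _)) hm
  have hm2 : L / c < m := lt_of_le_of_lt (le_trans (le_max_right _ _) (le_max_left _ _)) hm
  have hm3 : (K + 3 * L ^ 2) / δ < m :=
    lt_of_le_of_lt (le_trans (le_max_left _ _) (le_max_right _ _)) hm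
  have hm4 : (1 : ℝ) < m := lt_of_le_of_lt (le_trans (le_max_right _ _) (le_max_right _ _)) hm
  rw [div_lt_iff₀ ha] at hm1
  rw [div_lt_iff₀ hc] at hm2
  rw [div_lt_iff₀ hδ0] at hm3
  refine ⟨m, by linarith, by linarith, ?_⟩
  have h1 : (K + 3 * L ^ 2) * m < (m * δ) * m := by
    apply mul_lt_mul_of_pos_right hm3; linarith
  have h2 : 3 * L ^ 2 ≤ 3 * L ^ 2 * m := by
    have : (0 : ℝ) ≤ 3 * L ^ 2 := by positivity
    nlinarith
  have h3 : K * m + 3 * L ^ 2 < m * δ * m := by nlinarith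
  rw [hδ, hK] at h3
  nlinarith

/-- A power of a pinched Anosov diffeomorphism is hyperbolic in one step, with pinched constants. -/
theorem exists_anosov1 (f g : M → M) (hf : ContMDiff (𝓡 d) (𝓡 d) 1 f)
    (hg : ContMDiff (𝓡 d) (𝓡 d) 1 g) (gf : LeftInverse g f) (fg : RightInverse g f)
    (N : ∀ x : M, TangentSpace (𝓡 d) x → ℝ)
    (N_cont : Continuous (fun p : TangentBundle (𝓡 d) M => N p.proj p.snd))
    (N_add : ∀ (x : M) (v w : TangentSpace (𝓡 d) x), N x (v + w) ≤ N x v + N x w)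
    (N_smul : ∀ (x : M) (c : ℝ) (v : TangentSpace (𝓡 d) x), N x (c • v) = |c| * N x v)
    (N_pos : ∀ (x : M) (v : TangentSpace (𝓡 d) x), N x v = 0 → v = 0)
    (C a b c e : ℝ) (hC : 0 < C) (ha : 0 < a) (hab : a ≤ b) (hc : 0 < c) (hce : c ≤ e)
    (pinch : (b - a) * (e - c) < a * c)
    (Es Eu : ∀ x : M, Submodule ℝ (TangentSpace (𝓡 d) x))
    (hcompl : ∀ x : M, IsCompl (Es x) (Eu x))
    (inv_s : ∀ (x : M) (v : TangentSpace (𝓡 d) x), v ∈ Es x →
      mfderiv (𝓡 d) (𝓡 d) f x v ∈ Es (f x))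
    (inv_u : ∀ (x : M) (v : TangentSpace (𝓡 d) x), v ∈ Eu x →
      mfderiv (𝓡 d) (𝓡 d) f x v ∈ Eu (f x))
    (s_hi : ∀ (x : M) (v : TangentSpace (𝓡 d) x), v ∈ Es x → ∀ k : ℕ,
      N (Nat.iterate f k x) (mfderiv (𝓡 d) (𝓡 d) (Nat.iterate f k) x v) ≤
        C * Real.exp (-(a * k)) * N x v)
    (s_lo : ∀ (x : M) (v : TangentSpace (𝓡 d) x), v ∈ Es x → ∀ k : ℕ,
      Real.exp (-(b * k)) * N x v ≤
        C * N (Nat.iterate f k x) (mfderiv (𝓡 d) (𝓡 d) (Nat.iterate f k) x v))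
    (u_lo : ∀ (x : M) (v : TangentSpace (𝓡 d) x), v ∈ Eu x → ∀ k : ℕ,
      Real.exp (c * k) * N x v ≤
        C * N (Nat.iterate f k x) (mfderiv (𝓡 d) (𝓡 d) (Nat.iterate f k) x v))
    (u_hi : ∀ (x : M) (v : TangentSpace (𝓡 d) x), v ∈ Eu x → ∀ k : ℕ,
      N (Nat.iterate f k x) (mfderiv (𝓡 d) (𝓡 d) (Nat.iterate f k) x v) ≤
        C * Real.exp (e * k) * N x v) :
    ∃ 𝒜 : Anosov1 d M, (Real.log 𝒜.l2 - Real.log 𝒜.l1) * (Real.log 𝒜.m1 - Real.log 𝒜.m2) <
      (-Real.log 𝒜.l2) * Real.log 𝒜.m2 := by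
  have N_nonneg : ∀ (x : M) (v : TangentSpace (𝓡 d) x), 0 ≤ N x v := by
    intro x v
    have h0 : N x ((0 : ℝ) • v) = 0 := by rw [N_smul]; simp
    have h1 : N x ((-1 : ℝ) • v) = N x v := by rw [N_smul]; simp
    have h2 := N_add x v ((-1 : ℝ) • v)
    have h3 : v + (-1 : ℝ) • v = (0 : ℝ) • v := by
      rw [zero_smul, neg_one_smul, add_neg_cancel]
    rw [h3, h0, h1] at h2
    linarith
  set D := max C 1 with hD
  have hD1 : 1 ≤ D := le_max_right _ _
  have hDC : C ≤ D := le_max_left _ _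
  have hD0 : 0 < D := by linarith
  set L := Real.log D with hLd
  have hL : 0 ≤ L := Real.log_nonneg hD1
  have hDL : D = Real.exp L := (Real.exp_log hD0).symm
  obtain ⟨m, hm1, hm2, hm3⟩ := pwr_arith L a b c e hL ha hab hc hce pinch
  have hm0 : (0 : ℝ) ≤ (m : ℝ) := Nat.cast_nonneg m
  have habm : a * m ≤ b * m := mul_le_mul_of_nonneg_right hab hm0
  have hcem : c * m ≤ e * m := mul_le_mul_of_nonneg_right hce hm0
  refine ⟨{
    f := Nat.iterate f m
    g := Nat.iterate g m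
    hf := pwr_contMDiff_iterate hf m
    hg := pwr_contMDiff_iterate hg m
    gf := gf.iterate m
    fg := fg.iterate m
    N := N
    N_cont := N_cont
    N_add := N_add
    N_smul := N_smul
    N_pos := N_pos
    l1 := Real.exp (-(b * m) - L)
    l2 := Real.exp (L - a * m)
    m2 := Real.exp (c * m - L)
    m1 := Real.exp (L + e * m)
    hl1 := Real.exp_pos _
    hl12 := Real.exp_le_exp.mpr (by linarith)
    hl2 := by
      rw [Real.exp_lt_one_iff]
      linarith
    hm2 := by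
      rw [Real.one_lt_exp_iff]
      linarith
    hm12 := Real.exp_le_exp.mpr (by linarith)
    Es := Es
    Eu := Eu
    compl := hcompl
    inv_s := pwr_inv hf Es inv_s m
    inv_u := pwr_inv hf Eu inv_u m
    s_lo := ?_
    s_hi := ?_
    u_lo := ?_
    u_hi := ?_ }, ?_⟩
  · intro x v hv
    have h := s_lo x v hv m
    have hn := N_nonneg (Nat.iterate f m x) (mfderiv (𝓡 d) (𝓡 d) (Nat.iterate f m) x v)
    have h2 : Real.exp (-(b * m)) * N x v ≤
        D * N (Nat.iterate f m x) (mfderiv (𝓡 d) (𝓡 d) (Nat.iterate f m) x v) :=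
      h.trans (mul_le_mul_of_nonneg_right hDC hn)
    rw [Real.exp_sub, ← hDL, div_mul_eq_mul_div, div_le_iff₀ hD0]
    linarith
  · intro x v hv
    have h := s_hi x v hv m
    have hn := N_nonneg x v
    have h2 : C * Real.exp (-(a * m)) * N x v ≤ D * Real.exp (-(a * m)) * N x v := by
      apply mul_le_mul_of_nonneg_right _ hn
      exact mul_le_mul_of_nonneg_right hDC (Real.exp_pos _).le
    have h3 : Real.exp (L - a * m) = D * Real.exp (-(a * m)) := by
      rw [sub_eq_add_neg, Real.exp_add, ← hDL]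
    rw [h3]
    exact h.trans h2
  · intro x v hv
    have h := u_lo x v hv m
    have hn := N_nonneg (Nat.iterate f m x) (mfderiv (𝓡 d) (𝓡 d) (Nat.iterate f m) x v)
    have h2 : Real.exp (c * m) * N x v ≤
        D * N (Nat.iterate f m x) (mfderiv (𝓡 d) (𝓡 d) (Nat.iterate f m) x v) :=
      h.trans (mul_le_mul_of_nonneg_right hDC hn)
    rw [Real.exp_sub, ← hDL, div_mul_eq_mul_div, div_le_iff₀ hD0]
    linarith
  · intro x v hv
    have h := u_hi x v hv m
    have hn := N_nonneg x v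
    have h2 : C * Real.exp (e * m) * N x v ≤ D * Real.exp (e * m) * N x v := by
      apply mul_le_mul_of_nonneg_right _ hn
      exact mul_le_mul_of_nonneg_right hDC (Real.exp_pos _).le
    have h3 : Real.exp (L + e * m) = D * Real.exp (e * m) := by
      rw [Real.exp_add, ← hDL]
    rw [h3]
    exact h.trans h2
  · simp only [Real.log_exp]
    have e1 : (L - a * m - (-(b * m) - L)) = (b - a) * m + 2 * L := by ring
    have e2 : (L + e * m - (c * m - L)) = (e - c) * m + 2 * L := by ring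
    rw [e1, e2]
    linarith

end Pool.Agent.ANO
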