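import Mathlib
import Pool.Agent.ANO.Man

open Set Metric Function
open scoped Manifold ContDiff

namespace Pool.Agent.ANO

variable {d : ℕ} {M : Type} [MetricSpace M] [ChartedSpace (EuclideanSpace ℝ (Fin d)) M]
  [IsManifold (𝓡 d) ∞ M]

/-- The metric induced by an immersion is bi-Lipschitz in the charts. -/
theorem chartLip {N : ℕ} (e : M → EuclideanSpace ℝ (Fin N)) (he : ContMDiff (𝓡 d) (𝓡 N) ∞ e)
    (hinj : ∀ x, Injective (mfderiv (𝓡 d) (𝓡 N) e x)) (hd : ∀ x y, dist x y = dist (e x) (e y))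
    (p : M) : ∃ C ≥ 1, ∃ ρ > 0, ball p ρ ⊆ (chartAt (EuclideanSpace ℝ (Fin d)) p).source ∧
      ∀ y ∈ ball p ρ, ∀ z ∈ ball p ρ,
        ‖extChartAt (𝓡 d) p y - extChartAt (𝓡 d) p z‖ ≤ C * dist y z ∧
        dist y z ≤ C * ‖extChartAt (𝓡 d) p y - extChartAt (𝓡 d) p z‖ := by
  set φ := extChartAt (𝓡 d) p with hφ
  set g : EuclideanSpace ℝ (Fin d) → EuclideanSpace ℝ (Fin N) := fun u => e (φ.symm u) with hg
  have hps : p ∈ φ.source := mem_extChartAt_source p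
  have hpt : φ p ∈ φ.target := φ.map_source hps
  have htgt : IsOpen φ.target := isOpen_extChartAt_target p
  have hgs : ContMDiffOn 𝓘(ℝ, EuclideanSpace ℝ (Fin d)) (𝓡 N) ∞ g φ.target :=
    he.comp_contMDiffOn (contMDiffOn_extChartAt_symm p)
  have hgd : ContDiffOn ℝ ∞ g φ.target := contMDiffOn_iff_contDiffOn.1 hgs
  have hga : ContDiffAt ℝ ∞ g (φ p) := hgd.contDiffAt (htgt.mem_nhds hpt)
  have hstr : HasStrictFDerivAt g (fderiv ℝ g (φ p)) (φ p) :=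
    hga.hasStrictFDerivAt (by simp)
  -- injectivity of the derivative
  have hgm : MDifferentiableAt 𝓘(ℝ, EuclideanSpace ℝ (Fin d)) (𝓡 N) g (φ p) :=
    hga.differentiableAt (by simp) |>.mdifferentiableAt
  have hφm : MDifferentiableAt (𝓡 d) 𝓘(ℝ, EuclideanSpace ℝ (Fin d)) φ p :=
    mdifferentiableAt_extChartAt (mem_chart_source _ p)
  have hcomp : mfderiv (𝓡 d) (𝓡 N) (g ∘ φ) p =
      (mfderiv 𝓘(ℝ, EuclideanSpace ℝ (Fin d)) (𝓡 N) g (φ p)).comp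
        (mfderiv (𝓡 d) 𝓘(ℝ, EuclideanSpace ℝ (Fin d)) φ p) := mfderiv_comp p hgm hφm
  have heq : (g ∘ φ) =ᶠ[nhds p] e := by
    filter_upwards [extChartAt_source_mem_nhds (I := 𝓡 d) p] with y hy
    show e (φ.symm (φ y)) = e y
    rw [φ.left_inv hy]
  have hmf : mfderiv (𝓡 d) (𝓡 N) (g ∘ φ) p = mfderiv (𝓡 d) (𝓡 N) e p := heq.mfderiv_eq
  have hinv := isInvertible_mfderiv_extChartAt (I := 𝓡 d) (x := p) hps
  have hker : Injective (fderiv ℝ g (φ p)) := by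
    intro u w huw
    obtain ⟨A, hA⟩ := hinv
    obtain ⟨u', hu'⟩ := A.surjective u
    obtain ⟨w', hw'⟩ := A.surjective w
    have e1 : (mfderiv (𝓡 d) 𝓘(ℝ, EuclideanSpace ℝ (Fin d)) φ p) u' = u := by
      rw [← hu', ← hA]; rfl
    have e2 : (mfderiv (𝓡 d) 𝓘(ℝ, EuclideanSpace ℝ (Fin d)) φ p) w' = w := by
      rw [← hw', ← hA]; rfl
    have hX : ∀ v, (mfderiv (𝓡 d) (𝓡 N) (g ∘ φ) p) v = fderiv ℝ g (φ p)
        ((mfderiv (𝓡 d) 𝓘(ℝ, EuclideanSpace ℝ (Fin d)) φ p) v) := by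
      intro v
      rw [hcomp, mfderiv_eq_fderiv]
      rfl
    have h1 : mfderiv (𝓡 d) (𝓡 N) e p u' = mfderiv (𝓡 d) (𝓡 N) e p w' := by
      rw [← hmf]
      exact (hX u').trans ((congrArg (fderiv ℝ g (φ p)) e1).trans (huw.trans
        ((congrArg (fderiv ℝ g (φ p)) e2).symm.trans (hX w').symm)))
    have h2 := hinj p h1
    rw [← hu', ← hw', h2]
  obtain ⟨K, hK0, hK⟩ := LinearMap.exists_antilipschitzWith
    (fderiv ℝ g (φ p) : EuclideanSpace ℝ (Fin d) →ₗ[ℝ] EuclideanSpace ℝ (Fin N))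
    (LinearMap.ker_eq_bot.2 hker)
  have hKn : ∀ u, ‖u‖ ≤ K * ‖fderiv ℝ g (φ p) u‖ := by
    intro u
    have := hK.le_mul_norm_sub u 0
    simpa using this
  have hKpos : (0:ℝ) < K := by exact_mod_cast hK0
  set c : NNReal := K⁻¹ / 2 with hc
  have hcpos : 0 < c := by positivity
  obtain ⟨s, hs, happ⟩ := hstr.approximates_deriv_on_nhds (Or.inr hcpos)
  have hcont : ContinuousAt φ p := continuousAt_extChartAt p
  have hns : φ ⁻¹' s ∩ (chartAt (EuclideanSpace ℝ (Fin d)) p).source ∈ nhds p := by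
    refine Filter.inter_mem (hcont hs) ?_
    exact (chartAt (EuclideanSpace ℝ (Fin d)) p).open_source.mem_nhds (mem_chart_source _ p)
  obtain ⟨ρ, hρ, hball⟩ := Metric.mem_nhds_iff.1 hns
  refine ⟨max 1 (max (2 * K) (‖fderiv ℝ g (φ p)‖ + c)), le_max_left _ _, ρ, hρ,
    fun y hy => (hball hy).2, ?_⟩
  intro y hy z hz
  have hyS : y ∈ φ.source := by rw [hφ, extChartAt_source]; exact (hball hy).2
  have hzS : z ∈ φ.source := by rw [hφ, extChartAt_source]; exact (hball hz).2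
  have hdist : dist y z = ‖g (φ y) - g (φ z)‖ := by
    rw [hd, dist_eq_norm]
    show _ = ‖e (φ.symm (φ y)) - e (φ.symm (φ z))‖
    rw [φ.left_inv hyS, φ.left_inv hzS]
  have happ' : ‖g (φ y) - g (φ z) - fderiv ℝ g (φ p) (φ y - φ z)‖ ≤ c * ‖φ y - φ z‖ :=
    happ _ (hball hy).1 _ (hball hz).1
  have hcK : (c:ℝ) = (K:ℝ)⁻¹ / 2 := by simp [hc]
  set u := φ y - φ z with hu
  have h1 := hKn u
  have h2 : ‖fderiv ℝ g (φ p) u‖ ≤ ‖g (φ y) - g (φ z)‖ + c * ‖u‖ := by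
    calc ‖fderiv ℝ g (φ p) u‖ = ‖(g (φ y) - g (φ z)) - (g (φ y) - g (φ z) - fderiv ℝ g (φ p) u)‖ := by
          congr 1; abel
      _ ≤ _ := (norm_sub_le _ _).trans (add_le_add le_rfl happ')
  have h3 : ‖g (φ y) - g (φ z)‖ ≤ (‖fderiv ℝ g (φ p)‖ + c) * ‖u‖ := by
    calc ‖g (φ y) - g (φ z)‖ = ‖(g (φ y) - g (φ z) - fderiv ℝ g (φ p) u) + fderiv ℝ g (φ p) u‖ := by
          congr 1; abel
      _ ≤ c * ‖u‖ + ‖fderiv ℝ g (φ p)‖ * ‖u‖ :=
        (norm_add_le _ _).trans (add_le_add happ' (ContinuousLinearMap.le_opNorm _ _))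
      _ = _ := by ring
  have hun : 0 ≤ ‖u‖ := norm_nonneg _
  have hgn : 0 ≤ ‖g (φ y) - g (φ z)‖ := norm_nonneg _
  constructor
  · have h4 : ‖u‖ ≤ 2 * K * ‖g (φ y) - g (φ z)‖ := by
      have h5 : (K:ℝ) * ‖fderiv ℝ g (φ p) u‖ ≤ K * (‖g (φ y) - g (φ z)‖ + c * ‖u‖) := by gcongr
      have h6 : (K:ℝ) * (c * ‖u‖) = ‖u‖ / 2 := by
        rw [hcK]; field_simp
      nlinarith
    rw [hdist]
    refine h4.trans ?_
    gcongr
    exact (le_max_left _ _).trans (le_max_right _ _)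
  · rw [hdist]
    refine h3.trans ?_
    gcongr
    exact (le_max_right _ _).trans (le_max_right _ _)

end Pool.Agent.ANO
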