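import Mathlib
import Pool.Agent.ANO.Man

open Set Metric Function
open scoped Manifold ContDiff Topology

namespace Pool.Agent.ANO

variable {d : ℕ} {M : Type} [MetricSpace M] [ChartedSpace (EuclideanSpace ℝ (Fin d)) M]

/-- Surjectivity of a chart onto balls, by continuation along segments. -/
theorem chart_surj [CompactSpace M] {p x : M} {r C : ℝ} (hr : 0 < r) (hC : 1 ≤ C)
    (src : ∀ y, dist x y ≤ 2 * r → y ∈ (chartAt (EuclideanSpace ℝ (Fin d)) p).source)
    (le2 : ∀ y z, dist x y ≤ 2 * r → dist x z ≤ 2 * r →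
      dist y z ≤ C * ‖extChartAt (𝓡 d) p y - extChartAt (𝓡 d) p z‖)
    (v : EuclideanSpace ℝ (Fin d)) (hv : C * ‖v‖ ≤ r) :
    ∃ y, dist x y ≤ r ∧ extChartAt (𝓡 d) p y = extChartAt (𝓡 d) p x + v := by
  set e := extChartAt (𝓡 d) p with he
  have hxx : dist x x ≤ 2 * r := by rw [dist_self]; positivity
  have hcl : IsClosed (e '' closedBall x r) := by
    refine (IsCompact.image_of_continuousOn isClosed_closedBall.isCompact ?_).isClosed
    refine (continuousOn_extChartAt (I := 𝓡 d) p).mono ?_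
    intro y hy
    rw [extChartAt_source]
    refine src y ?_
    rw [mem_closedBall, dist_comm] at hy
    linarith
  have hcont : Continuous (fun t : ℝ => e x + t • v) := by fun_prop
  have hS : IsClosed ((fun t : ℝ => e x + t • v) ⁻¹' (e '' closedBall x r) ∩ Icc 0 1) :=
    (hcl.preimage hcont).inter isClosed_Icc
  have key : Icc (0 : ℝ) 1 ⊆ (fun t : ℝ => e x + t • v) ⁻¹' (e '' closedBall x r) := by
    refine hS.Icc_subset_of_forall_mem_nhdsWithin ?_ ?_
    · refine ⟨x, mem_closedBall_self hr.le, ?_⟩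
      simp
    · rintro t ⟨⟨y, hy, hyt⟩, ht0, ht1⟩
      rw [mem_closedBall, dist_comm] at hy
      have hys : y ∈ (chartAt (EuclideanSpace ℝ (Fin d)) p).source := src y (by linarith)
      have hmap := (chartAt (EuclideanSpace ℝ (Fin d)) p).map_nhds_eq hys
      have hball : ball x (2 * r) ∈ 𝓝 y := by
        refine isOpen_ball.mem_nhds ?_
        rw [mem_ball, dist_comm]
        linarith
      have himg : e '' ball x (2 * r) ∈ 𝓝 (e x + t • v) := by
        have h1 : (chartAt (EuclideanSpace ℝ (Fin d)) p) '' ball x (2 * r) ∈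
            Filter.map (chartAt (EuclideanSpace ℝ (Fin d)) p) (𝓝 y) := Filter.image_mem_map hball
        rw [hmap] at h1
        have h2 : (chartAt (EuclideanSpace ℝ (Fin d)) p) y = e x + t • v := by
          have hyt2 : e y = e x + t • v := hyt
          rw [← hyt2]; simp [he, mfld_simps]
        rw [h2] at h1
        have h3 : (e : M → EuclideanSpace ℝ (Fin d)) = (chartAt (EuclideanSpace ℝ (Fin d)) p) := by
          ext z; simp [he, mfld_simps]
        rw [h3]
        exact h1
      have h4 : ∀ᶠ t' in 𝓝[>] t, e x + t' • v ∈ e '' ball x (2 * r) :=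
        (hcont.tendsto t).mono_left nhdsWithin_le_nhds |>.eventually himg
      have h5 : ∀ᶠ t' in 𝓝[>] t, t' ∈ Ioo t 1 := Ioo_mem_nhdsGT ht1
      filter_upwards [h4, h5] with t' ht' ht''
      obtain ⟨y', hy', hyt'⟩ := ht'
      refine ⟨y', ?_, hyt'⟩
      rw [mem_ball, dist_comm] at hy'
      rw [mem_closedBall, dist_comm]
      have h6 := le2 x y' hxx hy'.le
      rw [hyt'] at h6
      have h7 : ‖e x - (e x + t' • v)‖ = t' * ‖v‖ := by
        rw [sub_add_cancel_left, norm_neg, norm_smul, Real.norm_eq_abs, abs_of_nonneg]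
        linarith [ht''.1]
      rw [h7] at h6
      have h8 : t' * ‖v‖ ≤ ‖v‖ := by
        have := norm_nonneg v
        nlinarith [ht''.2]
      calc dist x y' ≤ C * (t' * ‖v‖) := h6
        _ ≤ C * ‖v‖ := by gcongr
        _ ≤ r := hv
  obtain ⟨y, hy, hy'⟩ := key (right_mem_Icc.2 zero_le_one)
  refine ⟨y, ?_, ?_⟩
  · rwa [mem_closedBall, dist_comm] at hy
  · simpa using hy'

/-- Existence of a finite family of charts. -/
theorem exists_fam [CompactSpace M]
    (h : ∀ p : M, ∃ C ≥ 1, ∃ ρ > 0, ball p ρ ⊆ (chartAt (EuclideanSpace ℝ (Fin d)) p).source ∧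
      ∀ y ∈ ball p ρ, ∀ z ∈ ball p ρ,
        ‖extChartAt (𝓡 d) p y - extChartAt (𝓡 d) p z‖ ≤ C * dist y z ∧
        dist y z ≤ C * ‖extChartAt (𝓡 d) p y - extChartAt (𝓡 d) p z‖) :
    Nonempty (Fam d M) := by
  classical
  choose Cp hCp ρ hρ hsrc hlip using h
  obtain ⟨t, ht⟩ := isCompact_univ.elim_finite_subcover (fun p : M => ball p (ρ p))
    (fun p => isOpen_ball) (fun x _ => mem_iUnion.2 ⟨x, mem_ball_self (hρ x)⟩)
  have ht' : (univ : Set M) ⊆ ⋃ p : t, ball (p : M) (ρ p) := by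
    intro x hx
    have := ht hx
    simp only [mem_iUnion] at this ⊢
    obtain ⟨p, hp, hxp⟩ := this
    exact ⟨⟨p, hp⟩, hxp⟩
  obtain ⟨δ, hδ, hleb⟩ := lebesgue_number_lemma_of_metric isCompact_univ
    (fun p : t => isOpen_ball (x := (p : M)) (ε := ρ p)) ht'
  choose i hi using fun x : M => hleb x (mem_univ x)
  set C : ℝ := 1 + ∑ p ∈ t, Cp p with hC
  have hCpos : ∀ p, 0 ≤ Cp p := fun p => le_trans zero_le_one (hCp p)
  have hC1 : 1 ≤ C := by
    have : 0 ≤ ∑ p ∈ t, Cp p := Finset.sum_nonneg fun p _ => hCpos p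
    linarith
  have hCle : ∀ x, Cp (i x : M) ≤ C := by
    intro x
    have : Cp (i x : M) ≤ ∑ p ∈ t, Cp p :=
      Finset.single_le_sum (f := Cp) (fun p _ => hCpos p) (i x).2
    linarith
  have hr : 0 < δ / 3 := by positivity
  have hin : ∀ x y, dist x y ≤ 2 * (δ / 3) → y ∈ ball (i x : M) (ρ (i x)) := by
    intro x y hxy
    refine hi x ?_
    rw [mem_ball, dist_comm]
    linarith
  have hsrc' : ∀ x y, dist x y ≤ 2 * (δ / 3) →
      y ∈ (chartAt (EuclideanSpace ℝ (Fin d)) (i x : M)).source :=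
    fun x y hxy => hsrc _ (hin x y hxy)
  have hle2 : ∀ x y z, dist x y ≤ 2 * (δ / 3) → dist x z ≤ 2 * (δ / 3) →
      dist y z ≤ C * ‖extChartAt (𝓡 d) (i x : M) y - extChartAt (𝓡 d) (i x : M) z‖ := by
    intro x y z hxy hxz
    refine (hlip (i x) y (hin x y hxy) z (hin x z hxz)).2.trans ?_
    exact mul_le_mul_of_nonneg_right (hCle x) (norm_nonneg _)
  refine ⟨{ i := fun x => (i x : M), fin := ?_, r := δ / 3, hr := hr, C := C, hC := hC1,
            src := hsrc', le1 := ?_, le2 := hle2, surj := ?_ }⟩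
  · refine t.finite_toSet.subset ?_
    rintro _ ⟨x, rfl⟩
    exact (i x).2
  · intro x y z hxy hxz
    refine (hlip (i x) y (hin x y hxy) z (hin x z hxz)).1.trans ?_
    exact mul_le_mul_of_nonneg_right (hCle x) dist_nonneg
  · intro x v hv
    exact chart_surj hr hC1 (hsrc' x) (hle2 x) v hv

end Pool.Agent.ANO
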