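import Mathlib

namespace Pool.Agent.ANO

private theorem cou_ceil_le (x : ℝ) : (⌈x⌉₊ : ℝ) ≤ |x| + 1 := by
  have h1 : (⌈|x|⌉₊ : ℝ) < |x| + 1 := Nat.ceil_lt_add_one (abs_nonneg x)
  have h2 : ⌈x⌉₊ ≤ ⌈|x|⌉₊ := Nat.ceil_le_ceil (le_abs_self x)
  have h3 : (⌈x⌉₊ : ℝ) ≤ (⌈|x|⌉₊ : ℝ) := by exact_mod_cast h2
  linarith

private theorem cou_reach {a ε0 X : ℝ} (ha : 0 < a) (hε0 : 0 < ε0) (hX : 0 < X) :
    X ≤ ε0 * Real.exp (a * (⌈Real.log (X / ε0) / a⌉₊ : ℕ)) := by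
  have h1 : Real.log (X / ε0) / a ≤ (⌈Real.log (X / ε0) / a⌉₊ : ℝ) := Nat.le_ceil _
  have h2 : Real.log (X / ε0) ≤ a * (⌈Real.log (X / ε0) / a⌉₊ : ℝ) := by
    rw [div_le_iff₀ ha] at h1
    linarith
  have h3 : X / ε0 ≤ Real.exp (a * (⌈Real.log (X / ε0) / a⌉₊ : ℝ)) := by
    rw [← Real.log_le_iff_le_exp (div_pos hX hε0)]
    exact h2
  rw [div_le_iff₀ hε0] at h3
  linarith

private theorem cou_num {a s ε0 P : ℝ} (ha : 0 < a) (hs : 0 ≤ s) (hε0 : 0 < ε0) (hP : 0 < P)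
    (k : ℕ) :
    a * (⌈Real.log (P * Real.exp (s * k) / ε0) / a⌉₊ : ℝ) ≤ s * k + |Real.log (P / ε0)| + a := by
  have h1 := cou_ceil_le (Real.log (P * Real.exp (s * k) / ε0) / a)
  have h2 : Real.log (P * Real.exp (s * k) / ε0) = Real.log (P / ε0) + s * k := by
    have : P * Real.exp (s * k) / ε0 = (P / ε0) * Real.exp (s * k) := by ring
    rw [this, Real.log_mul (div_pos hP hε0).ne' (Real.exp_pos _).ne', Real.log_exp]
  rw [h2] at h1 ⊢
  have hk : 0 ≤ s * (k : ℝ) := mul_nonneg hs (Nat.cast_nonneg k)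
  have h3 : |(Real.log (P / ε0) + s * k) / a| ≤ (|Real.log (P / ε0)| + s * k) / a := by
    rw [abs_div, abs_of_pos ha]
    apply div_le_div_of_nonneg_right _ ha.le
    calc |Real.log (P / ε0) + s * k| ≤ |Real.log (P / ε0)| + |s * (k : ℝ)| := abs_add_le _ _
      _ = |Real.log (P / ε0)| + s * k := by rw [abs_of_nonneg hk]
  have h4 : (⌈(Real.log (P / ε0) + s * k) / a⌉₊ : ℝ) ≤ (|Real.log (P / ε0)| + s * k) / a + 1 := by
    linarith
  have h5 := mul_le_mul_of_nonneg_left h4 ha.le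
  have h6 : a * ((|Real.log (P / ε0)| + s * k) / a + 1) = s * k + |Real.log (P / ε0)| + a := by
    field_simp
    ring
  linarith

/-- The arithmetic of the coupled a priori estimate. -/
theorem couple {a b c e ε0 P Q : ℝ} (ha : 0 < a) (hab : a ≤ b) (hc : 0 < c) (hce : c ≤ e)
    (pinch : (b - a) * (e - c) < a * c) (hε0 : 0 < ε0) (hP : 0 < P) (hQ : 0 < Q) :
    ∃ K : ℝ, 0 < K ∧ ∀ PU PV : ℝ → Prop, (∀ t t', t ≤ t' → PU t → PU t') →
      (∀ t t', t ≤ t' → PV t → PV t') → (∃ t, PU t) →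
      (∀ k : ℕ, PU (ε0 * Real.exp (c * k)) → PV (P * Real.exp ((b - a) * k))) →
      (∀ l : ℕ, PV (ε0 * Real.exp (a * l)) → PU (Q * Real.exp ((e - c) * l))) → PU K ∧ PV K := by
  classical
  set L1 : ℝ := |Real.log (P / ε0)| with hL1
  set L2 : ℝ := |Real.log (Q / ε0)| with hL2
  have hL1' : 0 ≤ L1 := abs_nonneg _
  have hL2' : 0 ≤ L2 := abs_nonneg _
  set G : ℝ := a * c - (b - a) * (e - c) with hG
  have hG0 : 0 < G := by linarith
  set B : ℝ := (e - c) * (L1 + a) + a * (L2 + c) with hB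
  set κ : ℝ := B / G with hκ
  refine ⟨ε0 * Real.exp (c * κ) + P * Real.exp ((b - a) * κ), by positivity, ?_⟩
  intro PU PV mU mV hex hUV hVU
  have hexk : ∃ k : ℕ, PU (ε0 * Real.exp (c * k)) := by
    obtain ⟨t, ht⟩ := hex
    refine ⟨⌈Real.log ((|t| + 1) / ε0) / c⌉₊, mU t _ ?_ ht⟩
    have h := cou_reach hc hε0 (X := |t| + 1) (by positivity)
    have h2 := le_abs_self t
    linarith
  set k := Nat.find hexk with hk
  have hkU : PU (ε0 * Real.exp (c * k)) := Nat.find_spec hexk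
  have hPV : PV (P * Real.exp ((b - a) * k)) := hUV k hkU
  set l : ℕ := ⌈Real.log (P * Real.exp ((b - a) * k) / ε0) / a⌉₊ with hl
  have hl1 : P * Real.exp ((b - a) * k) ≤ ε0 * Real.exp (a * (l : ℕ)) :=
    cou_reach ha hε0 (by positivity)
  have hl2 : a * (l : ℝ) ≤ (b - a) * k + L1 + a := cou_num ha (by linarith) hε0 hP k
  have hPU2 : PU (Q * Real.exp ((e - c) * l)) := hVU l (mV _ _ hl1 hPV)
  set k' : ℕ := ⌈Real.log (Q * Real.exp ((e - c) * l) / ε0) / c⌉₊ with hk'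
  have hk1 : Q * Real.exp ((e - c) * l) ≤ ε0 * Real.exp (c * (k' : ℕ)) :=
    cou_reach hc hε0 (by positivity)
  have hk2 : c * (k' : ℝ) ≤ (e - c) * l + L2 + c := cou_num hc (by linarith) hε0 hQ l
  have hkk : k ≤ k' := Nat.find_min' hexk (mU _ _ hk1 hPU2)
  have hkk' : (k : ℝ) ≤ (k' : ℝ) := by exact_mod_cast hkk
  have hkκ : (k : ℝ) ≤ κ := by
    rw [hκ, le_div_iff₀ hG0]
    have e1 : c * (k : ℝ) ≤ (e - c) * l + L2 + c :=
      le_trans (mul_le_mul_of_nonneg_left hkk' hc.le) hk2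
    have e2 : a * (c * (k : ℝ)) ≤ a * ((e - c) * l + L2 + c) := mul_le_mul_of_nonneg_left e1 ha.le
    have e3 : (e - c) * (a * (l : ℝ)) ≤ (e - c) * ((b - a) * k + L1 + a) :=
      mul_le_mul_of_nonneg_left hl2 (by linarith)
    rw [hG, hB]
    nlinarith
  refine ⟨mU _ _ ?_ hkU, mV _ _ ?_ hPV⟩
  · have h1 : Real.exp (c * k) ≤ Real.exp (c * κ) :=
      Real.exp_le_exp.mpr (mul_le_mul_of_nonneg_left hkκ hc.le)
    have h2 : 0 ≤ P * Real.exp ((b - a) * κ) := by positivity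
    have h3 := mul_le_mul_of_nonneg_left h1 hε0.le
    linarith
  · have h1 : Real.exp ((b - a) * k) ≤ Real.exp ((b - a) * κ) :=
      Real.exp_le_exp.mpr (mul_le_mul_of_nonneg_left hkκ (by linarith))
    have h2 : 0 ≤ ε0 * Real.exp (c * κ) := by positivity
    have h3 := mul_le_mul_of_nonneg_left h1 hP.le
    linarith

end Pool.Agent.ANO
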