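import Mathlib
import Pool.Agent.ANO.Sys

open Set Metric Function

namespace Pool.Agent.ANO

variable {M : Type} [MetricSpace M]

theorem iter_symm_iter (f : M ≃ₜ M) (k : ℕ) (x : M) : f^[k] (f.symm^[k] x) = x := by
  have h : Function.LeftInverse (f^[k]) (f.symm^[k]) :=
    Function.LeftInverse.iterate (fun y => f.apply_symm_apply y) k
  exact h x

theorem symm_iter_iter (f : M ≃ₜ M) (k : ℕ) (x : M) : f.symm^[k] (f^[k] x) = x := by
  have h : Function.LeftInverse (f.symm^[k]) (f^[k]) :=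
    Function.LeftInverse.iterate (fun y => f.symm_apply_apply y) k
  exact h x

theorem Sys.S_iter (D : Sys M) (k : ℕ) {x y : M} {t : ℝ} (h : D.S x y t) :
    D.S (D.f^[k] x) (D.f^[k] y) (Real.exp (-(D.a * k)) * t) := by
  induction k with
  | zero => simpa using h
  | succ k ih =>
    have h1 := D.S_fwd _ _ _ ih
    rw [Function.iterate_succ_apply', Function.iterate_succ_apply']
    have h2 : Real.exp (-(D.a * ((k + 1 : ℕ) : ℝ))) * t
        = Real.exp (-D.a) * (Real.exp (-(D.a * k)) * t) := by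
      rw [← mul_assoc, ← Real.exp_add]
      congr 2
      push_cast
      ring
    rw [h2]
    exact h1

theorem Sys.S_iter_symm (D : Sys M) (k : ℕ) {x y : M} {t : ℝ} (h : D.S x y t) :
    D.S (D.f.symm^[k] x) (D.f.symm^[k] y) (Real.exp (D.b * k) * t) := by
  induction k with
  | zero => simpa using h
  | succ k ih =>
    have h1 := D.S_bwd _ _ _ ih
    rw [Function.iterate_succ_apply', Function.iterate_succ_apply']
    have h2 : Real.exp (D.b * ((k + 1 : ℕ) : ℝ)) * t
        = Real.exp D.b * (Real.exp (D.b * k) * t) := by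
      rw [← mul_assoc, ← Real.exp_add]
      congr 2
      push_cast
      ring
    rw [h2]
    exact h1

theorem Sys.U_iter (D : Sys M) (k : ℕ) {x y : M} {t : ℝ} (h : D.U x y t) :
    D.U (D.f^[k] x) (D.f^[k] y) (Real.exp (D.e * k) * t) :=
  D.symm.S_iter_symm k h

theorem Sys.U_iter_symm (D : Sys M) (k : ℕ) {x y : M} {t : ℝ} (h : D.U x y t) :
    D.U (D.f.symm^[k] x) (D.f.symm^[k] y) (Real.exp (-(D.c * k)) * t) :=
  D.symm.S_iter k h

theorem Sys.nonneg_S (D : Sys M) {x y : M} {t : ℝ} (h : D.S x y t) : 0 ≤ t :=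
  le_trans dist_nonneg (D.S_dist _ _ _ h)

/-- Expansivity. -/
theorem Sys.expansive (D : Sys M) : ∃ ε > 0, ∀ x y, D.S x y ε → D.U x y ε → x = y := by
  have hC := D.hC
  have hC0 : 0 < D.C := by linarith
  have hr := D.hr
  have hb : 0 ≤ D.b := le_trans D.ha.le D.hab
  have hE : 1 ≤ Real.exp D.b := Real.one_le_exp hb
  have hE0 : 0 < Real.exp D.b := Real.exp_pos _
  have hEC : 0 < Real.exp D.b * D.C := by positivity
  set ε : ℝ := D.r / (Real.exp D.b * D.C) with hεdef
  have hε : 0 < ε := by positivity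
  have hεr : Real.exp D.b * (D.C * ε) = D.r := by
    rw [hεdef]
    field_simp
  refine ⟨ε, hε, fun x y hS hU => ?_⟩
  have key : ∀ n : ℕ, D.S (D.f.symm^[n] x) (D.f.symm^[n] y)
      (D.C * (Real.exp (-(D.c * n)) * ε)) := by
    intro n
    induction n with
    | zero =>
      refine D.S_mono _ _ _ _ ?_ hS
      simp only [Nat.cast_zero, mul_zero, neg_zero, Real.exp_zero, one_mul]
      nlinarith
    | succ n ih =>
      have h1 := D.S_bwd _ _ _ ih
      rw [← Function.iterate_succ_apply' D.f.symm, ← Function.iterate_succ_apply' D.f.symm] at h1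
      have hle : Real.exp (-(D.c * n)) ≤ 1 := by
        apply Real.exp_le_one_iff.mpr
        have : 0 ≤ D.c * n := mul_nonneg D.hc.le (Nat.cast_nonneg n)
        linarith
      have h2 : Real.exp D.b * (D.C * (Real.exp (-(D.c * n)) * ε)) ≤ D.r := by
        rw [← hεr]
        apply mul_le_mul_of_nonneg_left _ hE0.le
        apply mul_le_mul_of_nonneg_left _ hC0.le
        nlinarith
      have h3 := D.S_cmp _ _ (D.S_mono _ _ _ _ h2 h1)
      have h4 := D.U_dist _ _ _ (D.U_iter_symm (n + 1) hU)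
      exact D.S_mono _ _ _ _ (mul_le_mul_of_nonneg_left h4 hC0.le) h3
  have hd : ∀ n : ℕ, dist x y ≤ (D.C * ε) * Real.exp (-(D.c * n)) := by
    intro n
    have h1 := D.S_iter n (key n)
    rw [iter_symm_iter, iter_symm_iter] at h1
    have h2 := D.S_dist _ _ _ h1
    have hle : Real.exp (-(D.a * n)) ≤ 1 := by
      apply Real.exp_le_one_iff.mpr
      have : 0 ≤ D.a * n := mul_nonneg D.ha.le (Nat.cast_nonneg n)
      linarith
    have h3 : 0 ≤ D.C * (Real.exp (-(D.c * n)) * ε) := by positivity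
    calc dist x y ≤ Real.exp (-(D.a * n)) * (D.C * (Real.exp (-(D.c * n)) * ε)) := h2
      _ ≤ 1 * (D.C * (Real.exp (-(D.c * n)) * ε)) := mul_le_mul_of_nonneg_right hle h3
      _ = (D.C * ε) * Real.exp (-(D.c * n)) := by ring
  have hlim : Filter.Tendsto (fun n : ℕ => (D.C * ε) * Real.exp (-(D.c * n))) Filter.atTop
      (nhds ((D.C * ε) * 0)) := by
    apply Filter.Tendsto.const_mul
    apply Real.tendsto_exp_neg_atTop_nhds_zero.comp
    exact Filter.Tendsto.const_mul_atTop D.hc tendsto_natCast_atTop_atTop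
  rw [mul_zero] at hlim
  have h0 : dist x y ≤ 0 := ge_of_tendsto' hlim hd
  exact dist_le_zero.mp h0

/-- The bracket. -/
theorem Sys.exists_bracket [CompactSpace M] (D : Sys M) : ∃ (ε δ : ℝ) (B : M → M → M),
    0 < ε ∧ 0 < δ ∧ 4 * ε ≤ D.r ∧
    (∀ x y, D.S x y (2 * ε) → D.U x y (2 * ε) → x = y) ∧
    (∀ x y, dist x y < δ → D.S x (B x y) ε ∧ D.U y (B x y) ε) ∧
    (∀ η > 0, ∃ ρ > 0, ∀ x x' y y', dist x y < δ → dist x' y' < δ → dist x x' < ρ →
      dist y y' < ρ → dist (B x y) (B x' y') < η) := by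
  classical
  obtain ⟨ε₀, hε₀, hexp⟩ := D.expansive
  have hr := D.hr
  set ε : ℝ := min (ε₀ / 2) (D.r / 4) with hεdef
  have hε : 0 < ε := lt_min (by linarith) (by linarith)
  have hε1 : 2 * ε ≤ ε₀ := by
    have := min_le_left (ε₀ / 2) (D.r / 4)
    linarith
  have hε2 : 4 * ε ≤ D.r := by
    have := min_le_right (ε₀ / 2) (D.r / 4)
    linarith
  obtain ⟨δ, hδ, hbr⟩ := D.br ε hε
  have hex : ∀ p : M × M, ∃ z : M, dist p.1 p.2 < δ → D.S p.1 z ε ∧ D.U p.2 z ε := by
    intro p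
    by_cases h : dist p.1 p.2 < δ
    · obtain ⟨z, hz⟩ := hbr p.1 p.2 h
      exact ⟨z, fun _ => hz⟩
    · exact ⟨p.1, fun h' => absurd h' h⟩
  choose Z hZ using hex
  have hexp2 : ∀ x y, D.S x y (2 * ε) → D.U x y (2 * ε) → x = y := fun x y h1 h2 =>
    hexp x y (D.S_mono _ _ _ _ hε1 h1) (D.U_mono _ _ _ _ hε1 h2)
  refine ⟨ε, δ, fun x y => Z (x, y), hε, hδ, hε2, hexp2, fun x y h => hZ (x, y) h, ?_⟩
  intro η hη
  by_contra hcon
  push Not at hcon
  have hpos : ∀ n : ℕ, (0 : ℝ) < 1 / ((n : ℝ) + 1) := fun n => Nat.one_div_pos_of_nat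
  choose x x' y y' h1 h2 h3 h4 h5 using fun n : ℕ => hcon (1 / ((n : ℝ) + 1)) (hpos n)
  obtain ⟨l, φ, hφ, hl⟩ := CompactSpace.tendsto_subseq
    (fun n : ℕ => ((x n, x' n), (y n, y' n), (Z (x n, y n), Z (x' n, y' n))))
  obtain ⟨⟨lx, lx'⟩, ⟨ly, ly'⟩, ⟨lz, lz'⟩⟩ := l
  have tx : Filter.Tendsto (fun n => x (φ n)) Filter.atTop (nhds lx) :=
    (continuous_fst.fst.tendsto _).comp hl
  have tx' : Filter.Tendsto (fun n => x' (φ n)) Filter.atTop (nhds lx') :=
    (continuous_fst.snd.tendsto _).comp hl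
  have ty : Filter.Tendsto (fun n => y (φ n)) Filter.atTop (nhds ly) :=
    (continuous_snd.fst.fst.tendsto _).comp hl
  have ty' : Filter.Tendsto (fun n => y' (φ n)) Filter.atTop (nhds ly') :=
    (continuous_snd.fst.snd.tendsto _).comp hl
  have tz : Filter.Tendsto (fun n => Z (x (φ n), y (φ n))) Filter.atTop (nhds lz) :=
    (continuous_snd.snd.fst.tendsto _).comp hl
  have tz' : Filter.Tendsto (fun n => Z (x' (φ n), y' (φ n))) Filter.atTop (nhds lz') :=
    (continuous_snd.snd.snd.tendsto _).comp hl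
  have hρ0 : Filter.Tendsto (fun n : ℕ => 1 / (((φ n : ℕ) : ℝ) + 1)) Filter.atTop (nhds 0) :=
    (tendsto_one_div_add_atTop_nhds_zero_nat (𝕜 := ℝ)).comp hφ.tendsto_atTop
  have exx : lx = lx' := by
    apply dist_le_zero.mp
    exact le_of_tendsto_of_tendsto' (tx.dist tx') hρ0 (fun n => (h3 (φ n)).le)
  have eyy : ly = ly' := by
    apply dist_le_zero.mp
    exact le_of_tendsto_of_tendsto' (ty.dist ty') hρ0 (fun n => (h4 (φ n)).le)
  have s1 : D.S lx lz ε := by
    have := (D.S_closed ε).mem_of_tendsto (tx.prodMk_nhds tz)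
      (Filter.Eventually.of_forall (fun n => (hZ (x (φ n), y (φ n)) (h1 (φ n))).1))
    exact this
  have u1 : D.U ly lz ε := by
    have := (D.U_closed ε).mem_of_tendsto (ty.prodMk_nhds tz)
      (Filter.Eventually.of_forall (fun n => (hZ (x (φ n), y (φ n)) (h1 (φ n))).2))
    exact this
  have s2 : D.S lx' lz' ε := by
    have := (D.S_closed ε).mem_of_tendsto (tx'.prodMk_nhds tz')
      (Filter.Eventually.of_forall (fun n => (hZ (x' (φ n), y' (φ n)) (h2 (φ n))).1))
    exact this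
  have u2 : D.U ly' lz' ε := by
    have := (D.U_closed ε).mem_of_tendsto (ty'.prodMk_nhds tz')
      (Filter.Eventually.of_forall (fun n => (hZ (x' (φ n), y' (φ n)) (h2 (φ n))).2))
    exact this
  subst exx eyy
  have ez : lz = lz' := by
    apply hexp2
    · have := D.S_tri _ _ _ _ _ (D.S_symm _ _ _ s1) s2
      rwa [← two_mul] at this
    · have := D.U_tri _ _ _ _ _ (D.U_symm _ _ _ u1) u2
      rwa [← two_mul] at this
  have hge : η ≤ dist lz lz' := ge_of_tendsto' (tz.dist tz') (fun n => h5 (φ n))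
  rw [ez, dist_self] at hge
  linarith

end Pool.Agent.ANO
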