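import Mathlib
import Pool.Agent.ANO.BAS

open Set Metric Function

namespace Pool.Agent.ANO

variable {M : Type} [MetricSpace M]

/-- One piece of the step lemma: two base points at distance at most `ε0` after `f^-k`. -/
theorem STP_piece (D : Sys M) {ε0 : ℝ} (hε0 : 0 < ε0) (h3 : 3 * D.C * ε0 < D.r) (σ ξ : ℝ → M)
    {S0 : ℝ} (hS0 : 0 ≤ S0)
    (hσ : ∀ s ∈ Icc (0 : ℝ) 1, ∀ s' ∈ Icc (0 : ℝ) 1, D.S (σ s) (σ s') (S0 * |s - s'|))
    (hξ : ∀ ε > 0, ∃ ρ > 0, ∀ s ∈ Icc (0 : ℝ) 1, ∀ s' ∈ Icc (0 : ℝ) 1, |s - s'| < ρ →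
      D.S (ξ s) (ξ s') ε)
    (k : ℕ) (hU : ∀ s ∈ Icc (0 : ℝ) 1, D.U (σ s) (ξ s) (ε0 * Real.exp (D.c * k)))
    {s t : ℝ} (hs : s ∈ Icc (0 : ℝ) 1) (ht : t ∈ Icc (0 : ℝ) 1) (hst : s ≤ t)
    (hlen : Real.exp (D.b * k) * (S0 * (t - s)) ≤ ε0) :
    D.S (ξ s) (ξ t) (Real.exp (-(D.a * k)) * (3 * D.C * ε0)) := by
  have hC := D.hC
  have hC0 : 0 < D.C := by linarith
  have hE : 0 < Real.exp (D.b * k) := Real.exp_pos _
  have hdist : ∀ u ∈ Icc s t, dist (D.f.symm^[k] (ξ s)) (D.f.symm^[k] (ξ u)) ≤ 3 * ε0 := by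
    intro u hu
    have hu1 : u ∈ Icc (0 : ℝ) 1 := ⟨le_trans hs.1 hu.1, le_trans hu.2 ht.2⟩
    have e1 : Real.exp (-(D.c * k)) * (ε0 * Real.exp (D.c * k)) = ε0 := by
      rw [mul_comm ε0, ← mul_assoc, ← Real.exp_add]
      simp
    have a1 := D.U_dist _ _ _ (D.U_iter_symm k (hU s hs))
    have a2 := D.U_dist _ _ _ (D.U_iter_symm k (hU u hu1))
    rw [e1] at a1 a2
    have a3 := D.S_dist _ _ _ (D.S_iter_symm k (hσ s hs u hu1))
    have a4 : Real.exp (D.b * k) * (S0 * |s - u|) ≤ ε0 := by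
      refine le_trans ?_ hlen
      apply mul_le_mul_of_nonneg_left _ hE.le
      apply mul_le_mul_of_nonneg_left _ hS0
      rw [abs_sub_comm, abs_of_nonneg (by linarith [hu.1])]
      linarith [hu.2]
    have a5 := dist_triangle4 (D.f.symm^[k] (ξ s)) (D.f.symm^[k] (σ s)) (D.f.symm^[k] (σ u))
      (D.f.symm^[k] (ξ u))
    rw [dist_comm (D.f.symm^[k] (ξ s)) (D.f.symm^[k] (σ s))] at a5
    linarith
  have gap : ∀ u ∈ Icc s t, D.S (D.f.symm^[k] (ξ s)) (D.f.symm^[k] (ξ u)) D.r →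
      D.S (D.f.symm^[k] (ξ s)) (D.f.symm^[k] (ξ u)) (3 * D.C * ε0) := by
    intro u hu h
    refine D.S_mono _ _ _ _ ?_ (D.S_cmp _ _ h)
    have := mul_le_mul_of_nonneg_left (hdist u hu) hC0.le
    linarith
  set g : ℝ := D.r - 3 * D.C * ε0 with hg
  have hgpos : 0 < g := by linarith
  obtain ⟨ρ, hρ, hρ2⟩ := hξ (Real.exp (-(D.b * k)) * g) (by positivity)
  obtain ⟨m, hm⟩ := exists_nat_gt ((t - s) / ρ)
  have hts : 0 ≤ t - s := by linarith
  have hm0 : (0 : ℝ) < m := lt_of_le_of_lt (div_nonneg hts hρ.le) hm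
  have hstep : (t - s) / m < ρ := by
    rw [div_lt_iff₀ hm0]
    rw [div_lt_iff₀ hρ] at hm
    linarith
  have hstep0 : 0 ≤ (t - s) / m := div_nonneg hts hm0.le
  have key : ∀ j : ℕ, j ≤ m → D.S (D.f.symm^[k] (ξ s)) (D.f.symm^[k] (ξ (s + j * ((t - s) / m))))
      (3 * D.C * ε0) := by
    intro j
    induction j with
    | zero =>
      intro _
      simp only [Nat.cast_zero, zero_mul, add_zero]
      exact D.S_mono _ _ _ _ (by positivity) (D.S_refl _)
    | succ j ih =>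
      intro hj
      have hj' : (j : ℝ) + 1 ≤ m := by exact_mod_cast hj
      have ih' := ih (by omega)
      have hu : s + (j : ℝ) * ((t - s) / m) ∈ Icc s t := by
        constructor
        · have : 0 ≤ (j : ℝ) * ((t - s) / m) := mul_nonneg (Nat.cast_nonneg _) hstep0
          linarith
        · have : (j : ℝ) * ((t - s) / m) ≤ m * ((t - s) / m) :=
            mul_le_mul_of_nonneg_right (by linarith) hstep0
          rw [mul_div_cancel₀ _ hm0.ne'] at this
          linarith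
      have hu' : s + ((j + 1 : ℕ) : ℝ) * ((t - s) / m) ∈ Icc s t := by
        push_cast
        constructor
        · have : 0 ≤ ((j : ℝ) + 1) * ((t - s) / m) := mul_nonneg (by positivity) hstep0
          linarith
        · have : ((j : ℝ) + 1) * ((t - s) / m) ≤ m * ((t - s) / m) :=
            mul_le_mul_of_nonneg_right hj' hstep0
          rw [mul_div_cancel₀ _ hm0.ne'] at this
          linarith
      have b1 := hρ2 _ ⟨le_trans hs.1 hu.1, le_trans hu.2 ht.2⟩ _
        ⟨le_trans hs.1 hu'.1, le_trans hu'.2 ht.2⟩ (by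
          rw [abs_sub_comm]
          have : s + ((j + 1 : ℕ) : ℝ) * ((t - s) / m) - (s + (j : ℝ) * ((t - s) / m))
              = (t - s) / m := by
            push_cast
            ring
          rw [this, abs_of_nonneg hstep0]
          exact hstep)
      have b2 := D.S_iter_symm k b1
      have e2 : Real.exp (D.b * k) * (Real.exp (-(D.b * k)) * g) = g := by
        rw [← mul_assoc, ← Real.exp_add]
        simp
      rw [e2] at b2
      have b3 := D.S_tri _ _ _ _ _ ih' b2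
      apply gap _ hu'
      refine D.S_mono _ _ _ _ ?_ b3
      rw [hg]
      linarith
  have hfin := key m le_rfl
  rw [mul_div_cancel₀ _ hm0.ne'] at hfin
  have h2 : s + (t - s) = t := by ring
  rw [h2] at hfin
  have h4 := D.S_iter k hfin
  rwa [iter_symm_iter, iter_symm_iter] at h4

/-- Two stable paths whose points stay on the same unstable leaves at bounded unstable distance. -/
theorem Sys.step (D : Sys M) {ε0 : ℝ} (hε0 : 0 < ε0) (h3 : 3 * D.C * ε0 < D.r) (σ ξ : ℝ → M)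
    {S0 : ℝ} (hS0 : 0 ≤ S0)
    (hσ : ∀ s ∈ Icc (0 : ℝ) 1, ∀ s' ∈ Icc (0 : ℝ) 1, D.S (σ s) (σ s') (S0 * |s - s'|))
    (hξ : ∀ ε > 0, ∃ ρ > 0, ∀ s ∈ Icc (0 : ℝ) 1, ∀ s' ∈ Icc (0 : ℝ) 1, |s - s'| < ρ →
      D.S (ξ s) (ξ s') ε)
    (k : ℕ) (hU : ∀ s ∈ Icc (0 : ℝ) 1, D.U (σ s) (ξ s) (ε0 * Real.exp (D.c * k))) :
    D.S (ξ 0) (ξ 1) (3 * D.C * (S0 + ε0) * Real.exp ((D.b - D.a) * k)) := by
  have hC := D.hC
  have hC0 : 0 < D.C := by linarith
  have hE : 0 < Real.exp (D.b * k) := Real.exp_pos _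
  set q : ℝ := Real.exp (D.b * k) * S0 / ε0 with hq
  have hq0 : 0 ≤ q := by positivity
  set n : ℕ := ⌊q⌋₊ + 1 with hn
  have hn1 : q < n := by
    rw [hn]
    exact_mod_cast Nat.lt_floor_add_one q
  have hn2 : (n : ℝ) ≤ q + 1 := by
    rw [hn]
    push_cast
    have := Nat.floor_le hq0
    linarith
  have hn0 : (0 : ℝ) < n := lt_of_le_of_lt hq0 hn1
  have hlen : Real.exp (D.b * k) * (S0 * (1 / n)) ≤ ε0 := by
    have h1 : Real.exp (D.b * k) * S0 = q * ε0 := by
      rw [hq]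
      field_simp
    have h2 : Real.exp (D.b * k) * (S0 * (1 / n)) = q * ε0 / n := by
      rw [← h1]
      ring
    rw [h2, div_le_iff₀ hn0]
    nlinarith
  have key : ∀ j : ℕ, j ≤ n → D.S (ξ 0) (ξ (j / n))
      (j * (Real.exp (-(D.a * k)) * (3 * D.C * ε0))) := by
    intro j
    induction j with
    | zero =>
      intro _
      simp only [Nat.cast_zero, zero_mul, zero_div]
      exact D.S_refl _
    | succ j ih =>
      intro hj
      have hj' : (j : ℝ) + 1 ≤ n := by exact_mod_cast hj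
      have ih' := ih (by omega)
      have hs : (j : ℝ) / n ∈ Icc (0 : ℝ) 1 := by
        refine ⟨by positivity, ?_⟩
        rw [div_le_one hn0]
        linarith
      have ht : ((j + 1 : ℕ) : ℝ) / n ∈ Icc (0 : ℝ) 1 := by
        refine ⟨by positivity, ?_⟩
        rw [div_le_one hn0]
        push_cast
        exact hj'
      have hst : (j : ℝ) / n ≤ ((j + 1 : ℕ) : ℝ) / n := by
        apply div_le_div_of_nonneg_right _ hn0.le
        push_cast
        linarith
      have hd : ((j + 1 : ℕ) : ℝ) / n - (j : ℝ) / n = 1 / n := by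
        push_cast
        ring
      have b1 := STP_piece D hε0 h3 σ ξ hS0 hσ hξ k hU hs ht hst (by rw [hd]; exact hlen)
      have b2 := D.S_tri _ _ _ _ _ ih' b1
      refine D.S_mono _ _ _ _ (le_of_eq ?_) b2
      push_cast
      ring
  have hfin := key n le_rfl
  rw [div_self hn0.ne'] at hfin
  refine D.S_mono _ _ _ _ ?_ hfin
  have hA : 0 < Real.exp (-(D.a * k)) := Real.exp_pos _
  have e1 : Real.exp (D.b * k) * Real.exp (-(D.a * k)) = Real.exp ((D.b - D.a) * k) := by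
    rw [← Real.exp_add]
    congr 1
    ring
  have e2 : Real.exp (-(D.a * k)) ≤ Real.exp ((D.b - D.a) * k) := by
    apply Real.exp_le_exp.mpr
    have hb : 0 ≤ D.b := le_trans D.ha.le D.hab
    have : 0 ≤ D.b * k := mul_nonneg hb (Nat.cast_nonneg k)
    nlinarith
  have e3 : q * ε0 = Real.exp (D.b * k) * S0 := by
    rw [hq]
    field_simp
  calc (n : ℝ) * (Real.exp (-(D.a * k)) * (3 * D.C * ε0))
      ≤ (q + 1) * (Real.exp (-(D.a * k)) * (3 * D.C * ε0)) := by
        apply mul_le_mul_of_nonneg_right hn2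
        positivity
    _ = 3 * D.C * (q * ε0 * Real.exp (-(D.a * k)) + ε0 * Real.exp (-(D.a * k))) := by ring
    _ = 3 * D.C * (S0 * (Real.exp (D.b * k) * Real.exp (-(D.a * k)))
          + ε0 * Real.exp (-(D.a * k))) := by
        rw [e3]
        ring
    _ ≤ 3 * D.C * (S0 * Real.exp ((D.b - D.a) * k) + ε0 * Real.exp ((D.b - D.a) * k)) := by
        rw [e1]
        apply mul_le_mul_of_nonneg_left _ (by positivity)
        have := mul_le_mul_of_nonneg_left e2 hε0.le
        linarith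
    _ = 3 * D.C * (S0 + ε0) * Real.exp ((D.b - D.a) * k) := by ring

end Pool.Agent.ANO
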