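import Mathlib
import Pool.Agent.ANO.STP
import Pool.Agent.ANO.COU

open Set Metric Function

namespace Pool.Agent.ANO

variable {M : Type} [MetricSpace M]

/-- Equally spaced points of a segment give a chain of unstable pieces. -/
theorem Sys.apr_chain (D : Sys M) {F : Type} [NormedAddCommGroup F] [NormedSpace ℝ F] {t : ℝ}
    (ht : t ≤ 1) (g : F → M) {ρ : ℝ}
    (hg : ∀ v ∈ closedBall (0 : F) t, ∀ w ∈ closedBall (0 : F) t, dist v w < ρ →
      D.U (g v) (g w) 1) {N : ℕ} (hN : 0 < N) (hNρ : 1 / (N : ℝ) < ρ) (v : F)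
    (hv : v ∈ closedBall (0 : F) t) :
    ∀ i : ℕ, i ≤ N → D.U (g 0) (g (((i : ℝ) / N) • v)) i := by
  have hN0 : (0 : ℝ) < N := by exact_mod_cast hN
  have hvt : ‖v‖ ≤ t := by simpa using hv
  have hmem : ∀ i : ℕ, i ≤ N → ((i : ℝ) / N) • v ∈ closedBall (0 : F) t := by
    intro i hi
    have h1 : (i : ℝ) / N ≤ 1 := by
      rw [div_le_one hN0]; exact_mod_cast hi
    have h0 : (0 : ℝ) ≤ (i : ℝ) / N := by positivity
    rw [mem_closedBall, dist_zero_right, norm_smul, Real.norm_of_nonneg h0]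
    calc (i : ℝ) / N * ‖v‖ ≤ 1 * ‖v‖ := by gcongr
      _ = ‖v‖ := one_mul _
      _ ≤ t := hvt
  intro i
  induction i with
  | zero =>
    intro _
    simpa using D.U_refl (g 0)
  | succ i ih =>
    intro hi
    have h1 := ih (by omega)
    have h2 : D.U (g (((i : ℝ) / N) • v)) (g ((((i + 1 : ℕ) : ℝ) / N) • v)) 1 := by
      refine hg _ (hmem i (by omega)) _ (hmem (i + 1) hi) ?_
      rw [dist_eq_norm, ← sub_smul, norm_smul]
      have h3 : (i : ℝ) / N - ((i + 1 : ℕ) : ℝ) / N = -(1 / N) := by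
        push_cast; field_simp; ring
      rw [h3, norm_neg, Real.norm_of_nonneg (by positivity)]
      calc 1 / (N : ℝ) * ‖v‖ ≤ 1 / (N : ℝ) * 1 := by
            gcongr
            exact hvt.trans ht
        _ = 1 / (N : ℝ) := mul_one _
        _ < ρ := hNρ
    have h4 := D.U_tri _ _ _ _ _ h1 h2
    have h5 : ((i + 1 : ℕ) : ℝ) = (i : ℝ) + 1 := by push_cast; ring
    rw [h5]
    rw [h5] at h4
    exact h4

/-- The a priori bound for rectangles. -/
theorem Sys.apriori (D : Sys M) {S0 T0 K1 : ℝ} (hS0 : 0 ≤ S0) (hT0 : 0 ≤ T0) (hK1 : 0 ≤ K1) :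
    ∃ K : ℝ, 0 < K ∧ ∀ (α F : Type) [NormedAddCommGroup α] [NormedSpace ℝ α]
      [NormedAddCommGroup F] [NormedSpace ℝ F] (A : Set α) (a0 : α) (t : ℝ) (σ : α → M)
      (h : α → F → M), Convex ℝ A → a0 ∈ A → (∀ s ∈ A, ‖s - a0‖ ≤ 1) → 0 ≤ t → t ≤ 1 →
      Rect D A (closedBall 0 t) h →
      (∀ s ∈ A, ∀ s' ∈ A, D.S (σ s) (σ s') (S0 * ‖s - s'‖)) →
      (∀ v ∈ closedBall (0 : F) t, ∀ w ∈ closedBall (0 : F) t,
        D.U (h a0 v) (h a0 w) (T0 * ‖v - w‖)) →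
      (∀ s ∈ A, D.U (σ s) (h s 0) K1) →
      ∀ s ∈ A, ∀ v ∈ closedBall (0 : F) t, D.S (h a0 v) (h s v) K := by
  have hC := D.hC
  have hr := D.hr
  have hC0 : 0 < D.C := by linarith
  obtain ⟨ε0, hε0, h3⟩ : ∃ ε0 : ℝ, 0 < ε0 ∧ 3 * D.C * ε0 < D.r := by
    refine ⟨D.r / (4 * D.C), by positivity, ?_⟩
    have : 3 * D.C * (D.r / (4 * D.C)) = 3 / 4 * D.r := by
      field_simp
    rw [this]; linarith
  have hP : 0 < 3 * D.C * (S0 + ε0) := by positivity
  have hQ : 0 < K1 + 3 * D.C * (T0 + ε0) := by positivity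
  obtain ⟨K, hK, hcoup⟩ := couple D.ha D.hab D.hc D.hce D.pinch hε0 hP hQ
  refine ⟨K, hK, ?_⟩
  intro α F _ _ _ _ A a0 t σ h hconv ha0 hA ht0 ht1 hrect hσ haxis hK1'
  have hpt : ∀ s ∈ A, ∀ τ ∈ Icc (0 : ℝ) 1, a0 + τ • (s - a0) ∈ A := by
    intro s hs τ hτ
    exact hconv.add_smul_sub_mem ha0 hs hτ
  have hdist : ∀ s ∈ A, ∀ τ τ' : ℝ, ‖(a0 + τ • (s - a0)) - (a0 + τ' • (s - a0))‖ ≤ |τ - τ'| := by
    intro s hs τ τ'
    rw [add_sub_add_left_eq_sub, ← sub_smul, norm_smul, Real.norm_eq_abs]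
    calc |τ - τ'| * ‖s - a0‖ ≤ |τ - τ'| * 1 := by
          gcongr
          exact hA s hs
      _ = |τ - τ'| := mul_one _
  have hball : ∀ v ∈ closedBall (0 : F) t, ∀ τ ∈ Icc (0 : ℝ) 1, τ • v ∈ closedBall (0 : F) t := by
    intro v hv τ hτ
    rw [mem_closedBall, dist_zero_right, norm_smul, Real.norm_of_nonneg hτ.1]
    have hvt : ‖v‖ ≤ t := by simpa using hv
    calc τ * ‖v‖ ≤ 1 * ‖v‖ := by
          gcongr
          exact hτ.2
      _ = ‖v‖ := one_mul _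
      _ ≤ t := hvt
  have hvdist : ∀ v ∈ closedBall (0 : F) t, ∀ τ τ' : ℝ, ‖τ • v - τ' • v‖ ≤ |τ - τ'| := by
    intro v hv τ τ'
    have hvt : ‖v‖ ≤ t := by simpa using hv
    rw [← sub_smul, norm_smul, Real.norm_eq_abs]
    calc |τ - τ'| * ‖v‖ ≤ |τ - τ'| * 1 := by
          gcongr
          exact hvt.trans ht1
      _ = |τ - τ'| := mul_one _
  have h0mem : (0 : F) ∈ closedBall (0 : F) t := by simpa using ht0
  obtain ⟨_, hPV⟩ := hcoup
    (fun t' => ∀ s ∈ A, ∀ v ∈ closedBall (0 : F) t, D.U (σ s) (h s v) t')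
    (fun t' => ∀ s ∈ A, ∀ v ∈ closedBall (0 : F) t, D.S (h a0 v) (h s v) t')
    (fun t1 t2 h12 hU s hs v hv => D.U_mono _ _ _ _ h12 (hU s hs v hv))
    (fun t1 t2 h12 hS s hs v hv => D.S_mono _ _ _ _ h12 (hS s hs v hv))
    (by
      obtain ⟨ρ, hρ, hmod⟩ := hrect.2 1 one_pos
      obtain ⟨N, hN⟩ := exists_nat_gt (1 / ρ)
      have hNpos : (0 : ℝ) < N := lt_trans (by positivity) hN
      have hN0 : 0 < N := by exact_mod_cast hNpos
      have hNρ : 1 / (N : ℝ) < ρ := by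
        rw [div_lt_iff₀ hNpos]
        rw [div_lt_iff₀ hρ] at hN
        linarith [mul_comm (N : ℝ) ρ]
      refine ⟨K1 + N, fun s hs v hv => ?_⟩
      have h1 := D.apr_chain ht1 (fun w => h s w) (fun v hv w hw hvw => hmod s hs v hv w hw hvw)
        hN0 hNρ v hv N le_rfl
      rw [div_self (ne_of_gt hNpos), one_smul] at h1
      exact D.U_tri _ _ _ _ _ (hK1' s hs) h1)
    (by
      intro k hPU s hs v hv
      have := D.step hε0 h3 (fun τ => σ (a0 + τ • (s - a0))) (fun τ => h (a0 + τ • (s - a0)) v)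
        hS0
        (fun τ hτ τ' hτ' => D.S_mono _ _ _ _
          (mul_le_mul_of_nonneg_left (hdist s hs τ τ') hS0)
          (hσ _ (hpt s hs τ hτ) _ (hpt s hs τ' hτ')))
        (fun ε hε => by
          obtain ⟨ρ, hρ, hmod⟩ := hrect.1 ε hε
          refine ⟨ρ, hρ, fun τ hτ τ' hτ' hττ => hmod _ (hpt s hs τ hτ) _ (hpt s hs τ' hτ') v hv ?_⟩
          rw [dist_eq_norm]
          exact lt_of_le_of_lt (hdist s hs τ τ') hττ)
        k (fun τ hτ => hPU _ (hpt s hs τ hτ) v hv)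
      simpa using this)
    (by
      intro l hPVl s hs v hv
      have h1 := D.symm.step hε0 h3 (fun τ => h a0 (τ • v)) (fun τ => h s (τ • v)) hT0
        (fun τ hτ τ' hτ' => D.U_mono _ _ _ _
          (mul_le_mul_of_nonneg_left (hvdist v hv τ τ') hT0)
          (haxis _ (hball v hv τ hτ) _ (hball v hv τ' hτ')))
        (fun ε hε => by
          obtain ⟨ρ, hρ, hmod⟩ := hrect.2 ε hε
          refine ⟨ρ, hρ, fun τ hτ τ' hτ' hττ => hmod s hs _ (hball v hv τ hτ) _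
            (hball v hv τ' hτ') ?_⟩
          rw [dist_eq_norm]
          exact lt_of_le_of_lt (hvdist v hv τ τ') hττ)
        l (fun τ hτ => hPVl s hs _ (hball v hv τ hτ))
      have h2 : D.U (h s 0) (h s v) (3 * D.C * (T0 + ε0) * Real.exp ((D.e - D.c) * l)) := by
        simp only [zero_smul, one_smul] at h1
        exact h1
      have h4 := D.U_tri _ _ _ _ _ (hK1' s hs) h2
      refine D.U_mono _ _ _ _ ?_ h4
      have h5 : 1 ≤ Real.exp ((D.e - D.c) * l) := by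
        apply Real.one_le_exp
        have := D.hce
        have h6 : 0 ≤ D.e - D.c := by linarith
        positivity
      have h7 : K1 * 1 ≤ K1 * Real.exp ((D.e - D.c) * l) := by gcongr
      calc K1 + 3 * D.C * (T0 + ε0) * Real.exp ((D.e - D.c) * l)
          ≤ K1 * Real.exp ((D.e - D.c) * l) + 3 * D.C * (T0 + ε0) * Real.exp ((D.e - D.c) * l) := by
            linarith
        _ = (K1 + 3 * D.C * (T0 + ε0)) * Real.exp ((D.e - D.c) * l) := by ring)
  exact hPV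

end Pool.Agent.ANO
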