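import Mathlib
import Pool.Agent.ANO.BAS

open Set Metric Function

namespace Pool.Agent.ANO

variable {M : Type} [MetricSpace M]

/-- One step of the extension: from the ball of radius `t` to the ball of radius `t'`, where `t = q t'`. -/
private theorem Sys.extend_step [CompactSpace M] (D : Sys M) {α : Type} [PseudoMetricSpace α]
    (A : Set α) (a0 : α) (ha0 : a0 ∈ A) (ℓ : α → M)
    {F : Type} [NormedAddCommGroup F] [NormedSpace ℝ F] (ψ : F → M) (T0 : ℝ) (hT0 : 0 ≤ T0)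
    (hψ : ∀ v w : F, ‖v‖ ≤ 1 → ‖w‖ ≤ 1 → D.U (ψ v) (ψ w) (T0 * ‖v - w‖))
    (K : ℝ) {ε δ ε0 : ℝ} {B : M → M → M} (hε : 0 < ε) (h4 : 4 * ε ≤ D.r)
    (huni : ∀ x y, D.S x y (2 * ε) → D.U x y (2 * ε) → x = y)
    (hB : ∀ x y, dist x y < δ → D.S x (B x y) ε ∧ D.U y (B x y) ε)
    (hBc : ∀ η > 0, ∃ ρ > 0, ∀ x x' y y', dist x y < δ → dist x' y' < δ → dist x x' < ρ →
      dist y y' < ρ → dist (B x y) (B x' y') < η)
    (he1 : 2 * ε0 < δ) (he2 : ε0 ≤ ε) (l : ℕ) (hl : Real.exp (-(D.a * l)) * K ≤ ε0)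
    (q t t' : ℝ) (hq0 : 0 ≤ q) (hq1 : q ≤ 1) (ht' : t' ≤ 1) (htt : q * t' = t)
    (hsm : Real.exp (D.e * l) * (T0 * ((1 - q) * t')) ≤ ε0)
    (h : α → F → M) (hR : Rect D A (closedBall 0 t) h)
    (hb1 : ∀ s ∈ A, h s 0 = ℓ s) (hb2 : ∀ v ∈ closedBall (0 : F) t, h a0 v = ψ v) (ht0 : 0 ≤ t)
    (hK : ∀ s ∈ A, ∀ v ∈ closedBall (0 : F) t, D.S (h a0 v) (h s v) K) :
    ∃ h' : α → F → M, Rect D A (closedBall 0 t') h' ∧ (∀ s ∈ A, h' s 0 = ℓ s) ∧
      ∀ v ∈ closedBall (0 : F) t', h' a0 v = ψ v := by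
  have hC := D.hC
  have hC0 : 0 < D.C := by linarith
  have hmem : ∀ v ∈ closedBall (0 : F) t', q • v ∈ closedBall (0 : F) t := by
    intro v hv
    rw [mem_closedBall_zero_iff] at hv ⊢
    rw [norm_smul, Real.norm_eq_abs, abs_of_nonneg hq0, ← htt]
    exact mul_le_mul_of_nonneg_left hv hq0
  have hv1 : ∀ v ∈ closedBall (0 : F) t', ‖v‖ ≤ 1 := by
    intro v hv
    rw [mem_closedBall_zero_iff] at hv
    exact hv.trans ht'
  have hqn : ∀ v ∈ closedBall (0 : F) t', ‖q • v‖ ≤ 1 := by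
    intro v hv
    rw [norm_smul, Real.norm_eq_abs, abs_of_nonneg hq0]
    have := hv1 v hv
    have := norm_nonneg v
    nlinarith
  -- the two closeness estimates
  have cU : ∀ v ∈ closedBall (0 : F) t', D.U (D.f^[l] (ψ (q • v))) (D.f^[l] (ψ v)) ε0 := by
    intro v hv
    have h1 := D.U_iter l (hψ (q • v) v (hqn v hv) (hv1 v hv))
    refine D.U_mono _ _ _ _ (le_trans ?_ hsm) h1
    have h2 : ‖q • v - v‖ ≤ (1 - q) * t' := by
      have h3 : q • v - v = (-(1 - q)) • v := by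
        rw [neg_smul, sub_smul, one_smul]
        abel
      rw [h3, norm_smul, Real.norm_eq_abs, abs_neg, abs_of_nonneg (by linarith)]
      rw [mem_closedBall_zero_iff] at hv
      exact mul_le_mul_of_nonneg_left hv (by linarith)
    exact mul_le_mul_of_nonneg_left (mul_le_mul_of_nonneg_left h2 hT0) (Real.exp_pos _).le
  have cS : ∀ s ∈ A, ∀ v ∈ closedBall (0 : F) t',
      D.S (D.f^[l] (ψ (q • v))) (D.f^[l] (h s (q • v))) ε0 := by
    intro s hs v hv
    have h1 := D.S_iter l (hK s hs (q • v) (hmem v hv))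
    rw [hb2 _ (hmem v hv)] at h1
    exact D.S_mono _ _ _ _ hl h1
  have close : ∀ s ∈ A, ∀ v ∈ closedBall (0 : F) t',
      dist (D.f^[l] (ψ v)) (D.f^[l] (h s (q • v))) < δ := by
    intro s hs v hv
    have h1 := D.U_dist _ _ _ (cU v hv)
    have h2 := D.S_dist _ _ _ (cS s hs v hv)
    have h3 := dist_triangle (D.f^[l] (ψ v)) (D.f^[l] (ψ (q • v))) (D.f^[l] (h s (q • v)))
    rw [dist_comm (D.f^[l] (ψ v)) (D.f^[l] (ψ (q • v)))] at h3
    linarith
  have hfs : ∀ z, D.f.symm^[l] (D.f^[l] z) = z := fun z => symm_iter_iter D.f l z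
  refine ⟨fun s v => D.f.symm^[l] (B (D.f^[l] (ψ v)) (D.f^[l] (h s (q • v)))), ⟨?_, ?_⟩, ?_, ?_⟩
  · -- R1
    intro ε' hε'
    have hE : 0 < Real.exp (D.b * l) := Real.exp_pos _
    set η : ℝ := ε' / (Real.exp (D.b * l) * D.C) with hη
    have hη0 : 0 < η := by positivity
    obtain ⟨ρ1, hρ1, hρ1c⟩ := hBc η hη0
    obtain ⟨ρ, hρ, hρc⟩ := hR.1 (ρ1 / 2) (half_pos hρ1)
    refine ⟨ρ, hρ, fun s hs s' hs' v hv hd => ?_⟩
    have h1 := D.S_iter l (hρc s hs s' hs' (q • v) (hmem v hv) hd)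
    have h2 := D.S_dist _ _ _ h1
    have hle : Real.exp (-(D.a * l)) ≤ 1 := by
      apply Real.exp_le_one_iff.mpr
      have : 0 ≤ D.a * l := mul_nonneg D.ha.le (Nat.cast_nonneg l)
      linarith
    have h3 : dist (D.f^[l] (h s (q • v))) (D.f^[l] (h s' (q • v))) < ρ1 := by
      refine lt_of_le_of_lt h2 ?_
      nlinarith [mul_le_mul_of_nonneg_right hle (half_pos hρ1).le]
    have h5 := hρ1c _ _ _ _ (close s hs v hv) (close s' hs' v hv)
      (by rw [dist_self]; exact hρ1) h3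
    have h6 := D.S_tri _ _ _ _ _ (D.S_symm _ _ _ (hB _ _ (close s hs v hv)).1)
      (hB _ _ (close s' hs' v hv)).1
    have h7 := D.S_cmp _ _ (D.S_mono _ _ _ _ (by linarith) h6)
    have h8 := D.S_iter_symm l h7
    refine D.S_mono _ _ _ _ ?_ h8
    calc Real.exp (D.b * l) * (D.C * dist _ _) ≤ Real.exp (D.b * l) * (D.C * η) :=
          mul_le_mul_of_nonneg_left (mul_le_mul_of_nonneg_left h5.le hC0.le) hE.le
      _ = ε' := by
        rw [hη]
        field_simp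
  · -- R2
    intro ε' hε'
    have hE : 0 < Real.exp (D.e * l) := Real.exp_pos _
    set η : ℝ := ε' / D.C with hη
    have hη0 : 0 < η := by positivity
    obtain ⟨ρ1, hρ1, hρ1c⟩ := hBc η hη0
    set ε'' : ℝ := min (ρ1 / 2) ε / Real.exp (D.e * l) with hε''
    have hm : 0 < min (ρ1 / 2) ε := lt_min (half_pos hρ1) hε
    have hε''0 : 0 < ε'' := by positivity
    have hmul : Real.exp (D.e * l) * ε'' = min (ρ1 / 2) ε := by
      rw [hε'']
      field_simp
    obtain ⟨ρ2, hρ2, hρ2c⟩ := hR.2 ε'' hε''0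
    set ρ3 : ℝ := ρ1 / (Real.exp (D.e * l) * (T0 + 1)) with hρ3
    have hρ30 : 0 < ρ3 := by positivity
    refine ⟨min ρ2 ρ3, lt_min hρ2 hρ30, fun s hs v hv w hw hd => ?_⟩
    have hd2 : dist (q • v) (q • w) < ρ2 := by
      refine lt_of_le_of_lt ?_ (hd.trans_le (min_le_left _ _))
      rw [dist_eq_norm, dist_eq_norm, ← smul_sub, norm_smul, Real.norm_eq_abs, abs_of_nonneg hq0]
      have := norm_nonneg (v - w)
      nlinarith
    have hd3 : ‖v - w‖ < ρ3 := by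
      rw [← dist_eq_norm]
      exact hd.trans_le (min_le_right _ _)
    have h1 := D.U_iter l (hρ2c s hs (q • v) (hmem v hv) (q • w) (hmem w hw) hd2)
    rw [hmul] at h1
    have h2 := D.U_dist _ _ _ h1
    have h3 : dist (D.f^[l] (h s (q • v))) (D.f^[l] (h s (q • w))) < ρ1 :=
      lt_of_le_of_lt (h2.trans (min_le_left _ _)) (half_lt_self hρ1)
    have h1' := D.U_dist _ _ _ (D.U_iter l (hψ v w (hv1 v hv) (hv1 w hw)))
    have h3' : dist (D.f^[l] (ψ v)) (D.f^[l] (ψ w)) < ρ1 := by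
      refine lt_of_le_of_lt h1' ?_
      have e1 : Real.exp (D.e * l) * ((T0 + 1) * ρ3) = ρ1 := by
        rw [hρ3]
        field_simp
      rw [← e1]
      apply mul_lt_mul_of_pos_left _ hE
      have := norm_nonneg (v - w)
      nlinarith
    have h5 := hρ1c _ _ _ _ (close s hs v hv) (close s hs w hw) h3' h3
    have h6 := D.U_tri _ _ _ _ _ (D.U_symm _ _ _ (hB _ _ (close s hs v hv)).2) h1
    have h6' := D.U_tri _ _ _ _ _ h6 (hB _ _ (close s hs w hw)).2
    have hle : ε + min (ρ1 / 2) ε + ε ≤ D.r := by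
      have := min_le_right (ρ1 / 2) ε
      linarith
    have h7 := D.U_cmp _ _ (D.U_mono _ _ _ _ hle h6')
    have h8 := D.U_iter_symm l h7
    refine D.U_mono _ _ _ _ ?_ h8
    have hle1 : Real.exp (-(D.c * l)) ≤ 1 := by
      apply Real.exp_le_one_iff.mpr
      have : 0 ≤ D.c * l := mul_nonneg D.hc.le (Nat.cast_nonneg l)
      linarith
    have h9 : D.C * dist (B (D.f^[l] (ψ v)) (D.f^[l] (h s (q • v))))
        (B (D.f^[l] (ψ w)) (D.f^[l] (h s (q • w)))) ≤ ε' := by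
      calc _ ≤ D.C * η := mul_le_mul_of_nonneg_left h5.le hC0.le
        _ = ε' := by
          rw [hη]
          field_simp
    calc _ ≤ 1 * (D.C * dist (B (D.f^[l] (ψ v)) (D.f^[l] (h s (q • v))))
        (B (D.f^[l] (ψ w)) (D.f^[l] (h s (q • w))))) :=
          mul_le_mul_of_nonneg_right hle1 (by positivity)
      _ ≤ ε' := by
        rw [one_mul]
        exact h9
  · -- first base
    intro s hs
    have hS : D.S (D.f^[l] (ψ 0)) (D.f^[l] (h s (q • (0 : F)))) ε0 := by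
      have hz : (0 : F) ∈ closedBall (0 : F) t := by
        rw [mem_closedBall_zero_iff, norm_zero]
        exact ht0
      have h1 := D.S_iter l (hK s hs 0 hz)
      rw [hb2 _ hz] at h1
      rw [smul_zero]
      exact D.S_mono _ _ _ _ hl h1
    have hcl : dist (D.f^[l] (ψ 0)) (D.f^[l] (h s (q • (0 : F)))) < δ := by
      have h2 := D.S_dist _ _ _ hS
      have h3 : 0 ≤ ε0 := le_trans dist_nonneg h2
      linarith
    have hBB := hB _ _ hcl
    have hy : D.f^[l] (h s (q • (0 : F))) = B (D.f^[l] (ψ 0)) (D.f^[l] (h s (q • (0 : F)))) := by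
      apply huni
      · have h1 := D.S_tri _ _ _ _ _ (D.S_symm _ _ _ hS) hBB.1
        exact D.S_mono _ _ _ _ (by linarith) h1
      · exact D.U_mono _ _ _ _ (by linarith) hBB.2
    show D.f.symm^[l] (B (D.f^[l] (ψ 0)) (D.f^[l] (h s (q • (0 : F))))) = ℓ s
    rw [← hy, hfs, smul_zero, hb1 s hs]
  · -- second base
    intro v hv
    have hBB := hB _ _ (close a0 ha0 v hv)
    have hcu := cU v hv
    have hx : D.f^[l] (ψ v) = B (D.f^[l] (ψ v)) (D.f^[l] (h a0 (q • v))) := by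
      apply huni
      · exact D.S_mono _ _ _ _ (by linarith) hBB.1
      · have h2 := hBB.2
        rw [hb2 _ (hmem v hv)] at h2 ⊢
        have h1 := D.U_tri _ _ _ _ _ (D.U_symm _ _ _ hcu) h2
        exact D.U_mono _ _ _ _ (by linarith) h1
    show D.f.symm^[l] (B (D.f^[l] (ψ v)) (D.f^[l] (h a0 (q • v)))) = ψ v
    rw [← hx, hfs]

/-- Extension of rectangles under an a priori bound. -/
theorem Sys.extend [CompactSpace M] (D : Sys M) {α : Type} [PseudoMetricSpace α] (A : Set α) (a0 : α)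
    (ha0 : a0 ∈ A) (ℓ : α → M)
    (hℓ : ∀ ε > 0, ∃ ρ > 0, ∀ s ∈ A, ∀ s' ∈ A, dist s s' < ρ → D.S (ℓ s) (ℓ s') ε)
    {F : Type} [NormedAddCommGroup F] [NormedSpace ℝ F] (ψ : F → M) (T0 : ℝ) (hT0 : 0 ≤ T0)
    (hψ : ∀ v w : F, ‖v‖ ≤ 1 → ‖w‖ ≤ 1 → D.U (ψ v) (ψ w) (T0 * ‖v - w‖)) (h0 : ℓ a0 = ψ 0)
    (K : ℝ)
    (hK : ∀ t ∈ Icc (0 : ℝ) 1, ∀ h : α → F → M, Rect D A (closedBall 0 t) h →
      (∀ s ∈ A, h s 0 = ℓ s) → (∀ v ∈ closedBall (0 : F) t, h a0 v = ψ v) →
      ∀ s ∈ A, ∀ v ∈ closedBall (0 : F) t, D.S (h a0 v) (h s v) K) :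
    ∃ h : α → F → M, Rect D A (closedBall 0 1) h ∧ (∀ s ∈ A, h s 0 = ℓ s) ∧
      ∀ v ∈ closedBall (0 : F) 1, h a0 v = ψ v := by
  obtain ⟨ε, δ, B, hε, hδ, h4, huni, hB, hBc⟩ := D.exists_bracket
  set ε0 : ℝ := min (δ / 4) ε with hε0
  have he0 : 0 < ε0 := lt_min (by linarith) hε
  have he1 : 2 * ε0 < δ := by
    have := min_le_left (δ / 4) ε
    linarith
  have he2 : ε0 ≤ ε := min_le_right _ _
  -- the number of iterations
  have hlim : Filter.Tendsto (fun n : ℕ => Real.exp (-(D.a * n)) * K) Filter.atTop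
      (nhds (0 * K)) := by
    apply Filter.Tendsto.mul_const
    apply Real.tendsto_exp_neg_atTop_nhds_zero.comp
    exact Filter.Tendsto.const_mul_atTop D.ha tendsto_natCast_atTop_atTop
  rw [zero_mul] at hlim
  obtain ⟨l, hl⟩ := (hlim.eventually (ge_mem_nhds he0)).exists
  -- the number of steps
  obtain ⟨N0, hN0⟩ := exists_nat_gt (Real.exp (D.e * l) * T0 / ε0)
  set N : ℕ := N0 + 1 with hNdef
  have hN : 0 < N := Nat.succ_pos _
  have hNR : (0 : ℝ) < N := by exact_mod_cast hN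
  have hNl : Real.exp (D.e * l) * (T0 * (1 / N)) ≤ ε0 := by
    have h1 : Real.exp (D.e * l) * T0 / ε0 < N := by
      refine hN0.trans ?_
      rw [hNdef]
      push_cast
      linarith
    rw [div_lt_iff₀ he0] at h1
    have h2 : Real.exp (D.e * l) * (T0 * (1 / N)) = Real.exp (D.e * l) * T0 / N := by ring
    rw [h2, div_le_iff₀ hNR]
    linarith
  have main : ∀ j : ℕ, j ≤ N → ∃ h : α → F → M, Rect D A (closedBall 0 ((j : ℝ) / N)) h ∧
      (∀ s ∈ A, h s 0 = ℓ s) ∧ ∀ v ∈ closedBall (0 : F) ((j : ℝ) / N), h a0 v = ψ v := by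
    intro j
    induction j with
    | zero =>
      intro _
      have hz : ∀ v ∈ closedBall (0 : F) (((0 : ℕ) : ℝ) / N), v = 0 := by
        intro v hv
        rw [mem_closedBall_zero_iff] at hv
        simp only [Nat.cast_zero, zero_div] at hv
        exact norm_le_zero_iff.mp hv
      refine ⟨fun s _ => ℓ s, ⟨?_, ?_⟩, fun s _ => rfl, ?_⟩
      · intro ε' hε'
        obtain ⟨ρ, hρ, hc⟩ := hℓ ε' hε'
        exact ⟨ρ, hρ, fun s hs s' hs' _ _ hd => hc s hs s' hs' hd⟩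
      · intro ε' hε'
        exact ⟨1, one_pos, fun s _ v _ w _ _ => D.U_mono _ _ _ _ hε'.le (D.U_refl _)⟩
      · intro v hv
        rw [hz v hv]
        exact h0
    | succ j ih =>
      intro hj
      obtain ⟨h, hR, hb1, hb2⟩ := ih (by omega)
      have hj1 : (0 : ℝ) < (j : ℝ) + 1 := by positivity
      have hjN : ((j : ℝ) + 1) ≤ N := by exact_mod_cast hj
      have ht0 : (0 : ℝ) ≤ (j : ℝ) / N := by positivity
      have ht1 : (j : ℝ) / N ≤ 1 := by
        rw [div_le_one hNR]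
        linarith
      refine D.extend_step A a0 ha0 ℓ ψ T0 hT0 hψ K hε h4 huni hB hBc he1 he2 l hl
        ((j : ℝ) / (j + 1)) ((j : ℝ) / N) (((j + 1 : ℕ) : ℝ) / N) (by positivity) ?_ ?_ ?_ ?_ h hR
        hb1 hb2 ht0 (hK _ ⟨ht0, ht1⟩ h hR hb1 hb2)
      · rw [div_le_one hj1]
        linarith
      · rw [div_le_one hNR]
        push_cast
        exact hjN
      · push_cast
        field_simp
      · have : (1 - (j : ℝ) / (j + 1)) * (((j + 1 : ℕ) : ℝ) / N) = 1 / N := by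
          push_cast
          field_simp
          ring
        rw [this]
        exact hNl
  obtain ⟨h, hR, hb1, hb2⟩ := main N le_rfl
  rw [div_self hNR.ne'] at hR hb2
  exact ⟨h, hR, hb1, hb2⟩

end Pool.Agent.ANO
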