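import Mathlib
import Pool.Agent.ANO.BAS

open Set Metric Function

namespace Pool.Agent.ANO

variable {M : Type} [MetricSpace M]

/-- Rectangles are determined by two sides. -/
theorem Rect.unique {D : Sys M} {α β : Type} [NormedAddCommGroup α] [NormedSpace ℝ α]
    [NormedAddCommGroup β] [NormedSpace ℝ β] {A : Set α} {B : Set β} (hA : Convex ℝ A)
    (hB : Convex ℝ B) {a0 : α} {b0 : β} (ha0 : a0 ∈ A) (hb0 : b0 ∈ B) {h h' : α → β → M}
    (hh : Rect D A B h) (hh' : Rect D A B h') (h1 : ∀ s ∈ A, h s b0 = h' s b0)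
    (h2 : ∀ t ∈ B, h a0 t = h' a0 t) : ∀ s ∈ A, ∀ t ∈ B, h s t = h' s t := by
  obtain ⟨ε, hε, hexp⟩ := D.expansive
  obtain ⟨ρ1, hρ1, q1⟩ := hh.1 (ε / 2) (half_pos hε)
  obtain ⟨ρ2, hρ2, q2⟩ := hh'.1 (ε / 2) (half_pos hε)
  obtain ⟨ρ3, hρ3, q3⟩ := hh.2 (ε / 2) (half_pos hε)
  obtain ⟨ρ4, hρ4, q4⟩ := hh'.2 (ε / 2) (half_pos hε)
  have step : ∀ s ∈ A, ∀ s' ∈ A, ∀ t ∈ B, ∀ t' ∈ B, dist s s' < min ρ1 ρ2 → dist t t' < min ρ3 ρ4 →
      h s t' = h' s t' → h s' t = h' s' t → h s' t' = h' s' t' := by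
    intro s hs s' hs' t ht t' ht' d1 d2 e1 e2
    have a1 := q1 s hs s' hs' t' ht' (lt_of_lt_of_le d1 (min_le_left _ _))
    have a2 := q2 s hs s' hs' t' ht' (lt_of_lt_of_le d1 (min_le_right _ _))
    have a3 := q3 s' hs' t ht t' ht' (lt_of_lt_of_le d2 (min_le_left _ _))
    have a4 := q4 s' hs' t ht t' ht' (lt_of_lt_of_le d2 (min_le_right _ _))
    rw [e1] at a1
    rw [e2] at a3
    apply hexp
    · have := D.S_tri _ _ _ _ _ (D.S_symm _ _ _ a1) a2
      simpa using this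
    · have := D.U_tri _ _ _ _ _ (D.U_symm _ _ _ a3) a4
      simpa using this
  intro s hs t ht
  have hρ : 0 < min (min ρ1 ρ2) (min ρ3 ρ4) := by
    simp only [lt_min_iff]
    exact ⟨⟨hρ1, hρ2⟩, ⟨hρ3, hρ4⟩⟩
  set ρ := min (min ρ1 ρ2) (min ρ3 ρ4) with hρdef
  obtain ⟨n, hn⟩ := exists_nat_gt ((‖s - a0‖ + ‖t - b0‖) / ρ)
  have hn0 : (0 : ℝ) < n := lt_of_le_of_lt (by positivity) hn
  have hlt : ‖s - a0‖ + ‖t - b0‖ < ρ * n := by
    rw [div_lt_iff₀ hρ] at hn
    linarith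
  have hs0 := norm_nonneg (s - a0)
  have ht0 := norm_nonneg (t - b0)
  have mem1 : ∀ i : ℕ, i ≤ n → a0 + ((i : ℝ) / n) • (s - a0) ∈ A := by
    intro i hi
    apply hA.add_smul_sub_mem ha0 hs
    constructor
    · positivity
    · rw [div_le_one hn0]
      exact_mod_cast hi
  have mem2 : ∀ i : ℕ, i ≤ n → b0 + ((i : ℝ) / n) • (t - b0) ∈ B := by
    intro i hi
    apply hB.add_smul_sub_mem hb0 ht
    constructor
    · positivity
    · rw [div_le_one hn0]
      exact_mod_cast hi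
  have dst : ∀ (V : Type) [NormedAddCommGroup V] [NormedSpace ℝ V] (v w : V) (i : ℕ), ‖w‖ < ρ * n →
      dist (v + ((i : ℝ) / n) • w) (v + (((i + 1 : ℕ) : ℝ) / n) • w) < ρ := by
    intro V _ _ v w i hw
    rw [dist_eq_norm, add_sub_add_left_eq_sub, ← sub_smul]
    have : (i : ℝ) / n - ((i + 1 : ℕ) : ℝ) / n = -(1 / n) := by
      push_cast
      field_simp
      ring
    rw [this, norm_smul, Real.norm_eq_abs, abs_neg, abs_of_pos (by positivity)]
    rw [one_div, inv_mul_lt_iff₀ hn0]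
    linarith
  have key : ∀ i : ℕ, i ≤ n → ∀ j : ℕ, j ≤ n →
      h (a0 + ((i : ℝ) / n) • (s - a0)) (b0 + ((j : ℝ) / n) • (t - b0)) =
      h' (a0 + ((i : ℝ) / n) • (s - a0)) (b0 + ((j : ℝ) / n) • (t - b0)) := by
    intro i
    induction i with
    | zero =>
      intro _ j hj
      have := h2 _ (mem2 j hj)
      simpa using this
    | succ i ih =>
      intro hi j
      induction j with
      | zero =>
        intro _
        have := h1 _ (mem1 (i + 1) hi)
        simpa using this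
      | succ j jh =>
        intro hj
        refine step _ (mem1 i (by omega)) _ (mem1 (i + 1) hi) _ (mem2 j (by omega)) _
          (mem2 (j + 1) hj) ?_ ?_ (ih (by omega) (j + 1) hj) (jh (by omega))
        · exact lt_of_lt_of_le (dst _ _ _ i (by linarith)) (min_le_left _ _)
        · exact lt_of_lt_of_le (dst _ _ _ j (by linarith)) (min_le_right _ _)
  have := key n le_rfl n le_rfl
  rw [div_self hn0.ne', one_smul, one_smul, add_sub_cancel, add_sub_cancel] at this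
  exact this

end Pool.Agent.ANO
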