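import Mathlib
import Pool.Agent.ANO.SEC
import Pool.Agent.ANO.LIN
import Pool.Agent.ANO.TOP

open Set Metric Function Topology

namespace Pool.Agent.ANO

variable {M : Type} [MetricSpace M] {E : Type} [NormedAddCommGroup E] [NormedSpace ℝ E]

theorem exists_covering [CompactSpace M] [LocallyConnectedSpace M] [FiniteDimensional ℝ E]
    (D : Sys M) (Λ : Leaves M D E) (x : M) (hc : IsCompl (Λ.Es x) (Λ.Eu x)) :
    ∃ p : E → M, IsCoveringMap p := by
  obtain ⟨Φ, hΦ⟩ := exists_phi D Λ x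
  obtain ⟨r, hr, hsec⟩ := hΦ.sections
  have hcov : IsCoveringMap (fun p : Λ.Es x × Λ.Eu x => Φ p.1 p.2) :=
    isCoveringMap_of_sections _ hΦ.continuous hΦ.locInj r hr hsec
  let e : (Λ.Es x × Λ.Eu x) ≃L[ℝ] E :=
    (Submodule.prodEquivOfIsCompl _ _ hc).toContinuousLinearEquiv
  exact ⟨_, hcov.comp_homeomorph e.symm.toHomeomorph⟩

end Pool.Agent.ANO
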