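import Mathlib
import Pool.Agent.ANO.BKT

open Set Metric Function

namespace Pool.Agent.ANO

variable {M : Type} [MetricSpace M] {E : Type} [NormedAddCommGroup E] [NormedSpace ℝ E]

/-- The pinching is an open condition. -/
private theorem tos_rates {α β γ δ : ℝ} (hα : 0 < α) (hαβ : α ≤ β) (hγ : 0 < γ) (hγδ : γ ≤ δ)
    (h : (β - α) * (δ - γ) < α * γ) :
    ∃ t > 0, t < α ∧ t < γ ∧ ((β + t) - (α - t)) * ((δ + t) - (γ - t)) < (α - t) * (γ - t) := by
  set K : ℝ := 2 * (β - α) + 2 * (δ - γ) + α + γ + 3 with hK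
  have hK0 : 0 < K := by linarith
  set D : ℝ := α * γ - (β - α) * (δ - γ) with hD
  have hD0 : 0 < D := by linarith
  refine ⟨min (min 1 (D / (2 * K))) (min (α / 2) (γ / 2)), ?_, ?_, ?_, ?_⟩
  · exact lt_min (lt_min one_pos (by positivity)) (lt_min (by linarith) (by linarith))
  · have h1 := min_le_right (min 1 (D / (2 * K))) (min (α / 2) (γ / 2))
    have h2 := min_le_left (α / 2) (γ / 2)
    linarith
  · have h1 := min_le_right (min 1 (D / (2 * K))) (min (α / 2) (γ / 2))
    have h2 := min_le_right (α / 2) (γ / 2)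
    linarith
  · set t : ℝ := min (min 1 (D / (2 * K))) (min (α / 2) (γ / 2)) with ht
    have ht0 : 0 < t := lt_min (lt_min one_pos (by positivity)) (lt_min (by linarith) (by linarith))
    have ht1 : t ≤ 1 := (min_le_left _ _).trans (min_le_left _ _)
    have ht2 : t ≤ D / (2 * K) := (min_le_left _ _).trans (min_le_right _ _)
    have ht3 : t * K ≤ D / 2 := by
      rw [le_div_iff₀ (by positivity)] at ht2
      linarith
    have ht4 : t * t ≤ t := by nlinarith
    have e1 : ((β + t) - (α - t)) * ((δ + t) - (γ - t)) =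
        (β - α) * (δ - γ) + t * (2 * (β - α) + 2 * (δ - γ)) + 4 * (t * t) := by ring
    have e2 : (α - t) * (γ - t) = α * γ - t * (α + γ) + t * t := by ring
    have e3 : t * K = t * (2 * (β - α) + 2 * (δ - γ)) + t * (α + γ) + 3 * t := by
      rw [hK]
      ring
    rw [e1, e2]
    linarith

private theorem tos_dist {f : M ≃ₜ M} {a b : ℝ} (ha : 0 < a) {x y : M} {t : ℝ}
    (h : SRel f a b x y t) (k : ℕ) : dist (f^[k] x) (f^[k] y) ≤ t := by
  have h1 := h.1 k
  have h2 : (1 : ℝ) ≤ Real.exp (a * k) := Real.one_le_exp (by positivity)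
  have h3 : 0 ≤ dist (f^[k] x) (f^[k] y) := dist_nonneg
  calc dist (f^[k] x) (f^[k] y) = 1 * dist (f^[k] x) (f^[k] y) := (one_mul _).symm
    _ ≤ Real.exp (a * k) * dist (f^[k] x) (f^[k] y) := mul_le_mul_of_nonneg_right h2 h3
    _ ≤ t := h1

/-- From local coordinates to the abstract system. -/
theorem Trans.exists_sys [CompactSpace M] [FiniteDimensional ℝ E] {H : Loc M E} (T : Trans H)
    (pinch : (Real.log H.l2 - Real.log H.l1) * (Real.log H.m1 - Real.log H.m2) <
      (-Real.log H.l2) * Real.log H.m2) :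
    ∃ (D : Sys M) (Λ : Leaves M D E), ∀ x, IsCompl (Λ.Es x) (Λ.Eu x) := by
  have hl1 := H.hl1
  have hl2 : 0 < H.l2 := lt_of_lt_of_le H.hl1 H.hl12
  have hm2 : 0 < H.m2 := lt_trans one_pos H.hm2
  have hm1 : 0 < H.m1 := lt_of_lt_of_le hm2 H.hm12
  have hα : 0 < -Real.log H.l2 := by
    have := Real.log_neg hl2 H.hl2
    linarith
  have hγ : 0 < Real.log H.m2 := Real.log_pos H.hm2
  have hαβ : -Real.log H.l2 ≤ -Real.log H.l1 := by
    have := Real.log_le_log hl1 H.hl12
    linarith
  have hγδ : Real.log H.m2 ≤ Real.log H.m1 := Real.log_le_log hm2 H.hm12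
  obtain ⟨t, ht0, hta, htc, hpin⟩ := tos_rates hα hαβ hγ hγδ (by
    have e : (-Real.log H.l1 - -Real.log H.l2) = Real.log H.l2 - Real.log H.l1 := by ring
    rw [e]
    exact pinch)
  set a : ℝ := -Real.log H.l2 - t with ha_def
  set b : ℝ := -Real.log H.l1 + t with hb_def
  set c : ℝ := Real.log H.m2 - t with hc_def
  set e : ℝ := Real.log H.m1 + t with he_def
  have ha : 0 < a := by linarith
  have hab : a ≤ b := by linarith
  have hc : 0 < c := by linarith
  have hce : c ≤ e := by linarith
  have ha' : H.l2 < Real.exp (-a) := by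
    rw [← Real.log_lt_iff_lt_exp hl2]
    linarith
  have hb' : Real.exp (-b) < H.l1 := by
    rw [← Real.lt_log_iff_exp_lt hl1]
    linarith
  have hc' : H.symm.l2 < Real.exp (-c) := by
    change H.m2⁻¹ < Real.exp (-c)
    rw [← Real.log_lt_iff_lt_exp (inv_pos.2 hm2), Real.log_inv]
    linarith
  have he' : Real.exp (-e) < H.symm.l1 := by
    change Real.exp (-e) < H.m1⁻¹
    rw [← Real.lt_log_iff_exp_lt (inv_pos.2 hm1), Real.log_inv]
    linarith
  obtain ⟨Ps⟩ := H.exists_sparam ha hab ha' hb'
  obtain ⟨Pu⟩ := H.symm.exists_sparam hc hce hc' he'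
  obtain ⟨ρ1, hρ1, C1, hC1, hcmp1⟩ := H.cmp ha hab ha' hb'
  obtain ⟨ρ2, hρ2, C2, hC2, hcmp2⟩ := H.symm.cmp hc hce hc' he'
  let D : Sys M :=
    { f := H.f
      S := SRel H.f a b
      U := SRel H.f.symm c e
      a := a
      b := b
      c := c
      e := e
      ha := ha
      hab := hab
      hc := hc
      hce := hce
      pinch := hpin
      S_refl := fun x => SRel.refl x
      S_symm := fun x y t h => h.symm
      S_mono := fun x y t t' ht h => h.mono ht
      S_tri := fun x y z t t' h h' => h.tri h'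
      S_dist := fun x y t h => h.dist_le
      S_fwd := fun x y t h => h.fwd ha hab
      S_bwd := fun x y t h => h.bwd ha hab
      U_refl := fun x => SRel.refl x
      U_symm := fun x y t h => h.symm
      U_mono := fun x y t t' ht h => h.mono ht
      U_tri := fun x y z t t' h h' => h.tri h'
      U_dist := fun x y t h => h.dist_le
      U_bwd := fun x y t h => h.fwd hc hce
      U_fwd := fun x y t h => by
        have h1 := h.bwd hc hce
        simpa using h1
      r := min ρ1 ρ2
      hr := lt_min hρ1 hρ2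
      C := max C1 C2
      hC := hC1.trans (le_max_left _ _)
      S_cmp := fun x y h => by
        have h1 := hcmp1 x y (fun k => (tos_dist ha h k).trans (min_le_left _ _))
        exact h1.mono (mul_le_mul_of_nonneg_right (le_max_left _ _) dist_nonneg)
      U_cmp := fun x y h => by
        have h1 := hcmp2 x y (fun k => (tos_dist hc h k).trans (min_le_right _ _))
        exact SRel.mono (mul_le_mul_of_nonneg_right (le_max_right _ _) dist_nonneg) h1
      S_closed := fun t => SRel.closed t
      U_closed := fun t => SRel.closed t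
      br := T.bracket ha hc Ps Pu }
  let Λ : Leaves M D E :=
    { Es := H.Es
      Eu := H.Eu
      θs := Ps.θ
      θu := Pu.θ
      R0 := min Ps.R0 Pu.R0
      hR0 := lt_min Ps.hR0 Pu.hR0
      K0 := max Ps.K0 Pu.K0
      hK0 := Ps.hK0.trans (le_max_left _ _)
      s_zero := Ps.zero
      u_zero := Pu.zero
      s_lip := Ps.lip
      u_lip := Pu.lip
      s_inj := Ps.inj
      u_inj := Pu.inj
      s_surj := Ps.surj
      u_surj := Pu.surj
      s_inv := Ps.inv
      u_inv := Pu.inv
      s_unif := fun x v w hv hw =>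
        (Ps.unif x v w (hv.trans (min_le_left _ _)) (hw.trans (min_le_left _ _))).mono
          (mul_le_mul_of_nonneg_right (le_max_left _ _) (norm_nonneg _))
      u_unif := fun x v w hv hw =>
        SRel.mono (mul_le_mul_of_nonneg_right (le_max_right _ _) (norm_nonneg _))
          (Pu.unif x v w (hv.trans (min_le_right _ _)) (hw.trans (min_le_right _ _)))
      s_loc := fun x y t ht h => by
        have ht0 : 0 ≤ t := dist_nonneg.trans h.dist_le
        obtain ⟨v, hv, hvy⟩ := Ps.loc x y t (ht.trans (min_le_left _ _)) h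
        exact ⟨v, hv.trans (mul_le_mul_of_nonneg_right (le_max_left _ _) ht0), hvy⟩
      u_loc := fun x y t ht h => by
        have ht0 : 0 ≤ t := dist_nonneg.trans h.dist_le
        obtain ⟨v, hv, hvy⟩ := Pu.loc x y t (ht.trans (min_le_right _ _)) h
        exact ⟨v, hv.trans (mul_le_mul_of_nonneg_right (le_max_right _ _) ht0), hvy⟩ }
  exact ⟨D, Λ, H.compl⟩

end Pool.Agent.ANO
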