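import Mathlib
import Pool.Agent.ANO.PWR
import Pool.Agent.ANO.AS1
import Pool.Agent.ANO.CHL
import Pool.Agent.ANO.FMX
import Pool.Agent.ANO.TOS
import Pool.Agent.ANO.CVR

open Set Metric Function
open scoped Manifold ContDiff

namespace Pool.Agent.ANO

/-- The covering for a diffeomorphism which is hyperbolic in one step and pinched, on a manifold with the
metric of an immersion. -/
theorem Anosov1.exists_covering {d : ℕ} {M : Type} [MetricSpace M] [CompactSpace M] [Nonempty M]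
    [ChartedSpace (EuclideanSpace ℝ (Fin d)) M] [IsManifold (𝓡 d) ∞ M] (𝒜 : Anosov1 d M)
    (pinch : (Real.log 𝒜.l2 - Real.log 𝒜.l1) * (Real.log 𝒜.m1 - Real.log 𝒜.m2) <
      (-Real.log 𝒜.l2) * Real.log 𝒜.m2) {n : ℕ} (e : M → EuclideanSpace ℝ (Fin n))
    (he : ContMDiff (𝓡 d) (𝓡 n) ∞ e) (hinj : ∀ x, Injective (mfderiv (𝓡 d) (𝓡 n) e x))
    (hd : ∀ x y, dist x y = dist (e x) (e y)) :
    ∃ p : EuclideanSpace ℝ (Fin d) → M, IsCoveringMap p := by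
  obtain ⟨F⟩ := exists_fam (chartLip e he hinj hd)
  obtain ⟨H, T, h1, h2, h3, h4⟩ := 𝒜.exists_loc F
  rw [← h1, ← h2, ← h3, ← h4] at pinch
  obtain ⟨D, Λ, hΛ⟩ := T.exists_sys pinch
  have : LocallyConnectedSpace M :=
    ChartedSpace.locallyConnectedSpace (EuclideanSpace ℝ (Fin d)) M
  obtain ⟨x⟩ := ‹Nonempty M›
  exact Pool.Agent.ANO.exists_covering D Λ x (hΛ x)

/-- Pinched Anosov diffeomorphisms live on manifolds covered by the Euclidean space. -/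
theorem pinched_covering (d : ℕ) (M : Type) [TopologicalSpace M] [T2Space M] [CompactSpace M]
    [ConnectedSpace M] [ChartedSpace (EuclideanSpace ℝ (Fin d)) M] [IsManifold (𝓡 d) ∞ M]
    (f g : M → M) (hf : ContMDiff (𝓡 d) (𝓡 d) 1 f) (hg : ContMDiff (𝓡 d) (𝓡 d) 1 g)
    (gf : Function.LeftInverse g f) (fg : Function.RightInverse g f)
    (N : ∀ x : M, TangentSpace (𝓡 d) x → ℝ)
    (N_cont : Continuous (fun p : TangentBundle (𝓡 d) M => N p.proj p.snd))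
    (N_add : ∀ (x : M) (v w : TangentSpace (𝓡 d) x), N x (v + w) ≤ N x v + N x w)
    (N_smul : ∀ (x : M) (c : ℝ) (v : TangentSpace (𝓡 d) x), N x (c • v) = |c| * N x v)
    (N_pos : ∀ (x : M) (v : TangentSpace (𝓡 d) x), N x v = 0 → v = 0)
    (C a b c e : ℝ) (hC : 0 < C) (ha : 0 < a) (hab : a ≤ b) (hc : 0 < c) (hce : c ≤ e)
    (pinch : (b - a) * (e - c) < a * c)
    (Es Eu : ∀ x : M, Submodule ℝ (TangentSpace (𝓡 d) x))
    (hcompl : ∀ x : M, IsCompl (Es x) (Eu x))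
    (inv_s : ∀ (x : M) (v : TangentSpace (𝓡 d) x), v ∈ Es x →
      mfderiv (𝓡 d) (𝓡 d) f x v ∈ Es (f x))
    (inv_u : ∀ (x : M) (v : TangentSpace (𝓡 d) x), v ∈ Eu x →
      mfderiv (𝓡 d) (𝓡 d) f x v ∈ Eu (f x))
    (s_hi : ∀ (x : M) (v : TangentSpace (𝓡 d) x), v ∈ Es x → ∀ k : ℕ,
      N (Nat.iterate f k x) (mfderiv (𝓡 d) (𝓡 d) (Nat.iterate f k) x v) ≤
        C * Real.exp (-(a * k)) * N x v)
    (s_lo : ∀ (x : M) (v : TangentSpace (𝓡 d) x), v ∈ Es x → ∀ k : ℕ,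
      Real.exp (-(b * k)) * N x v ≤
        C * N (Nat.iterate f k x) (mfderiv (𝓡 d) (𝓡 d) (Nat.iterate f k) x v))
    (u_lo : ∀ (x : M) (v : TangentSpace (𝓡 d) x), v ∈ Eu x → ∀ k : ℕ,
      Real.exp (c * k) * N x v ≤
        C * N (Nat.iterate f k x) (mfderiv (𝓡 d) (𝓡 d) (Nat.iterate f k) x v))
    (u_hi : ∀ (x : M) (v : TangentSpace (𝓡 d) x), v ∈ Eu x → ∀ k : ℕ,
      N (Nat.iterate f k x) (mfderiv (𝓡 d) (𝓡 d) (Nat.iterate f k) x v) ≤
        C * Real.exp (e * k) * N x v) :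
    ∃ p : EuclideanSpace ℝ (Fin d) → M, IsCoveringMap p := by
  obtain ⟨𝒜, hp⟩ := exists_anosov1 f g hf hg gf fg N N_cont N_add N_smul N_pos C a b c e hC ha hab hc
    hce pinch Es Eu hcompl inv_s inv_u s_hi s_lo u_lo u_hi
  obtain ⟨n, i, hi, hi2, hi3⟩ := exists_embedding_euclidean_of_compact (I := 𝓡 d) (M := M)
  let _ : MetricSpace M := hi2.isEmbedding.comapMetricSpace
  exact 𝒜.exists_covering hp i hi hi3 (fun x y => rfl)

end Pool.Agent.ANO
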